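import Pool.Agent.MP_d3fa2a_an.F.Def

set_option autoImplicit false

open Finset Polynomial
open scoped ComplexConjugate

namespace Pool.Agent.MP_d3fa2a_an.F

theorem cand_split (m : ℕ) (g : ℕ → ℂ) (u : ℂ) :
    P (m + 2) g u = g 1 * u + g (m + 2) * u ^ (m + 2)
      + ∑ j : Fin m, g (j + 2) * u ^ ((j : ℕ) + 2) := by
  rw [P, sum_Icc_succ_top (by omega), Fin.sum_univ_eq_sum_range (fun j => g (j + 2) * u ^ (j + 2)),
    ← Finset.Ico_add_one_right_eq_Icc, sum_Ico_eq_sum_range, show m + 1 + 1 - 1 = m + 1 by omega,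
    sum_range_succ']
  simp only [show ∀ j, 1 + (j + 1) = j + 2 from fun j => by omega, add_zero, pow_one]
  ring

/-- the equations of the system -/
noncomputable def cand_F (m : ℕ) (c : ℕ → ℂ) (i : Fin m) : MvPolynomial (Fin m ⊕ Fin m) ℂ :=
  MvPolynomial.C (c 1) * MvPolynomial.X (Sum.inr i)
    + MvPolynomial.C (c (m + 2)) * MvPolynomial.X (Sum.inr i) ^ (m + 2)
    + ∑ j : Fin m, MvPolynomial.C (c (j + 2)) * MvPolynomial.X (Sum.inl j)
      * MvPolynomial.X (Sum.inr i) ^ ((j : ℕ) + 2)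

theorem cand_eval (m : ℕ) (c : ℕ → ℂ) (i : Fin m) (x : Fin m ⊕ Fin m → ℂ) :
    MvPolynomial.eval x (cand_F m c i) = c 1 * x (Sum.inr i) + c (m + 2) * x (Sum.inr i) ^ (m + 2)
      + ∑ j : Fin m, c (j + 2) * x (Sum.inl j) * x (Sum.inr i) ^ ((j : ℕ) + 2) := by
  simp [cand_F]

theorem cand_der (m : ℕ) (c : ℕ → ℂ) (i : Fin m) (x v : Fin m ⊕ Fin m → ℂ)
    (h : HasDerivAt (fun t : ℂ => MvPolynomial.eval (x + t • v) (cand_F m c i)) 0 0) :
    v (Sum.inr i) * MvPolynomial.eval x (cand_F m (fun k => k * c k) i) + x (Sum.inr i) *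
      ∑ j : Fin m, c (j + 2) * v (Sum.inl j) * x (Sum.inr i) ^ ((j : ℕ) + 2) = 0 := by
  have h0 : ∀ s, HasDerivAt (fun t : ℂ => x s + t * v s) (v s) 0 := fun s => by
    simpa using ((hasDerivAt_id (0 : ℂ)).mul_const (v s)).const_add (x s)
  have h1 := (((h0 (Sum.inr i)).const_mul (c 1)).fun_add
    (((h0 (Sum.inr i)).fun_pow (m + 2)).const_mul (c (m + 2)))).fun_add
    (HasDerivAt.fun_sum (u := univ) fun (j : Fin m) _ =>
      ((h0 (Sum.inl j)).const_mul (c (j + 2))).fun_mul ((h0 (Sum.inr i)).fun_pow ((j : ℕ) + 2)))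
  simp only [cand_eval, Pi.add_apply, Pi.smul_apply, smul_eq_mul] at h
  have h2 := congrArg (fun t => x (Sum.inr i) * t) (h1.unique h)
  simp only [zero_mul, add_zero, mul_zero, mul_add, mul_sum, sum_add_distrib] at h2
  rw [cand_eval, ← h2]
  simp only [mul_add, mul_sum, show m + 2 - 1 = m + 1 from rfl,
    show ∀ j : Fin m, (j : ℕ) + 2 - 1 = j + 1 from fun j => rfl]
  have h3 : ∑ j : Fin m, v (Sum.inr i) * ((((j : ℕ) + 2 : ℕ) : ℂ) * c (j + 2) * x (Sum.inl j) *
      x (Sum.inr i) ^ ((j : ℕ) + 2)) = ∑ j : Fin m, x (Sum.inr i) * (c (j + 2) * x (Sum.inl j) *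
        ((((j : ℕ) + 2 : ℕ) : ℂ) * x (Sum.inr i) ^ ((j : ℕ) + 1) * v (Sum.inr i))) :=
    sum_congr rfl fun j _ => by ring
  rw [h3]
  push_cast
  ring

theorem cand_diff (m : ℕ) (g b : ℕ → ℂ) (z : Fin m → ℂ) (ω : ℂ) (i : Fin m) (h1 : b 1 = 1)
    (h2 : b (m + 2) = 1) :
    MvPolynomial.eval (Sum.elim (fun j : Fin m => b (j + 2)) z)
      (cand_F m (fun k => g k * (1 - ω ^ k)) i) =
      P (m + 2) (fun k => g k * b k) (z i) - P (m + 2) (fun k => g k * b k) (ω * z i) := by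
  rw [cand_eval, cand_split, cand_split, h1, h2]
  simp only [Sum.elim_inl, Sum.elim_inr]
  have h3 : ∑ j : Fin m, g (j + 2) * (1 - ω ^ ((j : ℕ) + 2)) * b (j + 2) * z i ^ ((j : ℕ) + 2)
      = ∑ j : Fin m, g (j + 2) * b (j + 2) * z i ^ ((j : ℕ) + 2)
        - ∑ j : Fin m, g (j + 2) * b (j + 2) * (ω * z i) ^ ((j : ℕ) + 2) := by
    rw [← sum_sub_distrib]
    exact sum_congr rfl fun j _ => by ring
  rw [h3]
  ring

theorem cand_ne {n k : ℕ} (hk : k ∈ Icc 1 n) : (n : ℂ) + 1 - k ≠ 0 := by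
  have h1 := mem_Icc.1 hk
  have h2 : (n : ℂ) + 1 - k = ((n + 1 - k : ℕ) : ℂ) := by
    rw [Nat.cast_sub (by omega)]
    push_cast
    ring
  rw [h2]
  exact Nat.cast_ne_zero.2 (by omega)

theorem cand_pair (h2 : BdSt) {n : ℕ} (hn : 1 ≤ n) {a : ℕ → ℂ} (hU : U n a) (hF : Face n a)
    {z w : ℂ} (hz : ‖z‖ = 1) (hw : ‖w‖ = 1) (hzw : z ≠ w) (h : P n a z = P n a w) :
    z ^ (n + 1) = w ^ (n + 1) ∧
      P n (fun k => 1 * (n * a k / ((n : ℂ) + 1 - k))) z
        = P n (fun k => 1 * (n * a k / ((n : ℂ) + 1 - k))) w ∧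
      P n (fun k => k * (n * a k / ((n : ℂ) + 1 - k))) z
        = P n (fun k => k * (n * a k / ((n : ℂ) + 1 - k))) w ∧
      P n (fun k => k * k * (n * a k / ((n : ℂ) + 1 - k))) z
        ≠ P n (fun k => k * k * (n * a k / ((n : ℂ) + 1 - k))) w := by
  have hev : (pol n a).eval = P n a := funext (eval_pol n a)
  obtain ⟨h3, r, hr, h4⟩ := (h2 (pol n a) (hev ▸ hU.2)).2.2 z w hz hw hzw (by rw [eval_pol, eval_pol, h])
  have hw0 : w ≠ 0 := norm_pos_iff.1 (hw ▸ one_pos)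
  have h5 : P n (fun k => k * a k) w ≠ 0 := by
    rw [← mul_der_pol]
    exact mul_ne_zero hw0 h3
  rw [mul_der_pol, mul_der_pol] at h4
  have hrev : ∀ u : ℂ, ‖u‖ = 1 →
      u ^ (n + 1) * conj (P n (fun k => k * a k) u) = P n (fun k => k * a k) u := by
    intro u hu
    rw [P_rev_circle n _ hu]
    refine P_congr (fun k hk => ?_) u
    have := mem_Icc.1 hk
    rw [hF k hk, map_mul, Complex.conj_natCast, Nat.cast_sub (by omega)]
    push_cast
    ring
  have hr0 : (r : ℂ) ≠ 0 := Complex.ofReal_ne_zero.2 hr.ne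
  have hr1 : (r : ℂ) - 1 ≠ 0 := by
    rw [← Complex.ofReal_one, ← Complex.ofReal_sub]
    exact Complex.ofReal_ne_zero.2 (by linarith)
  have e0 : z ^ (n + 1) = w ^ (n + 1) := by
    have a1 := hrev z hz
    have a2 := hrev w hw
    rw [h4, map_mul, Complex.conj_ofReal] at a1
    refine mul_right_cancel₀ (mul_ne_zero hr0 ((_root_.map_ne_zero conj).2 h5)) ?_
    linear_combination a1 - r * a2
  have k1 : ∀ u : ℂ, ‖u‖ = 1 → P n (fun k => k * (n * a k / ((n : ℂ) + 1 - k))) u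
      = n * (u ^ (n + 1) * conj (P n a u)) := by
    intro u hu
    rw [P_rev_circle n _ hu, P, P, mul_sum]
    refine sum_congr rfl fun k hk => ?_
    have a1 := hF k hk
    have a2 := cand_ne hk
    field_simp
    linear_combination (n * u ^ k) * a1
  have k0 : ∀ u : ℂ, ((n : ℂ) + 1) * P n (fun k => 1 * (n * a k / ((n : ℂ) + 1 - k))) u
      = n * P n a u + P n (fun k => k * (n * a k / ((n : ℂ) + 1 - k))) u := by
    intro u
    rw [P, P, P, mul_sum, mul_sum, ← sum_add_distrib]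
    refine sum_congr rfl fun k hk => ?_
    have a2 := cand_ne hk
    field_simp
    ring
  have k2 : ∀ u : ℂ, P n (fun k => k * k * (n * a k / ((n : ℂ) + 1 - k))) u
      = ((n : ℂ) + 1) * P n (fun k => k * (n * a k / ((n : ℂ) + 1 - k))) u
        - n * P n (fun k => k * a k) u := by
    intro u
    rw [P, P, P, mul_sum, mul_sum, ← sum_sub_distrib]
    refine sum_congr rfl fun k hk => ?_
    have a2 := cand_ne hk
    field_simp
    ring
  have e1 : P n (fun k => k * (n * a k / ((n : ℂ) + 1 - k))) z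
      = P n (fun k => k * (n * a k / ((n : ℂ) + 1 - k))) w := by
    rw [k1 z hz, k1 w hw, e0, h]
  refine ⟨e0, mul_left_cancel₀ (Nat.cast_add_one_ne_zero n) (by rw [k0, k0, e1, h]), e1,
    fun e2 => ?_⟩
  rw [k2, k2, e1, h4] at e2
  have hn0 : (n : ℂ) ≠ 0 := Nat.cast_ne_zero.2 (by omega)
  exact mul_ne_zero (mul_ne_zero hn0 hr1) h5 (by linear_combination -e2)

theorem cand_st (h1 : FinSt) (h2 : BdSt) : CandSt := by
  intro n hn
  obtain ⟨m, rfl⟩ : ∃ m, n = m + 2 := ⟨n - 2, by omega⟩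
  let f : (Fin m → ℂ) → Fin m ⊕ Fin m → MvPolynomial (Fin m ⊕ Fin m) ℂ := fun ω =>
    Sum.elim (fun i => cand_F m (fun k => 1 * (1 - ω i ^ k)) i)
      fun i => cand_F m (fun k => k * (1 - ω i ^ k)) i
  let g : (Fin m ⊕ Fin m → ℂ) → ℕ → ℂ := fun x k =>
    if k ∈ Icc 1 (m + 2) then (((m + 2 : ℕ) : ℂ) + 1 - k) / ((m + 2 : ℕ) : ℂ) *
      (if h : 2 ≤ k ∧ k - 2 < m then x (Sum.inl ⟨k - 2, h.2⟩) else 1) else 0
  have hΩ : {ω : Fin m → ℂ | ∀ i, ω i ∈ {u : ℂ | u ^ (m + 2 + 1) = 1}}.Finite :=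
    Set.Finite.pi' fun _ => (nthRoots (m + 2 + 1) (1 : ℂ)).toFinset.finite_toSet.subset
      fun u hu => by simpa [mem_nthRoots] using hu
  refine (hΩ.biUnion fun ω _ => (h1 _ _ (f ω)).image g).subset ?_
  rintro a ⟨ha0, hU, hF, z, w, hzw, hdet⟩
  have hn0 : ((m + 2 : ℕ) : ℂ) ≠ 0 := Nat.cast_ne_zero.2 (by omega)
  have hz0 : ∀ i, z i ≠ 0 := fun i => norm_pos_iff.1 ((hzw i).1 ▸ one_pos)
  have hne : ∀ i, z i ≠ w i := fun i h =>
    hdet (Matrix.det_eq_zero_of_row_eq_zero i fun j => by simp [h])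
  have hp := fun i => cand_pair h2 (by omega) hU hF (hzw i).1 (hzw i).2.1 (hne i) (hzw i).2.2
  set b : ℕ → ℂ := fun k => ((m + 2 : ℕ) : ℂ) * a k / (((m + 2 : ℕ) : ℂ) + 1 - k) with hb
  have b1 : b 1 = 1 := by
    simp only [hb, hU.1, Nat.cast_one, add_sub_cancel_right, mul_one, div_self hn0]
  have b2 : b (m + 2) = 1 := by
    have := hF (m + 2) (mem_Icc.2 ⟨by omega, le_rfl⟩)
    rw [show m + 2 + 1 - (m + 2) = 1 by omega, hU.1, map_one] at this
    simp only [hb, this, add_sub_cancel_left, mul_one, div_one]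
  have hw : ∀ i, w i / z i * z i = w i := fun i => div_mul_cancel₀ _ (hz0 i)
  have hd := fun (c : ℕ → ℂ) (i : Fin m) => cand_diff m c b z (w i / z i) i b1 b2
  simp only [hw] at hd
  refine Set.mem_biUnion (x := fun i => w i / z i) (fun i => ?_)
    ⟨Sum.elim (fun j : Fin m => b (j + 2)) z, ⟨?_, fun v hv => ?_⟩, ?_⟩
  · rw [Set.mem_ofPred_eq, div_pow, ← (hp i).1, div_self (pow_ne_zero _ (hz0 i))]
  · rintro (i | i)
    · exact (hd (fun _ => 1) i).trans (sub_eq_zero.2 (hp i).2.1)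
    · exact (hd (fun k => k) i).trans (sub_eq_zero.2 (hp i).2.2.1)
  · have hβ : (fun j : Fin m => v (Sum.inl j)) = 0 := by
      refine Matrix.eq_zero_of_mulVec_eq_zero hdet (funext fun i => ?_)
      have a1 := cand_der m (fun k => 1 * (1 - (w i / z i) ^ k)) i
        (Sum.elim (fun j : Fin m => b (j + 2)) z) v (hv (Sum.inl i))
      simp only [one_mul] at a1
      rw [hd (fun k => k) i, sub_eq_zero.2 (hp i).2.2.1, mul_zero, zero_add] at a1
      refine Eq.trans ?_ ((mul_eq_zero.1 a1).resolve_left (hz0 i))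
      simp only [Matrix.mulVec, dotProduct, Matrix.of_apply, Sum.elim_inr]
      refine sum_congr rfl fun j _ => ?_
      rw [div_pow]
      have := pow_ne_zero ((j : ℕ) + 2) (hz0 i)
      field_simp
    funext s
    rcases s with j | i
    · exact congrFun hβ j
    · have a1 := cand_der m (fun k => k * (1 - (w i / z i) ^ k)) i
        (Sum.elim (fun j : Fin m => b (j + 2)) z) v (hv (Sum.inr i))
      simp only [← mul_assoc] at a1
      rw [hd (fun k => k * k) i, sum_eq_zero fun j _ => by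
        rw [show v (Sum.inl j) = 0 from congrFun hβ j, mul_zero, zero_mul], mul_zero,
        add_zero] at a1
      exact (mul_eq_zero.1 a1).resolve_right (sub_ne_zero.2 (hp i).2.2.2)
  · funext k
    simp only [g]
    split_ifs with hk h
    · rw [Sum.elim_inl, show k - 2 + 2 = k by omega]
      have := cand_ne hk
      simp only [hb]
      field_simp
    · have a1 := mem_Icc.1 hk
      have a2 : b k = 1 := by
        rcases (by omega : k = 1 ∨ k = m + 2) with rfl | rfl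
        · exact b1
        · exact b2
      have := cand_ne hk
      simp only [hb] at a2
      rw [div_eq_one_iff_eq this] at a2
      rw [mul_one, ← a2, mul_div_cancel_left₀ _ hn0]
    · exact (ha0 k hk).symm

end Pool.Agent.MP_d3fa2a_an.F
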