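import Pool.Agent.MP_d3fa2a_an.F.Def

/-! Univalence from the zeros of the self inversive pencil. -/

set_option autoImplicit false

open Finset Polynomial Metric
open scoped ComplexConjugate

namespace Pool.Agent.MP_d3fa2a_an.F

theorem cohn_ker {q : ℂ[X]} (hq0 : q.eval 0 ≠ 0) (hN : 0 < q.natDegree)
    (hs : ∀ z, z ≠ 0 → q.eval z = 0 → q.eval (conj z)⁻¹ = 0)
    (hcard : ¬(2 ≤ (q.roots.filter fun z => ‖z‖ < 1).card ∧
      2 ≤ (q.roots.filter fun z => 1 < ‖z‖).card)) {x y : ℂ} (hx : ‖x‖ < 1) (hy : ‖y‖ < 1)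
    (hx0 : x ≠ 0) (hy0 : y ≠ 0) (h1 : ∀ z, z = x ∨ z = y → z * q.derivative.eval z =
      q.natDegree * q.eval z ∧ q.derivative.eval (conj z)⁻¹ = 0) : x = y := by
  by_contra hxy
  have hq : q ≠ 0 := fun h => hq0 (by simp [h])
  have hr0 : ∀ z, q.eval z = 0 → z ≠ 0 := fun z hz h => hq0 (h ▸ hz)
  have hout : ∀ z : ℂ, z ≠ 0 → ‖z‖ < 1 → 1 < ‖(conj z)⁻¹‖ := fun z h0 h => by
    rw [norm_inv, Complex.norm_conj]
    exact (one_lt_inv₀ (norm_pos_iff.2 h0)).2 h
  have two : ∀ (p : ℂ → Prop) [DecidablePred p] (u v : ℂ), u ≠ v → p u → p v → q.eval u = 0 →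
      q.eval v = 0 → 2 ≤ (q.roots.filter p).card := fun p _ u v huv pu pv hu hv => by
    refine le_trans ?_ (Multiset.toFinset_card_le _)
    refine Finset.one_lt_card.2 ⟨u, ?_, v, ?_, huv⟩ <;>
      simp [*]
  have dbl : ∀ (p : ℂ → Prop) [DecidablePred p] (u : ℂ), p u → q.eval u = 0 →
      q.derivative.eval u = 0 → 2 ≤ (q.roots.filter p).card := fun p _ u pu hu hu' => by
    refine le_trans ?_ (Multiset.count_le_card u _)
    rw [Multiset.count_filter_of_pos pu, count_roots]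
    exact (one_lt_rootMultiplicity_iff_isRoot hq).2 ⟨hu, hu'⟩
  have hz : ∀ z, z = x ∨ z = y → z ≠ 0 ∧ ‖z‖ < 1 := by
    rintro z (rfl | rfl) <;> exact ⟨‹_›, ‹_›⟩
  have hne : ∀ z, z = x ∨ z = y → q.eval z ≠ 0 := fun z h hq => by
    refine hcard ⟨dbl _ z (hz z h).2 hq ?_, dbl _ _ (hout z (hz z h).1 (hz z h).2)
      (hs z (hz z h).1 hq) (h1 z h).2⟩
    have := (h1 z h).1
    rw [hq, mul_zero] at this
    exact (mul_eq_zero.1 this).resolve_left (hz z h).1
  have hne' : ∀ z, z = x ∨ z = y → q.eval (conj z)⁻¹ ≠ 0 := fun z h hq => by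
    have := hs _ (hr0 _ hq) hq
    rw [map_inv₀, Complex.conj_conj, inv_inv] at this
    exact hne z h this
  obtain ⟨β, hβ⟩ : ∃ β : ℂ, ∀ z, q.eval z = 0 → ‖z‖ < 1 → z = β := by
    by_cases h : ∃ β, q.eval β = 0 ∧ ‖β‖ < 1
    · obtain ⟨β, b1, b2⟩ := h
      refine ⟨β, fun z z1 z2 => ?_⟩
      by_contra hzb
      refine hcard ⟨two _ z β hzb z2 b2 z1 b1, two _ _ _ (fun h => hzb ?_) (hout z (hr0 z z1) z2)
        (hout β (hr0 β b1) b2) (hs z (hr0 z z1) z1) (hs β (hr0 β b1) b1)⟩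
      exact (starRingEnd ℂ).injective (inv_injective h)
    · exact ⟨0, fun z z1 z2 => absurd ⟨z, z1, z2⟩ h⟩
  have hd : ∀ ζ ∈ q.roots, ∀ z, z = x ∨ z = y → ζ - z ≠ 0 ∧ 1 - ζ * conj z ≠ 0 := by
    intro ζ hζ z h
    have hζ' : q.eval ζ = 0 := (mem_roots hq).1 hζ
    refine ⟨fun e => hne z h (sub_eq_zero.1 e ▸ hζ'), fun e => hne' z h ?_⟩
    rwa [← eq_inv_of_mul_eq_one_left (sub_eq_zero.1 e).symm]
  have K : ∀ u v, u = x ∨ u = y → v = x ∨ v = y →
      (q.roots.map fun ζ => ζ / ((ζ - u) * (1 - ζ * conj v))).sum =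
        -q.natDegree / (1 - u * conj v) := by
    intro u v hu hv
    have a := (IsAlgClosed.splits q).eval_derivative_div_eval_of_ne_zero (hne u hu)
    have b := (IsAlgClosed.splits q).eval_derivative_div_eval_of_ne_zero (hne' v hv)
    have c := R.one_sub_ne (hz u hu).2 (hz v hv).2
    have d : conj v ≠ 0 := (_root_.map_ne_zero _).2 (hz v hv).1
    rw [Multiset.map_congr rfl (g := fun ζ => (1 - u * conj v)⁻¹ * ((conj v)⁻¹ *
      (1 / ((conj v)⁻¹ - ζ)) - u * (1 / (u - ζ)))) fun ζ hζ => ?_]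
    · rw [Multiset.sum_map_mul_left, Multiset.sum_map_sub, Multiset.sum_map_mul_left,
        Multiset.sum_map_mul_left, ← a, ← b, (h1 v hv).2, ← mul_div_assoc u, (h1 u hu).1,
        mul_div_cancel_right₀ _ (hne u hu)]
      ring
    · have e1 := (hd ζ hζ u hu).1
      have e2 := (hd ζ hζ v hv).2
      have e3 : u - ζ ≠ 0 := fun h => e1 (by linear_combination -h)
      have e4 : 1 - conj v * ζ ≠ 0 := by rwa [mul_comm]
      field_simp
      ring
  have hS := R.szego (l := β - x) (m := y - β) hx hy hxy (by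
    by_contra h
    push Not at h
    exact hxy (by linear_combination -h.1 - h.2))
  have hsum : (q.roots.map fun ζ => ζ * ((β - x) / (ζ - x) + (y - β) / (ζ - y)) *
      (conj (β - x) / (1 - ζ * conj x) + conj (y - β) / (1 - ζ * conj y))).sum =
      -q.natDegree * ((β - x) * conj (β - x) / (1 - x * conj x) +
        (β - x) * conj (y - β) / (1 - x * conj y) + (y - β) * conj (β - x) / (1 - y * conj x) +
        (y - β) * conj (y - β) / (1 - y * conj y)) := by
    rw [Multiset.map_congr rfl (g := fun ζ =>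
      (β - x) * conj (β - x) * (ζ / ((ζ - x) * (1 - ζ * conj x))) +
      (β - x) * conj (y - β) * (ζ / ((ζ - x) * (1 - ζ * conj y))) +
      (y - β) * conj (β - x) * (ζ / ((ζ - y) * (1 - ζ * conj x))) +
      (y - β) * conj (y - β) * (ζ / ((ζ - y) * (1 - ζ * conj y)))) fun ζ _ => by
        simp only [div_eq_mul_inv, mul_inv]
        ring]
    simp only [Multiset.sum_map_add, Multiset.sum_map_mul_left]
    rw [K x x (.inl rfl) (.inl rfl), K x y (.inl rfl) (.inr rfl), K y x (.inr rfl) (.inl rfl),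
      K y y (.inr rfl) (.inr rfl)]
    ring
  have hpos : 0 ≤ ((q.roots.map fun ζ => ζ * ((β - x) / (ζ - x) + (y - β) / (ζ - y)) *
      (conj (β - x) / (1 - ζ * conj x) + conj (y - β) / (1 - ζ * conj y))).sum).re := by
    rw [← Complex.reCLM_apply, map_multiset_sum, Multiset.map_map]
    refine Multiset.sum_nonneg fun r hr => ?_
    obtain ⟨ζ, hζ, rfl⟩ := Multiset.mem_map.1 hr
    have hζ' : q.eval ζ = 0 := (mem_roots hq).1 hζ
    obtain ⟨x1, x2⟩ := hd ζ hζ x (.inl rfl)
    obtain ⟨y1, y2⟩ := hd ζ hζ y (.inr rfl)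
    have z0 := hr0 ζ hζ'
    simp only [Function.comp, Complex.reCLM_apply]
    rcases lt_trichotomy ‖ζ‖ 1 with h | h | h
    · obtain rfl := hβ ζ hζ' h
      have : (ζ - x) / (ζ - x) + (y - ζ) / (ζ - y) = 0 := by
        field_simp
        ring
      simp [this]
    · have e : conj ζ = ζ⁻¹ := (Complex.inv_eq_conj h).symm
      have e2 : ∀ l u : ℂ, 1 - ζ * conj u ≠ 0 → conj (l / (ζ - u)) =
          ζ * (conj l / (1 - ζ * conj u)) := fun l u hu => by
        rw [map_div₀, map_sub, e]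
        field_simp
      rw [mul_comm ζ, mul_assoc, mul_add, ← e2 _ _ x2, ← e2 _ _ y2, ← map_add, Complex.mul_conj']
      norm_cast
      positivity
    · have b := hβ _ (hs ζ z0 hζ') (by
        rw [norm_inv, Complex.norm_conj]
        exact inv_lt_one_of_one_lt₀ h)
      have : conj (β - x) / (1 - ζ * conj x) + conj (y - β) / (1 - ζ * conj y) = 0 := by
        rw [← b, map_sub, map_sub, map_inv₀, Complex.conj_conj]
        field_simp
        ring
      rw [this, mul_zero, Complex.zero_re]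
  rw [hsum, neg_mul, Complex.neg_re, ← Complex.ofReal_natCast, Complex.re_ofReal_mul] at hpos
  have : (0 : ℝ) < q.natDegree := by exact_mod_cast hN
  nlinarith [mul_pos this hS]

theorem cohn_card {q : ℂ[X]}
    (h : cnt q 1 ≤ 1 ∨ (q.roots.filter fun z => ‖z‖ ≠ 1).card ≤ 3) :
    ¬(2 ≤ (q.roots.filter fun z => ‖z‖ < 1).card ∧
      2 ≤ (q.roots.filter fun z => 1 < ‖z‖).card) := by
  rintro ⟨a, b⟩
  rcases h with h | h3
  · unfold cnt at h
    omega
  · have := congrArg Multiset.card (Multiset.filter_add_filter (fun z => ‖z‖ < 1)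
      (fun z => 1 < ‖z‖) q.roots)
    rw [Multiset.card_add, Multiset.card_add,
      Multiset.filter_congr (p := fun z => ‖z‖ < 1 ∨ 1 < ‖z‖) (q := fun z => ‖z‖ ≠ 1)
        fun z _ => ne_iff_lt_or_gt.symm,
      (Multiset.filter_eq_nil (p := fun z : ℂ => ‖z‖ < 1 ∧ 1 < ‖z‖)).2
        fun z _ h => lt_asymm h.1 h.2, Multiset.card_zero] at this
    omega

theorem cohn_ne {n : ℕ} {l : ℂ} {b : ℕ → ℂ} (hn : 1 ≤ n) (hl : ‖l‖ = 1)
    (hb : ∀ k ∈ Icc 1 n, b k = l * conj (b (n + 1 - k)))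
    (hc : ∀ c : ℂ, c ≠ 0 → ‖c‖ ≤ ∑ k ∈ Icc 1 n, ‖b k‖ → cnt (T n l b c) 1 ≤ 1 ∨
      ((T n l b c).roots.filter fun z => ‖z‖ ≠ 1).card ≤ 3)
    {x y : ℂ} (hx : ‖x‖ < 1) (hy : ‖y‖ < 1)
    (h : P n (fun k => ((n : ℂ) + 1 - k) / n * b k) x =
      P n (fun k => ((n : ℂ) + 1 - k) / n * b k) y)
    (w0 : P n (fun k => ((n : ℂ) + 1 - k) / n * b k) x ≠ 0) : x = y := by
  set s := P n (fun k => ((n : ℂ) + 1 - k) / n * b k) with hs'
  set w := s x with hw
  have n0 : (n : ℂ) ≠ 0 := by exact_mod_cast (by omega)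
  have N0 : (n : ℂ) + 1 ≠ 0 := by exact_mod_cast n.succ_ne_zero
  have l0 : l ≠ 0 := norm_pos_iff.1 (hl ▸ one_pos)
  have ll : l * conj l = 1 := by
    rw [Complex.mul_conj', hl]
    simp
  set c : ℂ := -(n / (n + 1)) * w with hc'
  have c0 : c ≠ 0 := mul_ne_zero (neg_ne_zero.2 (div_ne_zero n0 N0)) w0
  have cw : ((n : ℂ) + 1) * c + n * w = 0 := by
    rw [hc']
    field_simp
    ring
  have nR : (0 : ℝ) < n := by exact_mod_cast hn
  have cle : ‖c‖ ≤ ∑ k ∈ Icc 1 n, ‖b k‖ := by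
    have a1 : ‖w‖ ≤ ∑ k ∈ Icc 1 n, ‖b k‖ := by
      refine (norm_P_le n _ hx.le).trans (sum_le_sum fun k hk => ?_)
      rw [norm_mul]
      refine mul_le_of_le_one_left (norm_nonneg _) ?_
      have hk' := mem_Icc.1 hk
      have : ((n : ℂ) + 1 - k) = ((n + 1 - k : ℕ) : ℂ) := by
        push_cast [hk'.2.trans n.le_succ]
        ring
      rw [this, norm_div, Complex.norm_natCast, Complex.norm_natCast, div_le_one nR]
      exact_mod_cast (by omega)
    refine le_trans ?_ a1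
    rw [hc', norm_mul, norm_neg]
    refine mul_le_of_le_one_left (norm_nonneg _) ?_
    have : ((n : ℂ) + 1) = ((n + 1 : ℕ) : ℂ) := by push_cast; ring
    rw [this, norm_div, Complex.norm_natCast, Complex.norm_natCast, div_le_one (by positivity)]
    exact_mod_cast n.le_succ
  have hd := natDegree_T (n := n) b l0 c0
  have cs : ∀ z, l * P n (fun k => conj (b (n + 1 - k))) z = P n b z := fun z => by
    simp only [P, mul_sum]
    refine sum_congr rfl fun k hk => ?_
    rw [hb k hk]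
    ring
  have hs : ∀ z, z ≠ 0 →
      l * (z ^ (n + 1) * conj ((T n l b c).eval (conj z)⁻¹)) = (T n l b c).eval z := fun z hz => by
    have e := P_rev n b hz
    have e2 : z ^ (n + 1) * (z ^ (n + 1))⁻¹ = 1 := mul_inv_cancel₀ (pow_ne_zero _ hz)
    simp only [eval_T, map_add, map_mul, map_pow, map_inv₀, Complex.conj_conj, inv_pow]
    linear_combination l * e + cs z + l * conj l * c * e2 + c * ll
  have hA : ∀ z, ((n : ℂ) + 1) * P n b z - P n (fun k => k * b k) z = n * s z := fun z => by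
    simp only [hs', P, mul_sum, ← sum_sub_distrib]
    refine sum_congr rfl fun k _ => ?_
    field_simp
  have hB : ∀ z, l * P n (fun k => conj (((n + 1 - k : ℕ) : ℂ) * b (n + 1 - k))) z = n * s z := by
    intro z
    simp only [hs', P, mul_sum]
    refine sum_congr rfl fun k hk => ?_
    have hk' := (mem_Icc.1 hk).2.trans n.le_succ
    rw [map_mul, Complex.conj_natCast, hb k hk]
    push_cast [hk']
    field_simp
  have q0 : (T n l b c).eval 0 ≠ 0 := by
    rw [eval_T, P_zero]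
    simpa using c0
  have z0 : ∀ z, s z = w → z ≠ 0 := fun z h h0 => w0 (by rw [← h, h0, hs', P_zero])
  refine cohn_ker q0 (by omega) (fun z hz h => ?_) (cohn_card (hc c c0 cle)) hx hy (z0 x rfl)
    (z0 y h.symm) fun z hz => ?_
  · have := hs z hz
    rw [h, mul_eq_zero, mul_eq_zero, _root_.map_eq_zero] at this
    exact (this.resolve_left l0).resolve_left (pow_ne_zero _ hz)
  · have hz' : s z = w := by
      rcases hz with rfl | rfl
      exacts [rfl, h.symm]
    have zz := z0 z hz'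
    have cz : conj z ≠ 0 := (_root_.map_ne_zero _).2 zz
    constructor
    · rw [mul_der_T, eval_T, hd]
      push_cast
      linear_combination -hA z - n * hz' - cw
    · have e := P_rev n (fun k => k * b k) zz
      have e2 : z ^ (n + 1) * (z ^ (n + 1))⁻¹ = 1 := mul_inv_cancel₀ (pow_ne_zero _ zz)
      have h1 : l * (z ^ (n + 1) * conj ((conj z)⁻¹ * (T n l b c).derivative.eval (conj z)⁻¹)) =
          0 := by
        rw [mul_der_T]
        simp only [map_add, map_mul, map_pow, map_inv₀, Complex.conj_conj, inv_pow, map_natCast,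
          map_one] at e ⊢
        have hB' := hB z
        simp only [map_mul, map_natCast] at hB'
        linear_combination l * e + hB' + n * hz' + cw + (n + 1) * l * conj l * c * e2 +
          (n + 1) * c * ll
      simpa [l0, zz] using h1

theorem cohn_st : CohnSt := by
  intro n l b hn hl b1 hb hc x hx y hy h
  by_contra hxy
  have n0 : (n : ℂ) ≠ 0 := by exact_mod_cast (by omega)
  set a : ℕ → ℂ := fun k => ((n : ℂ) + 1 - k) / n * b k with ha
  have ho : IsOpenMap (P n a) := by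
    refine (AnalyticOnNhd.is_constant_or_isOpenMap fun z _ =>
      (diff_P n a).analyticAt z).resolve_left ?_
    rintro ⟨w, hw⟩
    have h1 : pol n a = C w := Polynomial.funext fun z => by rw [eval_pol, hw, eval_C]
    have h2 := congrArg (fun p : ℂ[X] => p.coeff 1) h1
    simp only [pol, finsetSum_coeff, coeff_monomial, coeff_C_succ] at h2
    rw [sum_ite_eq' _ 1, if_pos (mem_Icc.2 ⟨le_rfl, hn⟩), ha] at h2
    simp [n0, b1] at h2
  obtain ⟨U, V, hU, hV, xU, yV, hd⟩ := t2_separation hxy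
  obtain ⟨ε, e0, he⟩ := Metric.isOpen_iff.1 ((ho _ (hU.inter isOpen_ball)).inter
    (ho _ (hV.inter isOpen_ball))) (P n a x) ⟨⟨x, ⟨xU, hx⟩, rfl⟩, ⟨y, ⟨yV, hy⟩, h.symm⟩⟩
  by_cases hw : P n a x = 0
  · obtain ⟨⟨u, hu, h1⟩, v, hv, h2⟩ := he (a := P n a x + (ε / 2 : ℝ)) (by
      rw [mem_ball, dist_eq_norm, add_sub_cancel_left, Complex.norm_real,
        Real.norm_of_nonneg (by positivity)]
      linarith)
    have := cohn_ne hn hl hb hc (mem_ball_zero_iff.1 hu.2) (mem_ball_zero_iff.1 hv.2)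
      (h1.trans h2.symm) (by
        rw [h1]
        simp [hw, e0.ne'])
    exact Set.disjoint_left.1 hd hu.1 (this ▸ hv.1)
  · exact hxy (cohn_ne hn hl hb hc (mem_ball_zero_iff.1 hx) (mem_ball_zero_iff.1 hy) h hw)

end Pool.Agent.MP_d3fa2a_an.F
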