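import Pool.Agent.MP_d3fa2a_an.R.Main
import Pool.Agent.MP_1a2790_an.Normal

/-! Complex coefficients: definitions, basic identities and the statements of the steps. -/

set_option autoImplicit false

open Finset Polynomial
open scoped ComplexConjugate

namespace Pool.Agent.MP_d3fa2a_an.F

/-- `∑ a k z ^ k` over `1 ≤ k ≤ n` -/
noncomputable def P (n : ℕ) (a : ℕ → ℂ) (z : ℂ) : ℂ := ∑ k ∈ Icc 1 n, a k * z ^ k

/-- normalised and injective on the disc -/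
def U (n : ℕ) (a : ℕ → ℂ) : Prop := a 1 = 1 ∧ Set.InjOn (P n a) (Metric.ball 0 1)

/-- the integral mean -/
noncomputable def J (n : ℕ) (a : ℕ → ℂ) (q : ℝ) : ℝ :=
  ∫ t in (0 : ℝ)..2 * Real.pi, ‖P n a (Complex.exp (t * Complex.I))‖ ^ q

/-- the polynomial on the face attached to `a` and to a unimodular `l` -/
noncomputable def lift (n : ℕ) (l : ℂ) (a : ℕ → ℂ) (k : ℕ) : ℂ :=
  ((n : ℂ) + 1 - k) / n * ((a k + l * conj (a (n + 1 - k))) / (1 + l * conj (a n)))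

/-- `z p'(z)` is self inversive -/
def Face (n : ℕ) (a : ℕ → ℂ) : Prop :=
  ∀ k ∈ Icc 1 n, (k : ℂ) * a k = ((n : ℂ) + 1 - k) * conj (a (n + 1 - k))

/-- coefficients of `exp (-i α) p (exp (i α) z)` -/
noncomputable def rot (α : ℝ) (a : ℕ → ℂ) (k : ℕ) : ℂ :=
  a k * Complex.exp ((((k : ℝ) - 1) * α : ℝ) * Complex.I)

/-- number of roots of modulus less than `r`, with multiplicity -/
noncomputable def cnt (q : ℂ[X]) (r : ℝ) : ℕ := (q.roots.filter fun z => ‖z‖ < r).card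

/-- the polynomial with coefficients `a k`, `1 ≤ k ≤ n` -/
noncomputable def pol (n : ℕ) (a : ℕ → ℂ) : ℂ[X] := ∑ k ∈ Icc 1 n, monomial k (a k)

/-- the self inversive pencil -/
noncomputable def T (n : ℕ) (l : ℂ) (b : ℕ → ℂ) (c : ℂ) : ℂ[X] :=
  C c + pol n b + monomial (n + 1) (l * conj c)

theorem eval_pol (n : ℕ) (a : ℕ → ℂ) (z : ℂ) : (pol n a).eval z = P n a z := by
  simp [pol, P, eval_finsetSum]

theorem eval_T (n : ℕ) (l : ℂ) (b : ℕ → ℂ) (c z : ℂ) :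
    (T n l b c).eval z = c + P n b z + l * conj c * z ^ (n + 1) := by
  simp [T, eval_pol]

theorem mul_der_pol (n : ℕ) (a : ℕ → ℂ) (z : ℂ) :
    z * (pol n a).derivative.eval z = P n (fun k => k * a k) z := by
  simp only [pol, derivative_sum, derivative_monomial, eval_finsetSum, eval_monomial, mul_sum, P]
  refine sum_congr rfl fun k hk => ?_
  obtain ⟨j, rfl⟩ := Nat.exists_eq_add_of_le' (mem_Icc.1 hk).1
  push_cast
  ring

theorem mul_der_T (n : ℕ) (l : ℂ) (b : ℕ → ℂ) (c z : ℂ) :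
    z * (T n l b c).derivative.eval z =
      P n (fun k => k * b k) z + (n + 1) * (l * conj c) * z ^ (n + 1) := by
  simp only [T, derivative_add, derivative_C, zero_add, eval_add, mul_add, mul_der_pol,
    derivative_monomial, eval_monomial]
  push_cast
  ring

theorem natDegree_pol (n : ℕ) (a : ℕ → ℂ) : (pol n a).natDegree ≤ n :=
  natDegree_sum_le_of_forall_le _ _ fun _ hk => (natDegree_monomial_le _).trans (mem_Icc.1 hk).2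

theorem natDegree_T {n : ℕ} {l c : ℂ} (b : ℕ → ℂ) (hl : l ≠ 0) (hc : c ≠ 0) :
    (T n l b c).natDegree = n + 1 := by
  have h : l * conj c ≠ 0 := mul_ne_zero hl ((_root_.map_ne_zero _).2 hc)
  rw [T, natDegree_add_eq_right_of_natDegree_lt] <;> rw [natDegree_monomial_eq _ h]
  exact (natDegree_add_le_of_degree_le (n := n) (by simp) (natDegree_pol n b)).trans_lt
    n.lt_succ_self

theorem P_congr {n : ℕ} {a b : ℕ → ℂ} (h : ∀ k ∈ Icc 1 n, a k = b k) (z : ℂ) :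
    P n a z = P n b z := sum_congr rfl fun k hk => by rw [h k hk]

theorem P_zero (n : ℕ) (a : ℕ → ℂ) : P n a 0 = 0 :=
  sum_eq_zero fun k hk => by rw [zero_pow (by have := mem_Icc.1 hk; omega), mul_zero]

theorem cont_P (n : ℕ) (a : ℕ → ℂ) : Continuous (P n a) := by
  unfold P
  fun_prop

theorem diff_P (n : ℕ) (a : ℕ → ℂ) : Differentiable ℂ (P n a) := by
  unfold P
  fun_prop

theorem norm_P_le (n : ℕ) (a : ℕ → ℂ) {z : ℂ} (hz : ‖z‖ ≤ 1) :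
    ‖P n a z‖ ≤ ∑ k ∈ Icc 1 n, ‖a k‖ :=
  norm_sum_le_of_le _ fun k _ => by
    rw [norm_mul, norm_pow]
    exact mul_le_of_le_one_right (norm_nonneg _) (pow_le_one₀ (norm_nonneg _) hz)

/-- the reversed polynomial -/
theorem P_rev (n : ℕ) (a : ℕ → ℂ) {z : ℂ} (hz : z ≠ 0) :
    z ^ (n + 1) * conj (P n a (conj z)⁻¹) = P n (fun k => conj (a (n + 1 - k))) z := by
  rw [P, P, ← R.refl_sum, map_sum, mul_sum]
  refine sum_congr rfl fun k hk => ?_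
  obtain ⟨j, hj⟩ := Nat.exists_eq_add_of_le ((mem_Icc.1 hk).2.trans n.le_succ)
  rw [Nat.succ_eq_add_one] at hj
  rw [hj, add_tsub_cancel_left, pow_add, map_mul, map_pow, map_inv₀, Complex.conj_conj, inv_pow]
  field_simp

theorem P_rev_circle (n : ℕ) (a : ℕ → ℂ) {z : ℂ} (hz : ‖z‖ = 1) :
    z ^ (n + 1) * conj (P n a z) = P n (fun k => conj (a (n + 1 - k))) z := by
  have := P_rev n a (norm_pos_iff.1 (hz ▸ one_pos) : z ≠ 0)
  rwa [← Complex.inv_eq_conj hz, inv_inv] at this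

/-- Step 1: the theorem of Rouche for polynomials -/
def RoucheSt : Prop := ∀ (F G : ℂ[X]) (r : ℝ), 0 < r →
  (∀ z : ℂ, ‖z‖ = r → ‖G.eval z‖ < ‖F.eval z‖) → cnt (F + G) r = cnt F r

/-- Step 2: the pencil of a univalent polynomial has at most one zero in the disc -/
def PencilSt : Prop := ∀ (n : ℕ) (a : ℕ → ℂ) (l c : ℂ), U n a → ‖l‖ = 1 →
  cnt (T n l (fun k => a k + l * conj (a (n + 1 - k))) c) 1 ≤ 1

/-- Step 3: univalence from the zeros of the pencil -/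
def CohnSt : Prop := ∀ (n : ℕ) (l : ℂ) (b : ℕ → ℂ), 1 ≤ n → ‖l‖ = 1 → b 1 ≠ 0 →
  (∀ k ∈ Icc 1 n, b k = l * conj (b (n + 1 - k))) →
  (∀ c : ℂ, c ≠ 0 → ‖c‖ ≤ ∑ k ∈ Icc 1 n, ‖b k‖ → cnt (T n l b c) 1 ≤ 1 ∨
    ((T n l b c).roots.filter fun z => ‖z‖ ≠ 1).card ≤ 3) →
  Set.InjOn (P n fun k => ((n : ℂ) + 1 - k) / n * b k) (Metric.ball 0 1)

/-- Step 4: distance to the face -/
def RevSt : Prop := ∀ (n : ℕ) (a : ℕ → ℂ), 1 ≤ n → U n a → n * ‖a n‖ ≤ 1 ∧ ∀ ρ : ℝ, a n = ρ →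
  ∀ k ∈ Icc 1 n, ‖(k : ℂ) * a k - ((n : ℂ) + 1 - k) * conj (a (n + 1 - k))‖ ≤
    2 * (1 - n * ρ) * ∑ j ∈ Icc 1 n, (j : ℝ) * ‖a j‖

/-- Step 5: off the face the lifted polynomial has a larger mean -/
def GainSt : Prop := ∀ (n : ℕ) (a : ℕ → ℂ) (ρ q : ℝ), 2 ≤ n → a 1 = 1 → a n = ρ → 0 ≤ ρ →
  n * ρ < 1 → (∀ k ∈ Icc 1 n, ‖(k : ℂ) * a k - ((n : ℂ) + 1 - k) * conj (a (n + 1 - k))‖ ≤
    2 * (1 - n * ρ) * ∑ j ∈ Icc 1 n, (j : ℝ) * ‖a j‖) →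
  10 ^ 7 * (n : ℝ) ^ 9 * Real.log n ≤ q → ∃ l : ℂ, ‖l‖ = 1 ∧ J n a q < J n (lift n l a) q

/-- Step 6: rotations -/
def RotSt : Prop := ∀ (n : ℕ) (a : ℕ → ℂ),
  (∀ α q : ℝ, J n (rot α a) q = J n a q) ∧ (∀ α : ℝ, U n a → U n (rot α a)) ∧
  (2 ≤ n → ∃ α : ℝ, rot α a n = (‖a n‖ : ℝ))

/-- Step 7: the maximum exists -/
def MaxSt : Prop := ∀ (n : ℕ) (q : ℝ), 1 ≤ n → 0 < q →
  ∃ a, U n a ∧ ∀ b, U n b → J n b q ≤ J n a q

/-- Step 8: strict convexity -/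
def CvxSt : Prop := ∀ (n : ℕ) (a w : ℕ → ℂ) (q : ℝ), 2 ≤ q → (∃ k ∈ Icc 1 n, w k ≠ 0) →
  2 * J n a q < J n (a + w) q + J n (a - w) q

/-- Step 9: nondegenerate solutions of a polynomial system are finitely many -/
def FinSt : Prop := ∀ (σ ι : Type) [Fintype σ] [Fintype ι] (f : ι → MvPolynomial σ ℂ),
  {x : σ → ℂ | (∀ i, MvPolynomial.eval x (f i) = 0) ∧ ∀ v : σ → ℂ,
    (∀ i, HasDerivAt (fun t : ℂ => MvPolynomial.eval (x + t • v) (f i)) 0 0) → v = 0}.Finite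

/-- Step 10: a spanning family of rows contains an invertible square matrix -/
def RowSt : Prop := ∀ (m : ℕ) (D : Set (Fin m → ℂ)),
  (∀ g : Fin m → ℂ, (∀ r ∈ D, ∑ j, r j * g j = 0) → g = 0) →
  ∃ M : Fin m → Fin m → ℂ, (∀ i, M i ∈ D) ∧ (Matrix.of M).det ≠ 0

/-- Step 11: two local branches of an injective polynomial cannot cover the same ray -/
def SecSt : Prop := ∀ (f Q₀ Q₁ : ℂ[X]) (w z₀ z₁ d₀ d₁ : ℂ) (m₀ m₁ : ℕ),
  Set.InjOn f.eval (Metric.ball 0 1) → 1 ≤ m₀ → 1 ≤ m₁ →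
  f - C w = (X - C z₀) ^ m₀ * Q₀ → f - C w = (X - C z₁) ^ m₁ * Q₁ →
  (‖z₀‖ < 1 ∨ ‖z₀‖ = 1 ∧ (d₀ * conj z₀).re < 0) → (‖z₁‖ < 1 ∨ ‖z₁‖ = 1 ∧ (d₁ * conj z₁).re < 0) →
  d₀ ^ m₀ * Q₀.eval z₀ ≠ 0 → d₀ ^ m₀ * Q₀.eval z₀ = d₁ ^ m₁ * Q₁.eval z₁ →
  z₀ = z₁ ∧ (m₀ = m₁ → d₀ = d₁)

/-- Step 12: boundary behaviour of an injective polynomial -/
def BdSt : Prop := ∀ f : ℂ[X], Set.InjOn f.eval (Metric.ball 0 1) →
  (∀ x z : ℂ, ‖x‖ < 1 → ‖z‖ = 1 → f.eval x ≠ f.eval z) ∧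
  (∀ z : ℂ, ‖z‖ = 1 → (f - C (f.eval z)).rootMultiplicity z ≤ 2) ∧
  (∀ x z : ℂ, ‖x‖ = 1 → ‖z‖ = 1 → x ≠ z → f.eval x = f.eval z → f.derivative.eval z ≠ 0 ∧
    ∃ r : ℝ, r < 0 ∧ x * f.derivative.eval x = r * (z * f.derivative.eval z))

/-- Step 13: finiteness of the set of candidates -/
def CandSt : Prop := ∀ n : ℕ, 2 ≤ n → {a : ℕ → ℂ | (∀ k, k ∉ Icc 1 n → a k = 0) ∧ U n a ∧
  Face n a ∧ ∃ z w : Fin (n - 2) → ℂ, (∀ i, ‖z i‖ = 1 ∧ ‖w i‖ = 1 ∧ P n a (z i) = P n a (w i)) ∧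
    (Matrix.of fun i j : Fin (n - 2) => z i ^ ((j : ℕ) + 2) - w i ^ ((j : ℕ) + 2)).det ≠ 0}.Finite

/-- Step 14: a perturbation along the face that keeps the double points stays univalent -/
def PertSt : Prop := ∀ (n : ℕ) (a β : ℕ → ℂ), 2 ≤ n → U n a → Face n a → β 1 = 0 →
  (∀ k ∈ Icc 1 n, β k = conj (β (n + 1 - k))) →
  (∀ x z : ℂ, ‖x‖ = 1 → ‖z‖ = 1 → P n a x = P n a z → P n β x = P n β z) →
  ∀ᶠ ε : ℝ in nhds 0, U n fun k => a k + ε * (((n : ℂ) + 1 - k) / n * β k)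

end Pool.Agent.MP_d3fa2a_an.F
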