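import Pool.Agent.MP_d3fa2a_an.F.Pert

/-! An extremal polynomial on the face has `n - 2` independent double points. -/

set_option autoImplicit false

open Finset Polynomial Filter Topology
open scoped ComplexConjugate

namespace Pool.Agent.MP_d3fa2a_an.F

theorem ex_zero (h1 : PertSt) (h2 : CvxSt) {n : ℕ} {a β : ℕ → ℂ} {q : ℝ} (hn : 2 ≤ n) (hq : 2 ≤ q)
    (hU : U n a) (hF : Face n a) (hm : ∀ b, U n b → J n b q ≤ J n a q) (β1 : β 1 = 0)
    (hβ : ∀ k ∈ Icc 1 n, β k = conj (β (n + 1 - k)))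
    (hd : ∀ x z : ℂ, ‖x‖ = 1 → ‖z‖ = 1 → P n a x = P n a z → P n β x = P n β z) :
    ∀ k ∈ Icc 1 n, β k = 0 := by
  intro k hk
  by_contra h
  obtain ⟨ε, e0, he⟩ := Metric.eventually_nhds_iff.1 (h1 n a β hn hU hF β1 hβ hd)
  have p1 := hm _ (he (y := ε / 2) (by rw [Real.dist_eq, sub_zero, abs_of_pos] <;> linarith))
  have p2 := hm _ (he (y := -(ε / 2)) (by
    rw [Real.dist_eq, sub_zero, abs_neg, abs_of_pos] <;> linarith))
  have := h2 n a (fun k => (ε / 2 : ℝ) * (((n : ℂ) + 1 - k) / n * β k)) q hq ⟨k, hk,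
    mul_ne_zero (Complex.ofReal_ne_zero.2 (by linarith))
      (mul_ne_zero (div_ne_zero (pe_ne hk).1 (pe_ne hk).2.2.1) h)⟩
  have e1 : (a - fun k : ℕ => (ε / 2 : ℝ) * (((n : ℂ) + 1 - k) / n * β k)) =
      fun k : ℕ => a k + (-(ε / 2) : ℝ) * (((n : ℂ) + 1 - k) / n * β k) := by
    funext k
    simp only [Pi.sub_apply, Complex.ofReal_neg]
    ring
  rw [e1] at this
  change _ < J n (fun k : ℕ => a k + (ε / 2 : ℝ) * (((n : ℂ) + 1 - k) / n * β k)) q + _ at this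
  linarith

theorem ex_pow (h2 : BdSt) {n : ℕ} {a : ℕ → ℂ} (hU : U n a) (hF : Face n a) {x z : ℂ}
    (hx : ‖x‖ = 1) (hz : ‖z‖ = 1) (h : P n a x = P n a z) : x ^ (n + 1) = z ^ (n + 1) := by
  rcases eq_or_ne x z with rfl | hxz
  · rfl
  obtain ⟨g1, r, r0, g2⟩ := (h2 (pol n a) (by rw [funext (eval_pol n a)]; exact hU.2)).2.2 x z hx hz
    hxz (by rwa [eval_pol, eval_pol])
  have z0 : z ≠ 0 := norm_pos_iff.1 (hz ▸ one_pos)
  have hsi : ∀ u, ‖u‖ = 1 → u ^ (n + 1) * conj (u * (pol n a).derivative.eval u) =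
      u * (pol n a).derivative.eval u := fun u hu => by
    rw [mul_der_pol, P_rev_circle n _ hu]
    refine P_congr (fun k hk => ?_) u
    rw [hF k hk, map_mul, map_natCast, (pe_ne hk).2.2.2]
  have g3 := hsi x hx
  have g4 := hsi z hz
  rw [g2, map_mul, Complex.conj_ofReal] at g3
  have g5 : (r : ℂ) * conj (z * (pol n a).derivative.eval z) ≠ 0 :=
    mul_ne_zero (Complex.ofReal_ne_zero.2 r0.ne) ((_root_.map_ne_zero _).2 (mul_ne_zero z0 g1))
  exact mul_right_cancel₀ g5 (by linear_combination g3 - r * g4)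

theorem ex_sum {m : ℕ} (g : Fin m → ℂ) (z : ℂ) :
    P (m + 2) (fun k => if h : 2 ≤ k ∧ k - 2 < m then g ⟨k - 2, h.2⟩ else 0) z =
      ∑ j : Fin m, g j * z ^ ((j : ℕ) + 2) := by
  rw [P, R.sum_Icc_range, sum_range_succ, sum_range_succ', dif_neg (by omega), dif_neg (by omega),
    zero_mul, zero_mul, add_zero, add_zero, sum_range]
  refine sum_congr rfl fun j _ => ?_
  rw [dif_pos ⟨by omega, by simp⟩]
  rfl

theorem ex_dbl (h1 : PertSt) (h2 : CvxSt) (h3 : BdSt) (h4 : RowSt) {n : ℕ} {a : ℕ → ℂ} {q : ℝ}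
    (hn : 2 ≤ n) (hq : 2 ≤ q) (hU : U n a) (hF : Face n a) (hm : ∀ b, U n b → J n b q ≤ J n a q) :
    ∃ z w : Fin (n - 2) → ℂ, (∀ i, ‖z i‖ = 1 ∧ ‖w i‖ = 1 ∧ P n a (z i) = P n a (w i)) ∧
      (Matrix.of fun i j : Fin (n - 2) => z i ^ ((j : ℕ) + 2) - w i ^ ((j : ℕ) + 2)).det ≠ 0 := by
  obtain ⟨m, rfl⟩ := Nat.exists_eq_add_of_le' hn
  obtain ⟨M, m1, m2⟩ := h4 m {r | ∃ z w : ℂ, (‖z‖ = 1 ∧ ‖w‖ = 1 ∧ P (m + 2) a z = P (m + 2) a w) ∧
      r = fun j : Fin m => z ^ ((j : ℕ) + 2) - w ^ ((j : ℕ) + 2)} fun g hg => by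
    set γ : ℕ → ℂ := fun k => if h : 2 ≤ k ∧ k - 2 < m then g ⟨k - 2, h.2⟩ else 0 with hγ
    set δ : ℕ → ℂ := fun k => conj (γ (m + 2 + 1 - k)) with hδ
    have c1 : ∀ x z : ℂ, ‖x‖ = 1 → ‖z‖ = 1 → P (m + 2) a x = P (m + 2) a z →
        P (m + 2) γ x = P (m + 2) γ z := fun x z hx hz h => by
      have := hg _ ⟨x, z, ⟨hx, hz, h⟩, rfl⟩
      rw [hγ, ex_sum, ex_sum, ← sub_eq_zero, ← sum_sub_distrib, ← this]
      exact sum_congr rfl fun j _ => by ring
    have c2 : ∀ x z : ℂ, ‖x‖ = 1 → ‖z‖ = 1 → P (m + 2) a x = P (m + 2) a z →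
        P (m + 2) δ x = P (m + 2) δ z := fun x z hx hz h => by
      rw [hδ, ← P_rev_circle _ _ hx, ← P_rev_circle _ _ hz, c1 x z hx hz h, ex_pow h3 hU hF hx hz h]
    have c3 : ∀ k ∈ Icc 1 (m + 2), conj (δ (m + 2 + 1 - k)) = γ k := fun k hk => by
      have := mem_Icc.1 hk
      simp only [hδ, Complex.conj_conj]
      rw [show m + 2 + 1 - (m + 2 + 1 - k) = k by omega]
    have γ1 : γ 1 = 0 := dif_neg (by omega)
    have δ1 : δ 1 = 0 := by
      have : γ (m + 2 + 1 - 1) = 0 := dif_neg (by omega)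
      simp only [hδ, this, map_zero]
    have lin : ∀ (u v : ℂ) (z : ℂ), P (m + 2) (fun k => u * γ k + v * δ k) z =
        u * P (m + 2) γ z + v * P (m + 2) δ z := fun u v z => by
      simp only [P, mul_sum, ← sum_add_distrib]
      exact sum_congr rfl fun k _ => by ring
    have key : ∀ u : ℂ, ∀ k ∈ Icc 1 (m + 2), u * γ k + conj u * δ k = 0 := fun u =>
      ex_zero h1 h2 hn hq hU hF hm (β := fun k => u * γ k + conj u * δ k) (by simp [γ1, δ1])
        (fun k hk => by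
          simp only [map_add, map_mul, Complex.conj_conj, c3 k hk]
          exact add_comm _ _)
        fun x z hx hz h => by rw [lin, lin, c1 x z hx hz h, c2 x z hx hz h]
    funext j
    have hj : (j : ℕ) + 2 ∈ Icc 1 (m + 2) := mem_Icc.2 (by omega)
    have k1 := key 1 _ hj
    have k2 := key Complex.I _ hj
    have k3 : γ (j + 2) = g j := dif_pos ⟨by omega, by simp⟩
    rw [map_one, k3] at k1
    rw [Complex.conj_I, k3] at k2
    exact mul_left_cancel₀ (mul_ne_zero two_ne_zero Complex.I_ne_zero)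
      (by simp only [Pi.zero_apply]; linear_combination Complex.I * k1 + k2)
  choose z w c1 c2 using m1
  exact ⟨z, w, c1, by rwa [funext c2] at m2⟩

end Pool.Agent.MP_d3fa2a_an.F
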