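import Pool.Agent.MP_d3fa2a_an.F.Def

set_option autoImplicit false

namespace Pool.Agent.MP_d3fa2a_an.F

theorem fin_pd {σ : Type} [Fintype σ] [DecidableEq σ] (x : σ → ℂ) (p : MvPolynomial σ ℂ)
    (i j : σ) : MvPolynomial.eval x (MvPolynomial.pderiv j (p * MvPolynomial.X i))
      = MvPolynomial.eval x (MvPolynomial.pderiv j p) * x i
        + if j = i then MvPolynomial.eval x p else 0 := by
  rw [MvPolynomial.pderiv_mul, map_add, map_mul, map_mul, MvPolynomial.eval_X]
  congr 1
  split_ifs with h
  · rw [h, MvPolynomial.pderiv_X_self, map_one, mul_one]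
  · rw [MvPolynomial.pderiv_X_of_ne (Ne.symm h), map_zero, mul_zero]

theorem fin_deriv {σ : Type} [Fintype σ] (x v : σ → ℂ) (g : MvPolynomial σ ℂ) :
    HasDerivAt (fun t : ℂ => MvPolynomial.eval (x + t • v) g)
      (∑ j, v j * MvPolynomial.eval x (MvPolynomial.pderiv j g)) 0 := by
  classical
  induction g using MvPolynomial.induction_on with
  | C a =>
    simp only [MvPolynomial.eval_C, MvPolynomial.pderiv_C, map_zero, mul_zero,
      Finset.sum_const_zero]
    exact hasDerivAt_const _ _
  | add p q hp hq =>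
    simp only [map_add, mul_add, Finset.sum_add_distrib]
    exact hp.add hq
  | mul_X p i hp =>
    have h1 : HasDerivAt (fun t : ℂ => x i + t * v i) (v i) 0 := by
      simpa using ((hasDerivAt_id (0 : ℂ)).mul_const (v i)).const_add (x i)
    have h2 := hp.fun_mul h1
    have e1 : (fun t : ℂ => MvPolynomial.eval (x + t • v) (p * MvPolynomial.X i))
        = fun t : ℂ => MvPolynomial.eval (x + t • v) p * (x i + t * v i) := by
      funext t
      rw [map_mul, MvPolynomial.eval_X]
      rfl
    rw [e1]
    refine h2.congr_deriv ?_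
    simp only [fin_pd, mul_add, Finset.sum_add_distrib, mul_ite, mul_zero, Finset.sum_ite_eq',
      Finset.mem_univ, if_true, zero_smul, add_zero, zero_mul, Finset.sum_mul, mul_assoc]
    rw [mul_comm (v i)]

theorem fin_taylor {σ : Type} [Fintype σ] (x : σ → ℂ) (g : MvPolynomial σ ℂ) :
    g - MvPolynomial.C (MvPolynomial.eval x g)
      - ∑ j, MvPolynomial.C (MvPolynomial.eval x (MvPolynomial.pderiv j g))
        * (MvPolynomial.X j - MvPolynomial.C (x j))
      ∈ RingHom.ker (MvPolynomial.eval x) • RingHom.ker (MvPolynomial.eval (R := ℂ) x) := by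
  classical
  have hy : ∀ j, MvPolynomial.X j - MvPolynomial.C (x j)
      ∈ RingHom.ker (MvPolynomial.eval (R := ℂ) x) := fun j => by
    rw [RingHom.mem_ker, map_sub, MvPolynomial.eval_X, MvPolynomial.eval_C, sub_self]
  induction g using MvPolynomial.induction_on with
  | C a => simp
  | add p q hp hq =>
    have h := Submodule.add_mem _ hp hq
    simp only [map_add, add_mul, Finset.sum_add_distrib]
    refine (congrArg (· ∈ _) ?_).mp h
    ring
  | mul_X p i hp =>
    have hL : ∑ j, MvPolynomial.C (MvPolynomial.eval x (MvPolynomial.pderiv j p))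
        * (MvPolynomial.X j - MvPolynomial.C (x j))
        ∈ RingHom.ker (MvPolynomial.eval (R := ℂ) x) :=
      Ideal.sum_mem _ fun j _ => Ideal.mul_mem_left _ _ (hy j)
    have h := Submodule.add_mem _ (Ideal.mul_mem_right (MvPolynomial.X i) _ hp)
      (Submodule.smul_mem_smul hL (hy i))
    have e : ∑ j, MvPolynomial.C (MvPolynomial.eval x
          (MvPolynomial.pderiv j (p * MvPolynomial.X i)))
          * (MvPolynomial.X j - MvPolynomial.C (x j))
        = (∑ j, MvPolynomial.C (MvPolynomial.eval x (MvPolynomial.pderiv j p))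
          * (MvPolynomial.X j - MvPolynomial.C (x j))) * MvPolynomial.C (x i)
          + MvPolynomial.C (MvPolynomial.eval x p)
            * (MvPolynomial.X i - MvPolynomial.C (x i)) := by
      simp only [fin_pd, map_add, map_mul, add_mul, Finset.sum_add_distrib,
        apply_ite MvPolynomial.C, map_zero, ite_mul, zero_mul, Finset.sum_ite_eq',
        Finset.mem_univ, if_true, Finset.sum_mul]
      congr 1
      exact Finset.sum_congr rfl fun j _ => by ring
    rw [e, map_mul, MvPolynomial.eval_X, map_mul]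
    refine (congrArg (· ∈ _) ?_).mp h
    rw [smul_eq_mul]
    ring

theorem fin_inv {σ ι : Type} [Fintype σ] [Fintype ι] [DecidableEq σ] (d : σ → ι → ℂ)
    (h : ∀ v : σ → ℂ, (∀ i, ∑ j, v j * d j i = 0) → v = 0) (k : σ) :
    ∃ b : ι → ℂ, ∀ j, ∑ i, d j i * b i = if j = k then 1 else 0 := by
  classical
  have hk : LinearMap.ker (Matrix.vecMulLinear (Matrix.of d)) = ⊥ :=
    LinearMap.ker_eq_bot'.2 fun v hv => h v fun i => congrFun hv i
  obtain ⟨B, hB⟩ := LinearMap.exists_leftInverse_of_injective _ hk
  refine ⟨fun i => B (fun j => if i = j then 1 else 0) k, fun j => ?_⟩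
  have h1 := LinearMap.pi_apply_eq_sum_univ ((LinearMap.proj k).comp B) (d j)
  have h2 : Matrix.vecMulLinear (Matrix.of d) (Pi.single j 1) = d j := by
    funext i
    simp
  have h3 : B (d j) = Pi.single j 1 := by
    rw [← h2]
    exact LinearMap.congr_fun hB _
  have h4 : B (d j) k = ∑ i, d j i * B (fun j => if i = j then 1 else 0) k := h1
  rw [← h4, h3, Pi.single_apply]
  exact if_congr eq_comm rfl rfl

theorem fin_st : FinSt := by
  classical
  intro σ ι _ _ f
  refine Set.Finite.of_finite_image (f := fun x : σ → ℂ => RingHom.ker (MvPolynomial.eval x))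
    ((Ideal.finite_minimalPrimes_of_isNoetherianRing _ (Ideal.span (Set.range f))).subset ?_) ?_
  · rintro _ ⟨x, ⟨hx0, hx1⟩, rfl⟩
    have hI : Ideal.span (Set.range f) ≤ RingHom.ker (MvPolynomial.eval x) := by
      rw [Ideal.span_le]
      rintro _ ⟨i, rfl⟩
      exact hx0 i
    have hy : ∀ k, MvPolynomial.X k - MvPolynomial.C (x k) ∈ Ideal.span (Set.range f) ⊔
        RingHom.ker (MvPolynomial.eval x) • RingHom.ker (MvPolynomial.eval (R := ℂ) x) := by
      intro k
      obtain ⟨b, hb⟩ := fin_inv (fun j i => MvPolynomial.eval x (MvPolynomial.pderiv j (f i)))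
        (fun v hv => hx1 v fun i => (fin_deriv x v (f i)).congr_deriv (hv i)) k
      have h1 : ∀ i, ∑ j, MvPolynomial.C (MvPolynomial.eval x (MvPolynomial.pderiv j (f i)))
          * (MvPolynomial.X j - MvPolynomial.C (x j)) ∈ Ideal.span (Set.range f) ⊔
          RingHom.ker (MvPolynomial.eval x) • RingHom.ker (MvPolynomial.eval (R := ℂ) x) := by
        intro i
        have h2 := fin_taylor x (f i)
        rw [hx0 i, map_zero, sub_zero] at h2
        have h3 := Submodule.sub_mem _
          (Submodule.mem_sup_left (Ideal.subset_span (Set.mem_range_self (f := f) i)))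
          (Submodule.mem_sup_right h2)
        rwa [sub_sub_cancel] at h3
      have h2 := Ideal.sum_mem _ fun i (_ : i ∈ Finset.univ) =>
        Ideal.mul_mem_left _ (MvPolynomial.C (b i)) (h1 i)
      refine (congrArg (· ∈ _) ?_).mp h2
      simp only [Finset.mul_sum]
      rw [Finset.sum_comm]
      have h3 : ∀ j, ∑ i, MvPolynomial.C (b i) * (MvPolynomial.C (MvPolynomial.eval x
          (MvPolynomial.pderiv j (f i))) * (MvPolynomial.X j - MvPolynomial.C (x j)))
          = if j = k then MvPolynomial.X j - MvPolynomial.C (x j) else 0 := by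
        intro j
        have h4 := congrArg (fun z : ℂ => (MvPolynomial.C z : MvPolynomial σ ℂ)
          * (MvPolynomial.X j - MvPolynomial.C (x j))) (hb j)
        simp only [map_sum, map_mul, Finset.sum_mul, apply_ite MvPolynomial.C, map_one, map_zero,
          ite_mul, one_mul, zero_mul] at h4
        rw [← h4]
        exact Finset.sum_congr rfl fun i _ => by ring
      simp only [h3, Finset.sum_ite_eq', Finset.mem_univ, if_true]
    have hm : RingHom.ker (MvPolynomial.eval x) ≤ Ideal.span (Set.range f) ⊔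
        RingHom.ker (MvPolynomial.eval x) • RingHom.ker (MvPolynomial.eval (R := ℂ) x) := by
      intro g hg
      have h2 := fin_taylor x g
      rw [RingHom.mem_ker.1 hg, map_zero, sub_zero] at h2
      have h3 := Submodule.add_mem _ (Submodule.mem_sup_right h2)
        (Ideal.sum_mem _ fun j (_ : j ∈ Finset.univ) => Ideal.mul_mem_left _
          (MvPolynomial.C (MvPolynomial.eval x (MvPolynomial.pderiv j g))) (hy j))
      rwa [sub_add_cancel] at h3
    obtain ⟨r, hr1, hr2⟩ := Submodule.exists_sub_one_mem_and_smul_le_of_fg_of_le_sup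
      (IsNoetherian.noetherian _) le_rfl hm
    refine ⟨⟨RingHom.ker_isPrime _, hI⟩, ?_⟩
    rintro Q ⟨hQ, hIQ⟩ hle g hg
    have h1 : r * g ∈ Q := hIQ (hr2 (Submodule.smul_mem_pointwise_smul g r _ hg))
    refine (hQ.mem_or_mem h1).resolve_left fun hr => ?_
    have h2 := Submodule.sub_mem _ (hle hr) hr1
    rw [sub_sub_cancel, RingHom.mem_ker, map_one] at h2
    exact one_ne_zero h2
  · intro x _ y _ h
    funext j
    have h1 : MvPolynomial.X j - MvPolynomial.C (x j)
        ∈ RingHom.ker (MvPolynomial.eval (R := ℂ) x) := by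
      rw [RingHom.mem_ker, map_sub, MvPolynomial.eval_X, MvPolynomial.eval_C, sub_self]
    have h2 : RingHom.ker (MvPolynomial.eval (R := ℂ) x) = RingHom.ker (MvPolynomial.eval y) := h
    rw [h2, RingHom.mem_ker, map_sub, MvPolynomial.eval_X, MvPolynomial.eval_C, sub_eq_zero] at h1
    exact h1.symm

theorem row_st : RowSt := by
  classical
  intro m D hD
  have htop : Submodule.span ℂ D = ⊤ := by
    by_contra hne
    obtain ⟨φ, hφ0, hφ⟩ := Submodule.exists_le_ker_of_lt_top _ (lt_top_iff_ne_top.2 hne)
    have h1 := hD (fun j => φ fun i => if j = i then 1 else 0) fun r hr => by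
      have h2 : φ r = 0 := hφ (Submodule.subset_span hr)
      rw [LinearMap.pi_apply_eq_sum_univ] at h2
      exact h2
    refine hφ0 (LinearMap.ext fun r => ?_)
    rw [LinearMap.pi_apply_eq_sum_univ, LinearMap.zero_apply]
    refine Finset.sum_eq_zero fun j _ => ?_
    have h2 : (φ fun i => if j = i then 1 else 0) = 0 := congrFun h1 j
    rw [h2, smul_zero]
  obtain ⟨b, hbD, hb1, hb2⟩ := exists_linearIndependent ℂ D
  let B : Module.Basis b ℂ (Fin m → ℂ) :=
    Module.Basis.mk hb2 (by rw [Subtype.range_coe, hb1, htop])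
  let e : b ≃ Fin m := B.indexEquiv (Pi.basisFun ℂ (Fin m))
  refine ⟨fun i => (e.symm i : Fin m → ℂ), fun i => hbD (e.symm i).2, ?_⟩
  have h1 : LinearIndependent ℂ (Matrix.of fun i => (e.symm i : Fin m → ℂ)).row :=
    hb2.comp e.symm e.symm.injective
  exact ((Matrix.isUnit_iff_isUnit_det _).1 (Matrix.linearIndependent_rows_iff_isUnit.1 h1)).ne_zero

end Pool.Agent.MP_d3fa2a_an.F
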