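import Pool.Agent.MP_d3fa2a_an.F.GainA

/-! Off the face the lifted polynomial has a larger mean. -/

set_option autoImplicit false

open Finset Real
open scoped ComplexConjugate

namespace Pool.Agent.MP_d3fa2a_an.F

theorem gb_big {n q κ : ℝ} (hn : 2 ≤ n) (hq : 10 ^ 7 * n ^ 9 * log n ≤ q)
    (hκ : κ = 1 / (5000 * n ^ 9)) :
    1 ≤ q / 2 ∧ π * (q / 2) * (1 - κ) ^ (q / 2 - 1) < κ * (κ / (2 * n ^ 2)) := by
  have n0 : 0 < n := by linarith
  have n9 : 1 ≤ n ^ 9 := one_le_pow₀ (by linarith)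
  have l2 : 1 / 2 ≤ log n := by linarith [log_two_gt_d9, log_le_log two_pos hn]
  have hQ : 1 ≤ q / 2 := by nlinarith
  refine ⟨hQ, ?_⟩
  have κ0 : 0 < κ := by rw [hκ]; positivity
  have κ1 : κ * n ^ 9 = 1 / 5000 := by rw [hκ]; field_simp
  have κ2 : κ ≤ 1 / 2 := by nlinarith
  have h1 : (1 - κ) ^ (q / 2 - 1) ≤ exp (-κ * (q / 2 - 1)) := by
    rw [exp_mul]
    exact rpow_le_rpow (by linarith) (by linarith [add_one_le_exp (-κ)]) (by linarith)
  have h2 : n ^ 100 ≤ exp (κ * q / 4) := by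
    rw [← exp_log (pow_pos n0 100), log_pow, exp_le_exp]
    have := mul_le_mul_of_nonneg_left hq κ0.le
    push_cast
    nlinarith
  have h3 : κ * q / 4 ≤ exp (κ * q / 4) := by linarith [add_one_le_exp (κ * q / 4)]
  have h4 : exp κ ≤ 3 := (exp_le_exp.2 (by linarith)).trans (exp_one_lt_d9.le.trans (by norm_num))
  have h5 : exp (-κ * (q / 2 - 1)) * (exp (κ * q / 4) * exp (κ * q / 4)) = exp κ := by
    rw [← exp_add, ← exp_add]
    ring_nf
  have h6 : (2 : ℝ) ^ 71 ≤ n ^ 71 := pow_le_pow_left₀ zero_le_two hn _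
  have q0 : 0 < q := by linarith
  have h7 : exp (-κ * (q / 2 - 1)) * (κ * q / 4 * (2 ^ 71 * n ^ 29)) ≤ 3 := by
    refine le_trans (mul_le_mul_of_nonneg_left (mul_le_mul h3 (le_trans ?_ h2) (by positivity)
      (by positivity)) (exp_pos _).le) (h5.le.trans h4)
    rw [show n ^ 100 = n ^ 71 * n ^ 29 by ring]
    exact mul_le_mul_of_nonneg_right h6 (by positivity)
  refine (mul_le_mul (mul_le_mul_of_nonneg_right pi_le_four (by linarith)) h1
    (rpow_nonneg (by linarith) _) (by linarith)).trans_lt ?_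
  refine lt_of_mul_lt_mul_right ?_ (show 0 ≤ κ * n ^ 29 by positivity)
  have e : κ * (κ / (2 * n ^ 2)) * (κ * n ^ 29) = 1 / (25 * 10 ^ 10) := by
    rw [hκ]
    field_simp
    norm_num
  rw [e]
  linarith

theorem gb_shift (n : ℕ) (c : ℕ → ℂ) (q : ℝ) {z : ℂ} (hz : ‖z‖ = 1) :
    J n c q = ∫ t in -π..π, ‖P n c (z * Complex.exp (t * Complex.I))‖ ^ q := by
  have h : Function.Periodic (fun t : ℝ => ‖P n c (Complex.exp (t * Complex.I))‖ ^ q) (2 * π) :=
    fun t => by simp [add_mul, Complex.exp_add]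
  have h1 := h.intervalIntegral_add_eq 0 (z.arg + -π)
  have h2 := intervalIntegral.integral_comp_add_left (a := -π) (b := π)
    (fun t : ℝ => ‖P n c (Complex.exp (t * Complex.I))‖ ^ q) z.arg
  have h3 : Complex.exp (z.arg * Complex.I) = z := by
    simpa [hz] using Complex.norm_mul_exp_arg_mul_I z
  rw [zero_add, show z.arg + -π + 2 * π = z.arg + π by ring, ← h2] at h1
  rw [J, h1]
  simp only [Complex.ofReal_add, add_mul, Complex.exp_add, h3]

theorem gb_lap {n : ℕ} (c d : ℕ → ℂ) {q κ M x B : ℝ} (hn : 2 ≤ n)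
    (hq : 10 ^ 7 * (n : ℝ) ^ 9 * log n ≤ q) (hκ : κ = 1 / (5000 * (n : ℝ) ^ 9)) (M0 : 0 < M)
    (B0 : 0 < B) (hx : κ * B ≤ x) {w : ℂ} (hw : ‖w‖ = 1)
    (core : ∀ t : ℝ, |t| ≤ κ / (2 * n ^ 2) →
      (1 - κ) * M ^ 2 ≤ ‖P n d (w * Complex.exp (t * Complex.I))‖ ^ 2 ∧
      ‖P n c (w * Complex.exp (t * Complex.I))‖ ^ 2 ≤
        ‖P n d (w * Complex.exp (t * Complex.I))‖ ^ 2 - x * M ^ 2)
    (out : ∀ z : ℂ, ‖z‖ = 1 → ‖P n c z‖ ^ 2 ≤ ‖P n d z‖ ^ 2 ∨
      ‖P n c z‖ ^ 2 ≤ (1 - 2 * κ) * M ^ 2 ∧ ‖P n c z‖ ^ 2 - ‖P n d z‖ ^ 2 ≤ B * M ^ 2) :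
    J n c q < J n d q := by
  have n2 : (2 : ℝ) ≤ n := by exact_mod_cast hn
  obtain ⟨hQ, hbig⟩ := gb_big n2 hq hκ
  have M2 : 0 < M ^ 2 := by positivity
  have hI : ∀ e : ℕ → ℂ, J n e q = (M ^ 2) ^ (q / 2) *
      ∫ t in -π..π, (‖P n e (w * Complex.exp (t * Complex.I))‖ ^ 2 / M ^ 2) ^ (q / 2) := by
    intro e
    rw [gb_shift n e q hw, ← intervalIntegral.integral_const_mul]
    refine intervalIntegral.integral_congr fun t _ => ?_
    rw [div_rpow (sq_nonneg _) M2.le, mul_div_cancel₀ _ (rpow_pos_of_pos M2 _).ne', ← rpow_two,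
      ← rpow_mul (norm_nonneg _), mul_div_cancel₀ _ two_ne_zero]
  have hc : ∀ e : ℕ → ℂ, Continuous fun t : ℝ =>
      ‖P n e (w * Complex.exp (t * Complex.I))‖ ^ 2 / M ^ 2 := by
    intro e
    have := cont_P n e
    fun_prop
  have κ0 : 0 < κ := by rw [hκ]; positivity
  have n9 : (1 : ℝ) ≤ n ^ 9 := one_le_pow₀ (by linarith)
  have κ1 : κ * n ^ 9 = 1 / 5000 := by rw [hκ]; field_simp
  have κ2 : κ ≤ 1 / 2 := by nlinarith
  rw [hI, hI]
  refine mul_lt_mul_of_pos_left (R.lap (hc _) (hc _) (fun _ => by positivity)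
    (fun _ => by positivity) hQ κ0 κ2 (by positivity) ?_ B0 hx (fun t ht => ?_) (fun t _ => ?_)
    hbig) (rpow_pos_of_pos M2 _)
  · rw [div_le_iff₀ (by positivity)]
    nlinarith [pi_gt_three]
  · obtain ⟨h1, h2⟩ := core t ht
    refine ⟨(le_div_iff₀ M2).2 h1, ?_⟩
    rw [div_le_iff₀ M2, sub_mul, div_mul_cancel₀ _ M2.ne']
    exact h2
  · refine (out _ (by simp [hw, Complex.norm_exp_ofReal_mul_I])).imp
      (fun h => div_le_div_of_nonneg_right h M2.le) fun h => ⟨(div_le_iff₀ M2).2 h.1, ?_⟩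
    rw [← sub_div, div_le_iff₀ M2]
    exact h.2

theorem gb_max (n : ℕ) (c : ℕ → ℂ) :
    ∃ w : ℂ, ‖w‖ = 1 ∧ ∀ z : ℂ, ‖z‖ = 1 → ‖P n c z‖ ≤ ‖P n c w‖ := by
  obtain ⟨w, hw, h⟩ := (isCompact_sphere (0 : ℂ) 1).exists_isMaxOn ⟨1, by simp⟩
    (cont_P n c).norm.continuousOn
  exact ⟨w, by simpa using hw, fun z hz => h (by simpa using hz)⟩

theorem gb_core {n : ℕ} (hn : 2 ≤ n) {c : ℕ → ℂ} {w : ℂ} (hw : ‖w‖ = 1)
    (h : ∀ z : ℂ, ‖z‖ = 1 → ‖P n c z‖ ≤ ‖P n c w‖) {κ t : ℝ} (κ1 : κ ≤ 1)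
    (ht : |t| ≤ κ / (2 * n ^ 2)) :
    (1 - κ) * ‖P n c w‖ ^ 2 ≤ ‖P n c (w * Complex.exp (t * Complex.I))‖ ^ 2 := by
  have n0 : (0 : ℝ) < n := by exact_mod_cast (by omega : 0 < n)
  have h1 := ga_core n c _ h w hw t
  have h2 := norm_sub_norm_le (P n c w) (P n c (w * Complex.exp (t * Complex.I)))
  rw [norm_sub_rev] at h2
  have h3 : (n : ℝ) ^ 2 * |t| ≤ κ / 2 := by
    rw [le_div_iff₀ (by positivity)] at ht
    linarith
  have M0 := norm_nonneg (P n c w)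
  have h4 : ‖P n c w‖ * (1 - κ / 2) ≤ ‖P n c (w * Complex.exp (t * Complex.I))‖ := by
    nlinarith [mul_le_mul_of_nonneg_left h3 M0]
  have h5 := pow_le_pow_left₀ (mul_nonneg M0 (by linarith)) h4 2
  nlinarith [mul_nonneg (sq_nonneg ‖P n c w‖) (sq_nonneg κ)]

theorem gb_rev (n : ℕ) (a : ℕ → ℂ) {z : ℂ} (hz : ‖z‖ = 1) :
    z ^ (n + 1) * conj (P n (fun j => j * a j) z) =
      P n (fun k => ((n : ℂ) + 1 - k) * conj (a (n + 1 - k))) z := by
  rw [P_rev_circle n _ hz]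
  refine P_congr (fun k hk => ?_) z
  rw [map_mul, map_natCast, Nat.cast_sub ((mem_Icc.1 hk).2.trans n.le_succ)]
  push_cast
  rfl

theorem gb_lift {n : ℕ} (hn : 2 ≤ n) (a : ℕ → ℂ) {l z : ℂ} (hl : 1 + l * conj (a n) ≠ 0)
    (hz : ‖z‖ = 1) : n * (1 + l * conj (a n)) * P n (lift n l a) z =
      (n + 1) * P n a z - P n (fun j => j * a j) z +
        l * (z ^ (n + 1) * conj (P n (fun j => j * a j) z)) := by
  have n0 : (n : ℂ) ≠ 0 := by exact_mod_cast (by omega : n ≠ 0)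
  rw [gb_rev n a hz]
  simp only [P, mul_sum, ← sum_sub_distrib, ← sum_add_distrib, lift]
  refine sum_congr rfl fun k _ => ?_
  field_simp

theorem gb_two {p A D s : ℂ} {n η κ M : ℝ} (n2 : 2 ≤ n) (η0 : 0 < η) (η1 : η * n ^ 6 ≤ 1 / 16)
    (κ0 : 0 < κ) (κ1 : κ ≤ 1 / 12) (M0 : 0 < M) (hA : ‖A - D‖ = ‖A‖)
    (hD : ‖D‖ ≤ 2 * η * n ^ 3 * M) (hp : ‖p‖ ≤ M)
    (hs : ((n + 1 - η : ℝ) : ℂ) * s = ((n + 1 : ℝ) : ℂ) * p - D) :
    ‖p‖ ^ 2 - ‖s‖ ^ 2 ≤ 6 * η * n ^ 2 * M ^ 2 ∧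
    ((1 - 2 * κ) * M ^ 2 ≤ ‖p‖ ^ 2 → M ^ 2 / 2 ≤ (conj p * A).re →
      |(conj p * A).im| ≤ M ^ 2 / (16 * n ^ 3) → ‖p‖ ^ 2 ≤ ‖s‖ ^ 2 - η / (4 * n ^ 2) * M ^ 2) := by
  have n0 : 0 < n := by linarith
  have n6 : 1 ≤ n ^ 6 := one_le_pow₀ (by linarith)
  have η2 : η ≤ 1 / 16 := by nlinarith
  have M2 : 0 < M ^ 2 := by positivity
  have hd : ‖conj p * D‖ ≤ 2 * η * n ^ 3 * M ^ 2 := by
    rw [norm_mul, Complex.norm_conj]
    exact (mul_le_mul hp hD (norm_nonneg _) M0.le).trans (le_of_eq (by ring))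
  have e1 : (n + 1) ^ 2 * ‖p‖ ^ 2 - 2 * (n + 1) * (conj p * D).re ≤ (n + 1 - η) ^ 2 * ‖s‖ ^ 2 := by
    have h := congrArg (fun z : ℂ => ‖z‖ ^ 2) hs
    simp only [norm_mul, mul_pow, Complex.norm_real, Real.norm_eq_abs, sq_abs] at h
    rw [h]
    simp only [Complex.sq_norm, Complex.normSq_apply, Complex.sub_re, Complex.sub_im,
      Complex.mul_re, Complex.mul_im, Complex.ofReal_re, Complex.ofReal_im, Complex.conj_re,
      Complex.conj_im]
    nlinarith [sq_nonneg D.re, sq_nonneg D.im]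
  have p0 := sq_nonneg ‖p‖
  have s0 := sq_nonneg ‖s‖
  have dre := (Complex.re_le_norm (conj p * D)).trans hd
  constructor
  · by_contra hc
    have h1 : n ^ 2 ≤ (n + 1 - η) ^ 2 := pow_le_pow_left₀ n0.le (by linarith) 2
    have h2 : (n + 1 - η) ^ 2 ≤ (n + 1) ^ 2 := pow_le_pow_left₀ (by linarith) (by linarith) 2
    have h3 : 0 < 6 * η * n ^ 2 * M ^ 2 := by positivity
    have h4 : n ^ 2 * (6 * η * n ^ 2 * M ^ 2) < (n + 1 - η) ^ 2 * (‖p‖ ^ 2 - ‖s‖ ^ 2) :=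
      mul_lt_mul' h1 (not_le.1 hc) h3.le (pow_pos (by linarith) 2)
    have h5 := mul_le_mul_of_nonneg_right h2 p0
    have h6 := mul_le_mul_of_nonneg_left dre (show 0 ≤ 2 * (n + 1) by positivity)
    have h7 : 0 ≤ η * n ^ 3 * M ^ 2 * (n - 2) := mul_nonneg (by positivity) (by linarith)
    nlinarith
  · intro h1 h2 h3
    have h4 : ‖conj p * A - conj p * D‖ = ‖conj p * A‖ := by
      rw [← mul_sub, norm_mul, norm_mul, hA]
    generalize conj p * A = u at *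
    generalize conj p * D = d at *
    have h5 : ‖d‖ ^ 2 = 2 * (u.re * d.re + u.im * d.im) := by
      have h := congrArg (· ^ 2) h4
      simp only [Complex.sq_norm, Complex.normSq_apply, Complex.sub_re, Complex.sub_im] at h ⊢
      linarith
    have h6 : ‖d‖ ^ 2 ≤ η * M ^ 4 / 4 := by
      refine (pow_le_pow_left₀ (norm_nonneg _) hd 2).trans ?_
      have := mul_le_mul_of_nonneg_left η1 (show 0 ≤ 4 * η * M ^ 4 by positivity)
      nlinarith
    have h7 : -(u.im * d.im) ≤ η * M ^ 4 / 8 := by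
      refine (neg_le_abs _).trans ?_
      rw [abs_mul]
      refine (mul_le_mul h3 ((Complex.abs_im_le_norm d).trans hd) (abs_nonneg _)
        (by positivity)).trans (le_of_eq ?_)
      field_simp
      ring
    have h8 : d.re ≤ η * M ^ 2 / 2 := by
      by_contra hc
      have hc' := not_le.1 hc
      have h9 : 0 < η * M ^ 2 / 2 := by positivity
      have := mul_lt_mul' h2 hc' h9.le (by linarith)
      nlinarith
    have h9 : (n + 1 - η) ^ 2 ≤ 4 * n ^ 2 := by nlinarith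
    have h10 : (n + 1 - η) ^ 2 * (η / (4 * n ^ 2) * M ^ 2) ≤ η * M ^ 2 := by
      refine (mul_le_mul_of_nonneg_right h9 (by positivity)).trans (le_of_eq ?_)
      field_simp
    have h11 : n + 2 ≤ (2 * (n + 1) - η) * (1 - 2 * κ) := by nlinarith
    have h12 : η * (2 * (n + 1) - η) * ((1 - 2 * κ) * M ^ 2) ≤ η * (2 * (n + 1) - η) * ‖p‖ ^ 2 :=
      mul_le_mul_of_nonneg_left h1 (mul_nonneg η0.le (by linarith))
    have h13 := mul_le_mul_of_nonneg_left h11 (show 0 ≤ η * M ^ 2 by positivity)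
    have h14 := mul_le_mul_of_nonneg_left h8 (show 0 ≤ 2 * (n + 1) by positivity)
    refine le_of_mul_le_mul_left ?_ (show 0 < (n + 1 - η) ^ 2 from pow_pos (by linarith) 2)
    nlinarith

theorem gain_st : GainSt := by
  intro n a ρ q hn a1 an ρ0 hρ hD hq
  have n2 : (2 : ℝ) ≤ n := by exact_mod_cast hn
  have n0 : (0 : ℝ) < n := by linarith
  obtain ⟨η, hη⟩ : ∃ η : ℝ, η = 1 - n * ρ := ⟨_, rfl⟩
  obtain ⟨κ, hκ⟩ : ∃ κ : ℝ, κ = 1 / (5000 * (n : ℝ) ^ 9) := ⟨_, rfl⟩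
  have η0 : 0 < η := by linarith
  have η1 : η ≤ 1 := by nlinarith
  have ρ1 : ρ ≤ 1 / 2 := by nlinarith
  have κ0 : 0 < κ := by rw [hκ]; positivity
  have n9 : (1 : ℝ) ≤ n ^ 9 := one_le_pow₀ (by linarith)
  have κ1 : κ * n ^ 9 = 1 / 5000 := by rw [hκ]; field_simp
  have κ2 : κ ≤ 1 / 12 := by nlinarith
  obtain ⟨w, hw, hM⟩ := gb_max n a
  have M1 : 1 ≤ ‖P n a w‖ := by
    simpa [a1] using ga_coef n a _ hM 1 (mem_Icc.2 ⟨le_rfl, by omega⟩)
  have hl : ∀ l : ℂ, ‖l‖ = 1 → 1 + l * conj (a n) ≠ 0 ∧ ‖1 + l * conj (a n)‖ ≤ 1 + ρ := by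
    intro l hl
    have h1 : ‖l * conj (a n)‖ = ρ := by
      rw [norm_mul, hl, Complex.norm_conj, an, Complex.norm_real, Real.norm_of_nonneg ρ0, one_mul]
    refine ⟨fun h => ?_, (norm_add_le _ _).trans (by rw [h1, norm_one])⟩
    rw [eq_neg_of_add_eq_zero_right h, norm_neg, norm_one] at h1
    linarith
  have circ : ∀ (z : ℂ) (t : ℝ), ‖z‖ = 1 → ‖z * Complex.exp (t * Complex.I)‖ = 1 :=
    fun z t hz => by simp [hz, Complex.norm_exp_ofReal_mul_I]
  rcases le_total (1 / 16) (η * n ^ 6) with h | h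
  · have p0 : P n a w ≠ 0 := norm_pos_iff.1 (by linarith)
    have c0 : conj (P n a w) ≠ 0 := (map_ne_zero _).2 p0
    have w0 : w ≠ 0 := norm_pos_iff.1 (by linarith)
    have l1 : ‖P n a w / (w ^ (n + 1) * conj (P n a w))‖ = 1 := by
      rw [norm_div, norm_mul, norm_pow, hw, one_pow, one_mul, Complex.norm_conj,
        div_self (by linarith)]
    refine ⟨_, l1, ?_⟩
    have h1 := gb_lift hn a (hl _ l1).1 hw
    have h2 := (hl _ l1).2
    have h3 : P n a w / (w ^ (n + 1) * conj (P n a w)) *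
        (w ^ (n + 1) * conj (P n (fun j => j * a j) w)) * conj (P n a w) =
        P n a w * conj (P n (fun j => j * a j) w) := by field_simp
    generalize P n a w / (w ^ (n + 1) * conj (P n a w)) = l at *
    obtain ⟨v, hv, hN⟩ := gb_max n (lift n l a)
    have h4 : (n + 1) * ‖P n a w‖ ^ 2 ≤
        ‖n * (1 + l * conj (a n)) * P n (lift n l a) w * conj (P n a w)‖ := by
      refine le_trans (le_of_eq ?_) (Complex.re_le_norm _)
      rw [h1, add_mul _ (l * _), h3]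
      simp only [Complex.sq_norm, Complex.normSq_apply, Complex.sub_re, Complex.add_re,
        Complex.add_im, Complex.sub_im, Complex.mul_re, Complex.mul_im, Complex.natCast_re,
        Complex.natCast_im, Complex.conj_re, Complex.conj_im, Complex.one_re, Complex.one_im]
      ring
    rw [norm_mul, norm_mul, norm_mul, Complex.norm_conj, Complex.norm_natCast] at h4
    have h5 : (n + 1) * ‖P n a w‖ ≤ (n + 1 - η) * ‖P n (lift n l a) v‖ := by
      refine le_of_mul_le_mul_right ?_ (show 0 < ‖P n a w‖ by linarith)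
      refine le_trans (le_of_eq (by ring)) (h4.trans (mul_le_mul_of_nonneg_right
        (mul_le_mul ?_ (hN w hw) (norm_nonneg _) (by linarith)) (norm_nonneg _)))
      nlinarith
    have N0 : 0 < ‖P n (lift n l a) v‖ := by
      by_contra hc
      rw [le_antisymm (not_lt.1 hc) (norm_nonneg _)] at h5
      nlinarith
    have h6 : ∀ z : ℂ, ‖z‖ = 1 → ‖P n a z‖ ^ 2 ≤ (1 - 2 * κ) * ‖P n (lift n l a) v‖ ^ 2 := by
      intro z hz
      have h7 : 2 * κ * (n + 1) ≤ η := by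
        refine le_of_mul_le_mul_right ?_ (show (0 : ℝ) < n ^ 9 by positivity)
        have h8 : (n : ℝ) + 1 ≤ n ^ 3 := by nlinarith [mul_le_mul n2 n2 zero_le_two n0.le]
        have h9 := mul_le_mul_of_nonneg_right h (show (0 : ℝ) ≤ n ^ 3 by positivity)
        nlinarith
      have h8 : ‖P n a z‖ ≤ (1 - 2 * κ) * ‖P n (lift n l a) v‖ := by
        refine (hM z hz).trans (le_of_mul_le_mul_left (h5.trans ?_) (show (0 : ℝ) < n + 1 by linarith))
        nlinarith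
      refine (pow_le_pow_left₀ (norm_nonneg _) h8 2).trans ?_
      rw [mul_pow]
      exact mul_le_mul_of_nonneg_right (by nlinarith) (sq_nonneg _)
    refine gb_lap _ _ hn hq hκ N0 one_pos (mul_one κ).le hv (fun t ht => ?_) fun z hz => Or.inr
      ⟨h6 z hz, by nlinarith [h6 z hz, sq_nonneg ‖P n (lift n l a) z‖, mul_pos κ0 (pow_pos N0 2)]⟩
    have h7 := gb_core hn hv hN (by linarith : κ ≤ 1) ht
    exact ⟨h7, by linarith [h6 _ (circ v t hv)]⟩
  · refine ⟨1, norm_one, ?_⟩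
    have M0 : 0 < ‖P n a w‖ := by linarith
    have hS : ∑ j ∈ Icc 1 n, (j : ℝ) * ‖a j‖ ≤ n * (n * ‖P n a w‖) := by
      refine (sum_le_card_nsmul _ _ (n * ‖P n a w‖) fun j hj => mul_le_mul ?_
        (ga_coef n a _ hM j hj) (norm_nonneg _) n0.le).trans (le_of_eq (by simp))
      exact_mod_cast (mem_Icc.1 hj).2
    have key := fun (z : ℂ) (hz : ‖z‖ = 1) => gb_two (p := P n a z)
      (A := P n (fun j => j * a j) z)
      (D := P n (fun j => j * a j) z - z ^ (n + 1) * conj (P n (fun j => j * a j) z))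
      (s := P n (lift n 1 a) z) n2 η0 h κ0 κ2 M0
      (by rw [sub_sub_cancel, norm_mul, norm_pow, hz, one_pow, one_mul, Complex.norm_conj])
      (by
        rw [gb_rev n a hz, P, P, ← sum_sub_distrib]
        refine (ga_sum (c := 2 * η * (n * (n * ‖P n a w‖))) fun j hj => ?_).trans
          (le_of_eq (by ring))
        rw [← sub_mul, norm_mul, norm_pow, hz, one_pow, mul_one]
        refine (hD j hj).trans ?_
        rw [← hη]
        exact mul_le_mul_of_nonneg_left hS (by positivity)) (hM z hz)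
      (by
        have h1 := gb_lift hn a (hl 1 norm_one).1 hz
        rw [an, Complex.conj_ofReal] at h1
        rw [hη]
        push_cast
        linear_combination h1)
    have near : ∀ z : ℂ, ‖z‖ = 1 → (1 - 2 * κ) * ‖P n a w‖ ^ 2 ≤ ‖P n a z‖ ^ 2 → ‖P n a z‖ ^ 2 ≤
        ‖P n (lift n 1 a) z‖ ^ 2 - η / (4 * n ^ 2) * ‖P n a w‖ ^ 2 := fun z hz h1 =>
      (key z hz).2 h1 (ga_near n a _ κ hn hM hκ z hz h1).1 (ga_near n a _ κ hn hM hκ z hz h1).2
    have x0 : 0 ≤ η / (4 * n ^ 2) * ‖P n a w‖ ^ 2 := by positivity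
    refine gb_lap (B := 6 * η * n ^ 2) (x := η / (4 * n ^ 2)) _ _ hn hq hκ M0 (by positivity) ?_ hw
      (fun t ht => ?_) fun z hz => ?_
    · rw [le_div_iff₀ (by positivity)]
      have h1 : (n : ℝ) ^ 4 ≤ n ^ 9 := pow_le_pow_right₀ (by linarith) (by norm_num)
      have h2 := mul_le_mul_of_nonneg_left h1 κ0.le
      nlinarith
    · have h1 := gb_core hn hw hM (by linarith : κ ≤ 1) ht
      have h2 := near _ (circ w t hw) (by nlinarith [mul_pos κ0 (pow_pos M0 2)])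
      exact ⟨by linarith, h2⟩
    · rcases le_total ((1 - 2 * κ) * ‖P n a w‖ ^ 2) (‖P n a z‖ ^ 2) with h1 | h1
      · exact Or.inl (by linarith [near z hz h1])
      · exact Or.inr ⟨h1, (key z hz).1⟩

end Pool.Agent.MP_d3fa2a_an.F
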