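import Pool.Agent.MP_d3fa2a_an.F.Def

/-! Local estimates at a point of the circle where the modulus is almost maximal. -/

set_option autoImplicit false

open Finset Real
open scoped ComplexConjugate

namespace Pool.Agent.MP_d3fa2a_an.F

theorem ga_coef (n : ℕ) (a : ℕ → ℂ) (M : ℝ) (hM : ∀ z : ℂ, ‖z‖ = 1 → ‖P n a z‖ ≤ M) :
    ∀ j ∈ Icc 1 n, ‖a j‖ ≤ M := by
  intro j hj
  have h1 : circleAverage (fun z : ℂ => conj z ^ j * P n a z) 0 1 = a j := by
    have e : (fun z : ℂ => conj z ^ j * P n a z) =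
        fun z => ∑ k ∈ Icc 1 n, a k • (conj z ^ j * z ^ k) := by
      funext z
      simp only [P, mul_sum, smul_eq_mul]
      exact sum_congr rfl fun k _ => by ring
    rw [e, circleAverage_fun_sum (fun k _ => R.ci fun z _ => by fun_prop)]
    simp only [circleAverage_fun_smul, R.extract]
    simp only [smul_eq_mul, mul_ite, mul_one, mul_zero, sum_ite_eq', if_pos hj]
  rw [← h1]
  refine (R.norm_avg _).trans (circleAverage_mono_on_of_le_circle
    (R.ci fun z _ => by have := cont_P n a; fun_prop) fun z hz => ?_)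
  rw [abs_one, mem_sphere_zero_iff_norm] at hz
  rw [norm_mul, norm_pow, Complex.norm_conj, hz, one_pow, one_mul]
  exact hM z hz

theorem ga_sum {n : ℕ} {f : ℕ → ℂ} {c : ℝ} (h : ∀ j ∈ Icc 1 n, ‖f j‖ ≤ c) :
    ‖∑ j ∈ Icc 1 n, f j‖ ≤ n * c := by
  refine (norm_sum_le_of_le _ h).trans (le_of_eq ?_)
  simp

theorem ga_core (n : ℕ) (a : ℕ → ℂ) (M : ℝ) (hM : ∀ z : ℂ, ‖z‖ = 1 → ‖P n a z‖ ≤ M)
    (z : ℂ) (hz : ‖z‖ = 1) (t : ℝ) :
    ‖P n a (z * Complex.exp (t * Complex.I)) - P n a z‖ ≤ M * n ^ 2 * |t| := by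
  have hM0 : 0 ≤ M := (norm_nonneg _).trans (hM 1 norm_one)
  rw [P, P, ← sum_sub_distrib]
  refine (ga_sum (c := M * (n * |t|)) fun j hj => ?_).trans (le_of_eq (by ring))
  have e : a j * (z * Complex.exp (t * Complex.I)) ^ j - a j * z ^ j =
      a j * (z ^ j * (Complex.exp (Complex.I * ((j * t : ℝ) : ℂ)) - 1)) := by
    rw [mul_pow, ← Complex.exp_nat_mul]
    push_cast
    rw [show (j : ℂ) * (t * Complex.I) = Complex.I * (j * t) by ring]
    ring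
  rw [e, norm_mul, norm_mul, norm_pow, hz, one_pow, one_mul]
  refine mul_le_mul (ga_coef n a M hM j hj) (Real.norm_exp_I_mul_ofReal_sub_one_le.trans ?_)
    (norm_nonneg _) hM0
  rw [Real.norm_eq_abs, abs_mul, Nat.abs_cast]
  exact mul_le_mul_of_nonneg_right (Nat.cast_le.2 (mem_Icc.1 hj).2) (abs_nonneg _)

theorem ga_schwarz (n : ℕ) (a : ℕ → ℂ) (M : ℝ) (hM : ∀ z : ℂ, ‖z‖ = 1 → ‖P n a z‖ ≤ M)
    (y : ℂ) (hy : ‖y‖ ≤ 1) : ‖P n a y‖ ≤ M * ‖y‖ := by
  have e : ∀ w : ℂ, P n a w = w * ∑ k ∈ Icc 1 n, a k * w ^ (k - 1) := fun w => by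
    rw [P, mul_sum]
    refine sum_congr rfl fun k hk => ?_
    obtain ⟨j, rfl⟩ := Nat.exists_eq_add_of_le' (mem_Icc.1 hk).1
    rw [add_tsub_cancel_right]
    ring
  have h := Complex.norm_le_of_forall_mem_frontier_norm_le
    (f := fun w : ℂ => ∑ k ∈ Icc 1 n, a k * w ^ (k - 1)) (U := Metric.ball 0 1) (C := M)
    Metric.isBounded_ball (Differentiable.diffContOnCl (by fun_prop)) (fun w hw => by
      rw [frontier_ball _ one_ne_zero, mem_sphere_zero_iff_norm] at hw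
      have := hM w hw
      rwa [e, norm_mul, hw, one_mul] at this) (z := y)
    (by rw [closure_ball _ one_ne_zero]; exact mem_closedBall_zero_iff.2 hy)
  rw [e, norm_mul, mul_comm]
  exact mul_le_mul_of_nonneg_right h (norm_nonneg _)

theorem ga_taylor {τ : ℂ} (h : ‖1 - τ‖ ≤ 1) (j : ℕ) :
    ‖(1 - τ) ^ j - 1 + j * τ‖ ≤ j ^ 2 * ‖τ‖ ^ 2 / 2 := by
  induction j with
  | zero => simp
  | succ j ih =>
    have e : (1 - τ) ^ (j + 1) - 1 + ((j + 1 : ℕ) : ℂ) * τ =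
        (1 - τ) * ((1 - τ) ^ j - 1 + j * τ) + j * τ ^ 2 := by
      push_cast
      ring
    rw [e]
    refine (norm_add_le _ _).trans ?_
    rw [norm_mul, norm_mul, norm_pow, Complex.norm_natCast]
    have := mul_le_of_le_one_left (norm_nonneg ((1 - τ) ^ j - 1 + j * τ)) h
    push_cast
    nlinarith [sq_nonneg ‖τ‖]

theorem ga_key (n : ℕ) (a : ℕ → ℂ) (M : ℝ) (hM : ∀ z : ℂ, ‖z‖ = 1 → ‖P n a z‖ ≤ M)
    (z : ℂ) (hz : ‖z‖ = 1) {τ : ℂ} (h : ‖1 - τ‖ ≤ 1) :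
    ‖P n a z‖ ^ 2 - (τ * (conj (P n a z) * P n (fun j => j * a j) z)).re -
      n ^ 3 * ‖τ‖ ^ 2 / 2 * M ^ 2 ≤ M ^ 2 * ‖1 - τ‖ := by
  have hM0 : 0 ≤ M := (norm_nonneg _).trans (hM 1 norm_one)
  set E := P n a (z * (1 - τ)) - P n a z + τ * P n (fun j => j * a j) z with hE
  have h1 : ‖E‖ ≤ n * (M * (n ^ 2 * ‖τ‖ ^ 2 / 2)) := by
    rw [hE, P, P, P, mul_sum, ← sum_sub_distrib, ← sum_add_distrib]
    refine ga_sum fun j hj => ?_
    rw [show a j * (z * (1 - τ)) ^ j - a j * z ^ j + τ * (j * a j * z ^ j) =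
      a j * (z ^ j * ((1 - τ) ^ j - 1 + j * τ)) by rw [mul_pow]; ring, norm_mul, norm_mul, norm_pow,
      hz, one_pow, one_mul]
    refine mul_le_mul (ga_coef n a M hM j hj) ((ga_taylor h j).trans ?_) (norm_nonneg _) hM0
    have : (j : ℝ) ≤ n := Nat.cast_le.2 (mem_Icc.1 hj).2
    gcongr
  have h2 : ‖P n a (z * (1 - τ))‖ ≤ M * ‖1 - τ‖ := by
    have := ga_schwarz n a M hM (z * (1 - τ)) (by rwa [norm_mul, hz, one_mul])
    rwa [norm_mul, hz, one_mul] at this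
  have hp := hM z hz
  have h3 : (conj (P n a z) * P n a (z * (1 - τ))).re ≤ M * (M * ‖1 - τ‖) :=
    (Complex.re_le_norm _).trans (by
      rw [norm_mul, Complex.norm_conj]
      exact mul_le_mul hp h2 (norm_nonneg _) hM0)
  have h4 : |(conj (P n a z) * E).re| ≤ M * (n * (M * (n ^ 2 * ‖τ‖ ^ 2 / 2))) :=
    (Complex.abs_re_le_norm _).trans (by
      rw [norm_mul, Complex.norm_conj]
      exact mul_le_mul hp h1 (norm_nonneg _) hM0)
  have h5 : conj (P n a z) * P n a (z * (1 - τ)) = ((‖P n a z‖ ^ 2 : ℝ) : ℂ) -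
      τ * (conj (P n a z) * P n (fun j => j * a j) z) + conj (P n a z) * E := by
    rw [hE]
    push_cast
    rw [← Complex.conj_mul']
    ring
  rw [h5, Complex.add_re, Complex.sub_re, Complex.ofReal_re] at h3
  have := (abs_le.1 h4).1
  nlinarith

theorem ga_near (n : ℕ) (a : ℕ → ℂ) (M k : ℝ) (hn : 2 ≤ n)
    (hM : ∀ z : ℂ, ‖z‖ = 1 → ‖P n a z‖ ≤ M) (hk : k = 1 / (5000 * (n : ℝ) ^ 9)) (z : ℂ)
    (hz : ‖z‖ = 1) (hF : (1 - 2 * k) * M ^ 2 ≤ ‖P n a z‖ ^ 2) :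
    M ^ 2 / 2 ≤ (conj (P n a z) * P n (fun j => j * a j) z).re ∧
      |(conj (P n a z) * P n (fun j => j * a j) z).im| ≤ M ^ 2 / (16 * n ^ 3) := by
  have hM0 : 0 ≤ M := (norm_nonneg _).trans (hM 1 norm_one)
  have hn1 : (1 : ℝ) ≤ n := by exact_mod_cast (by omega : 1 ≤ n)
  have hu : ‖conj (P n a z) * P n (fun j => j * a j) z‖ ≤ M * (n * (n * M)) := by
    rw [norm_mul, Complex.norm_conj]
    refine mul_le_mul (hM z hz) (ga_sum fun j hj => ?_) (norm_nonneg _) hM0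
    rw [norm_mul, norm_mul, norm_pow, hz, one_pow, mul_one, Complex.norm_natCast]
    exact mul_le_mul (Nat.cast_le.2 (mem_Icc.1 hj).2) (ga_coef n a M hM j hj) (norm_nonneg _)
      n.cast_nonneg
  have key := fun τ h => ga_key n a M hM z hz (τ := τ) h
  set u := conj (P n a z) * P n (fun j => j * a j) z
  obtain ⟨x, hx⟩ : ∃ x : ℝ, x = 1 / (n : ℝ) ^ 3 := ⟨_, rfl⟩
  have hx0 : 0 < x := by rw [hx]; positivity
  have hx1 : x ≤ 1 := by rw [hx]; exact (div_le_one (by positivity)).2 (one_le_pow₀ hn1)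
  have hxn : (n : ℝ) ^ 3 * x = 1 := by rw [hx]; field_simp
  have hkx : k = x ^ 3 / 5000 := by rw [hk, hx]; field_simp
  have hW : 0 ≤ M ^ 2 := sq_nonneg _
  have hx2 : x ^ 2 ≤ 1 := pow_le_one₀ hx0.le hx1
  constructor
  · have e : ‖1 - ((x / 2 : ℝ) : ℂ)‖ = 1 - x / 2 := by
      rw [← Complex.ofReal_one, ← Complex.ofReal_sub, Complex.norm_real,
        Real.norm_of_nonneg (by linarith)]
    have h := key ((x / 2 : ℝ) : ℂ) (by rw [e]; linarith)
    rw [e, Complex.re_ofReal_mul, Complex.norm_real, Real.norm_of_nonneg (by positivity),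
      show (n : ℝ) ^ 3 * (x / 2) ^ 2 / 2 = (n : ℝ) ^ 3 * x * x / 8 by ring, hxn] at h
    refine le_of_mul_le_mul_left ?_ (half_pos hx0)
    have : x * x ^ 2 * M ^ 2 ≤ x * 1 * M ^ 2 := by gcongr
    have := mul_nonneg hx0.le hW
    rw [hkx] at hF
    nlinarith
  · obtain ⟨s, hs⟩ : ∃ s : ℝ, s = x ^ 2 / 70 := ⟨_, rfl⟩
    have hs0 : 0 < s := by rw [hs]; positivity
    have hs1 : s ^ 2 ≤ 1 := pow_le_one₀ hs0.le (by linarith)
    have hre : u.re ≤ (n : ℝ) ^ 3 * M ^ 2 := by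
      have : (n : ℝ) ^ 2 * M ^ 2 ≤ (n : ℝ) ^ 3 * M ^ 2 :=
        mul_le_mul_of_nonneg_right (pow_le_pow_right₀ hn1 (by norm_num)) hW
      nlinarith [Complex.re_le_norm u]
    have main : ∀ r : ℝ, r ^ 2 = s ^ 2 → r * u.im ≤ s * (x * M ^ 2 / 16) := fun r hr => by
      have h1 : ‖1 - (⟨s ^ 2, r⟩ : ℂ)‖ ≤ 1 := by
        rw [← sq_le_one_iff₀ (norm_nonneg _), Complex.sq_norm, Complex.normSq_apply]
        simp only [Complex.sub_re, Complex.sub_im, Complex.one_re, Complex.one_im]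
        nlinarith [sq_nonneg s]
      have h2 : ‖(⟨s ^ 2, r⟩ : ℂ)‖ ^ 2 ≤ 2 * s ^ 2 := by
        rw [Complex.sq_norm, Complex.normSq_apply]
        simp only
        nlinarith [sq_nonneg s]
      have h := key _ h1
      rw [Complex.mul_re] at h
      simp only at h
      have h3 : (n : ℝ) ^ 3 * ‖(⟨s ^ 2, r⟩ : ℂ)‖ ^ 2 / 2 * M ^ 2 ≤
          (n : ℝ) ^ 3 * (2 * s ^ 2) / 2 * M ^ 2 := by gcongr
      have h4 := mul_le_of_le_one_right hW h1
      have h5 := mul_le_mul_of_nonneg_left hre (sq_nonneg s)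
      have h6 : (n : ℝ) ^ 3 * s ^ 2 * M ^ 2 = s * (x * M ^ 2 / 70) := by
        rw [hs]
        linear_combination (x ^ 3 * M ^ 2 / 4900) * hxn
      have h7 : k * M ^ 2 = s * (x * M ^ 2 * (70 / 5000)) := by
        rw [hs, hkx]
        ring
      have := mul_nonneg hs0.le (mul_nonneg hx0.le hW)
      nlinarith
    rw [show M ^ 2 / (16 * (n : ℝ) ^ 3) = x * M ^ 2 / 16 by rw [hx]; field_simp, abs_le]
    have p := main s rfl
    have m := main (-s) (neg_sq s)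
    constructor
    · refine neg_le.1 (le_of_mul_le_mul_left ?_ hs0)
      linarith
    · exact le_of_mul_le_mul_left p hs0

end Pool.Agent.MP_d3fa2a_an.F
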