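import Pool.Agent.MP_d3fa2a_an.F.Def

/-! The integral mean attains its maximum on univalent polynomials. -/

set_option autoImplicit false

open Finset Polynomial Filter Topology

namespace Pool.Agent.MP_d3fa2a_an.F

theorem max_bound {n : ℕ} {a : ℕ → ℂ} (hn : 1 ≤ n) (h : U n a) {k : ℕ} (hk : k ∈ Icc 1 n) :
    ‖a k‖ ≤ n.choose (n / 2) := by
  let r : ℂ[X] := ∑ j ∈ Icc 1 n, monomial (n - j) (a j)
  have hc : ∀ k ∈ Icc 1 n, r.coeff (n - k) = a k := fun k hk => by
    simp only [r, finsetSum_coeff, coeff_monomial]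
    rw [sum_eq_single k, if_pos rfl]
    · intro j hj hjk
      have := mem_Icc.1 hj
      have := mem_Icc.1 hk
      exact if_neg (by omega)
    · exact fun h => (h hk).elim
  have hd : r.natDegree ≤ n - 1 :=
    natDegree_sum_le_of_forall_le _ _ fun j hj => (natDegree_monomial_le _).trans (by
      have := mem_Icc.1 hj
      omega)
  have hm : r.Monic := monic_of_natDegree_le_of_coeff_eq_one _ hd
    ((hc 1 (mem_Icc.2 ⟨le_rfl, hn⟩)).trans h.1)
  have := coeff_bdd_of_roots_le (B := 1) (d := n) (RingHom.id ℂ) hm (IsAlgClosed.splits _)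
    (by omega) (fun z hz => ?_) (n - k)
  · rwa [Polynomial.map_id, hc k hk, max_self, one_pow, one_mul] at this
  by_contra hz1
  have h1 : 1 < ‖z‖ := not_le.1 hz1
  have h0 : z ≠ 0 := norm_pos_iff.1 (by linarith)
  rw [Polynomial.map_id] at hz
  have h2 : r.eval z = z ^ n * P n a z⁻¹ := by
    simp only [r, eval_finsetSum, eval_monomial, P, mul_sum]
    refine sum_congr rfl fun j hj => ?_
    rw [pow_sub₀ _ h0 (mem_Icc.1 hj).2, inv_pow]
    ring
  have h3 : P n a z⁻¹ = P n a 0 := by
    rw [P_zero]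
    exact (mul_eq_zero.1 (h2.symm.trans ((mem_roots hm.ne_zero).1 hz))).resolve_left (pow_ne_zero _ h0)
  exact inv_ne_zero h0 (h.2 (mem_ball_zero_iff.2 (by
    rw [norm_inv]; exact inv_lt_one_of_one_lt₀ h1)) (Metric.mem_ball_self one_pos) h3)

theorem max_closed {n : ℕ} (hn : 1 ≤ n) : IsClosed {a : ℕ → ℂ | U n a} := by
  refine isClosed_of_closure_subset fun a ha => ?_
  have h1 : a 1 = 1 := (isClosed_eq (continuous_apply 1) continuous_const).closure_subset_iff.2
    (fun b (hb : U n b) => hb.1) ha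
  have := mem_closure_iff_comap_neBot.1 ha
  refine ⟨h1, MP_1a2790_an.limit_injOn (l := comap Subtype.val (𝓝 a))
    (F := fun b : {a : ℕ → ℂ | U n a} => P n b.1) Metric.isOpen_ball
    (fun b => (diff_P n b.1).differentiableOn)
    (TendstoUniformlyOn.tendstoLocallyUniformlyOn ?_) (fun z₀ _ h => ?_) fun b => b.2.2⟩
  · refine Metric.tendstoUniformlyOn_iff.2 fun ε hε => ?_
    have hc : Continuous fun b : ℕ → ℂ => ∑ k ∈ Icc 1 n, ‖a k - b k‖ := by fun_prop
    have h2 : ∀ᶠ b in 𝓝 a, ∑ k ∈ Icc 1 n, ‖a k - b k‖ < ε :=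
      (hc.tendsto a).eventually (gt_mem_nhds (by simpa using hε))
    refine (tendsto_comap.eventually h2).mono fun b hb z hz => lt_of_le_of_lt ?_ hb
    have e : P n a z - P n b.1 z = P n (fun k => a k - b.1 k) z := by
      simp only [P, sub_mul, sum_sub_distrib]
    rw [dist_eq_norm, e]
    exact norm_P_le n _ (mem_ball_zero_iff.1 hz).le
  · have h2 : pol n a - C (P n a z₀) = 0 :=
      eq_zero_of_infinite_isRoot _ ((infinite_of_mem_nhds z₀ h).mono fun z hz => by
        simpa [eval_pol, sub_eq_zero] using hz)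
    have h3 := congrArg (coeff · 1) h2
    simp [pol, coeff_monomial, hn, h1] at h3

theorem max_st : MaxSt := by
  classical
  intro n q hn hq
  let K : Set (ℕ → ℂ) := {a | U n a} ∩ Set.pi Set.univ fun _ =>
    Metric.closedBall 0 (n.choose (n / 2))
  have hK : IsCompact K :=
    (isCompact_univ_pi fun _ => isCompact_closedBall _ _).inter_left (max_closed hn)
  have red : ∀ b, U n b → ∃ b' ∈ K, J n b' q = J n b q := fun b hb => by
    have e : P n (fun k => if k ∈ Icc 1 n then b k else 0) = P n b :=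
      funext (P_congr fun k hk => if_pos hk)
    refine ⟨fun k => if k ∈ Icc 1 n then b k else 0,
      ⟨⟨(if_pos (mem_Icc.2 ⟨le_rfl, hn⟩)).trans hb.1, e ▸ hb.2⟩, fun k _ => ?_⟩, by simp only [J, e]⟩
    simp only [mem_closedBall_zero_iff]
    split_ifs with h
    · exact max_bound hn hb h
    · simp
  have h1 : U n (Pi.single 1 1) := by
    refine ⟨by simp, fun x _ y _ h => ?_⟩
    simpa [P, Pi.single_apply, hn] using h
  have hJ : Continuous fun a : ℕ → ℂ => J n a q := by
    refine intervalIntegral.continuous_parametric_intervalIntegral_of_continuous' ?_ _ _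
    refine Continuous.rpow_const ?_ fun _ => Or.inr hq.le
    unfold P
    fun_prop
  obtain ⟨a, ha, hmax⟩ := hK.exists_isMaxOn ⟨_, (red _ h1).choose_spec.1⟩ hJ.continuousOn
  refine ⟨a, ha.1, fun b hb => ?_⟩
  obtain ⟨b', h2, h3⟩ := red b hb
  exact h3 ▸ hmax h2

end Pool.Agent.MP_d3fa2a_an.F
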