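import Pool.Agent.MP_d3fa2a_an.F.Def

/-! Coefficients of zero free complex polynomials compared with the reversed polynomial. -/

set_option autoImplicit false

open Finset Real Metric Filter Topology
open scoped ComplexConjugate

namespace Pool.Agent.MP_d3fa2a_an.F

theorem rev_le {m : ℕ} {b : ℕ → ℂ} (h0 : b 0 = 1)
    (hf : ∀ z : ℂ, ‖z‖ < 1 → ∑ i ∈ range (m + 1), b i * z ^ i ≠ 0) {z : ℂ} (hz : ‖z‖ < 1) :
    ‖∑ i ∈ range (m + 1), conj (b (m - i)) * z ^ i‖ ≤ ‖∑ i ∈ range (m + 1), b i * z ^ i‖ := by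
  set Q : Polynomial ℂ := ∑ i ∈ range (m + 1), Polynomial.monomial i (conj (b (m - i))) with hP
  have hd : Q.natDegree ≤ m := Polynomial.natDegree_sum_le_of_forall_le _ _ fun i hi =>
    (Polynomial.natDegree_monomial_le _).trans (Nat.lt_succ_iff.1 (mem_range.1 hi))
  have hc : Q.coeff m = 1 := by
    simp [hP, Polynomial.coeff_monomial, h0]
  have hm := Polynomial.monic_of_natDegree_le_of_coeff_eq_one m hd hc
  have hcard : Q.roots.card = m := by
    rw [IsAlgClosed.card_roots_eq_natDegree]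
    exact le_antisymm hd (Polynomial.le_natDegree_of_ne_zero (hc ▸ one_ne_zero))
  have he : ∀ z : ℂ, ∑ i ∈ range (m + 1), conj (b (m - i)) * z ^ i =
      (Q.roots.map fun η => z - η).prod := fun z => by
    rw [← (IsAlgClosed.splits Q).eval_eq_prod_roots_of_monic hm, hP, Polynomial.eval_finsetSum]
    simp only [Polynomial.eval_monomial]
  have hr : ∀ z : ℂ, ∑ i ∈ range (m + 1), b i * z ^ i =
      (Q.roots.map fun η => 1 - conj η * z).prod := fun z => by
    rcases eq_or_ne z 0 with rfl | h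
    · simp [sum_range_succ', h0]
    · have e : (Q.roots.map fun η => 1 - conj η * z) =
          Q.roots.map fun η => z * conj ((conj z)⁻¹ - η) :=
        Multiset.map_congr rfl fun η _ => by
          rw [map_sub, map_inv₀, Complex.conj_conj]
          field_simp
      have e' : (Q.roots.map fun η => conj ((conj z)⁻¹ - η)).prod =
          conj (Q.roots.map fun η => (conj z)⁻¹ - η).prod := by
        rw [map_multiset_prod, Multiset.map_map]
        rfl
      rw [e, Multiset.prod_map_mul, e', ← he, Multiset.map_const', Multiset.prod_replicate, hcard,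
        map_sum, mul_sum, ← sum_range_reflect]
      refine sum_congr rfl fun i hi => ?_
      obtain ⟨j, rfl⟩ := Nat.exists_eq_add_of_le (Nat.lt_succ_iff.1 (mem_range.1 hi))
      simp only [add_tsub_cancel_right, add_tsub_cancel_left, pow_add, inv_pow, map_mul, map_inv₀,
        map_pow, Complex.conj_conj]
      field_simp
  have hη : ∀ η ∈ Q.roots, ‖η‖ ≤ 1 := fun η hη => by
    by_contra h
    have h' := not_le.1 h
    have h1 : conj η ≠ 0 := (_root_.map_ne_zero _).2 (norm_pos_iff.1 (zero_lt_one.trans h'))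
    refine hf (conj η)⁻¹ (by rw [norm_inv, Complex.norm_conj]; exact inv_lt_one_of_one_lt₀ h') ?_
    rw [hr]
    exact Multiset.prod_eq_zero (Multiset.mem_map.2 ⟨η, hη, by rw [mul_inv_cancel₀ h1, sub_self]⟩)
  rw [he, hr]
  generalize Q.roots = R at hη
  induction R using Multiset.induction_on with
  | empty => simp
  | cons η R ih =>
    simp only [Multiset.map_cons, Multiset.prod_cons, norm_mul]
    refine mul_le_mul ?_ (ih fun x hx => hη x (Multiset.mem_cons_of_mem hx)) (norm_nonneg _)
      (norm_nonneg _)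
    have h1 := hη η (Multiset.mem_cons_self _ _)
    have h2 : ‖η‖ ^ 2 ≤ 1 := pow_le_one₀ (norm_nonneg _) h1
    have h3 : ‖z‖ ^ 2 ≤ 1 := pow_le_one₀ (norm_nonneg _) hz.le
    refine le_of_sq_le_sq ?_ (norm_nonneg _)
    have h4 := mul_nonneg (sub_nonneg.2 h2) (sub_nonneg.2 h3)
    simp only [Complex.sq_norm, Complex.normSq_apply] at h4 ⊢
    simp
    nlinarith

theorem rev_coeff {m : ℕ} {b : ℕ → ℂ} (h0 : b 0 = 1)
    (hf : ∀ z : ℂ, ‖z‖ < 1 → ∑ i ∈ range (m + 1), b i * z ^ i ≠ 0) :
    ‖b m‖ ≤ 1 ∧ ∀ τ : ℝ, b m = τ → ∀ i ≤ m,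
      ‖b i - conj (b (m - i))‖ ≤ 2 * (1 - τ) * ∑ l ∈ range (m + 1), ‖b l‖ := by
  have h1 : ‖b m‖ ≤ 1 := by
    simpa [sum_range_succ', h0] using rev_le h0 hf (z := 0) (by simp)
  refine ⟨h1, fun τ hτ i hi => ?_⟩
  have hτ1 : τ ≤ 1 := by
    rw [hτ, Complex.norm_real] at h1
    exact (le_abs_self τ).trans h1
  have key : ∀ r : ℝ, 0 < r → r < 1 →
      ‖b i - conj (b (m - i))‖ * r ^ i ≤ 2 * (1 - τ) * ∑ l ∈ range (m + 1), ‖b l‖ := by
    intro r r0 r1
    have hn : ∀ z : ℂ, ‖z‖ ≤ 1 → ‖r * z‖ < 1 := fun z hz => by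
      rw [norm_mul, Complex.norm_real, Real.norm_of_nonneg r0.le]
      exact (mul_le_of_le_one_right r0.le hz).trans_lt r1
    set G : ℂ → ℂ := fun z => 1 - (∑ i ∈ range (m + 1), conj (b (m - i)) * (r * z) ^ i) /
      ∑ i ∈ range (m + 1), b i * (r * z) ^ i with hG
    have hd : ∀ z, ‖z‖ ≤ 1 → DifferentiableAt ℂ G z := fun z hz =>
      (differentiableAt_const _).sub (DifferentiableAt.div (by fun_prop) (by fun_prop)
        (hf _ (hn z hz)))
    have hc := R.car (δ := 1 - τ) hd (fun z hz => by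
      have h2 := rev_le h0 hf (hn z hz.le)
      rw [← div_le_one (norm_pos_iff.2 (hf _ (hn z hz.le))), ← norm_div] at h2
      simpa [hG] using (Complex.re_le_norm _).trans h2)
      (by simp [hG, sum_range_succ', h0, hτ]) i
    have e1 : circleAverage (fun z => ∑ l ∈ range (m + 1),
        ((b l - conj (b (m - l))) * (r : ℂ) ^ l) • (conj z ^ i * z ^ l)) 0 1 =
        (b i - conj (b (m - i))) * (r : ℂ) ^ i := by
      rw [circleAverage_fun_sum fun l _ => R.ci fun z _ => by fun_prop]
      simp only [circleAverage_fun_smul, R.extract]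
      simp only [smul_eq_mul, mul_ite, mul_one, mul_zero,
        sum_ite_eq', mem_range, Nat.lt_succ_of_le hi, if_true]
    have e2 : circleAverage (fun z => ∑ l ∈ range (m + 1),
        ((b l - conj (b (m - l))) * (r : ℂ) ^ l) • (conj z ^ i * z ^ l)) 0 1 =
        ∑ l ∈ range (m + 1), (b l * (r : ℂ) ^ l) •
          circleAverage (fun z => conj z ^ i * z ^ l * G z) 0 1 := by
      simp only [← circleAverage_fun_smul]
      rw [← circleAverage_fun_sum fun l _ => R.ci fun z hz => by
        have := (hd z hz).continuousAt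
        fun_prop]
      refine circleAverage_congr_sphere fun z hz => ?_
      rw [abs_one, mem_sphere_zero_iff_norm] at hz
      have h2 := hf _ (hn z hz.le)
      have h3 : (∑ i ∈ range (m + 1), b i * (r * z) ^ i) * G z =
          ∑ i ∈ range (m + 1), b i * (r * z) ^ i -
            ∑ i ∈ range (m + 1), conj (b (m - i)) * (r * z) ^ i := by
        simp only [hG]
        field_simp
      rw [sum_mul, ← sum_sub_distrib] at h3
      have h4 := congrArg (conj z ^ i * ·) h3
      simp only [mul_sum] at h4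
      simp only [smul_eq_mul]
      refine Eq.trans (sum_congr rfl fun l _ => ?_) (h4.symm.trans (sum_congr rfl fun l _ => ?_)) <;>
        ring
    have hr : ∀ l : ℕ, ‖(r : ℂ) ^ l‖ = r ^ l := fun l => by
      rw [norm_pow, Complex.norm_real, Real.norm_of_nonneg r0.le]
    rw [← hr, ← norm_mul, ← e1, e2, mul_sum]
    refine norm_sum_le_of_le _ fun l _ => ?_
    rw [norm_smul, mul_comm, norm_mul, hr]
    exact mul_le_mul (hc l) (mul_le_of_le_one_right (norm_nonneg _) (pow_le_one₀ r0.le r1.le))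
      (by positivity) (by linarith)
  have ht : Tendsto (fun r : ℝ => ‖b i - conj (b (m - i))‖ * r ^ i) (𝓝[<] 1)
      (𝓝 (‖b i - conj (b (m - i))‖ * 1 ^ i)) :=
    (Continuous.tendsto (by fun_prop) _).mono_left nhdsWithin_le_nhds
  rw [one_pow, mul_one] at ht
  refine le_of_tendsto ht ?_
  filter_upwards [Ioo_mem_nhdsLT (zero_lt_one' ℝ)] with r hr using key r hr.1 hr.2

theorem rev_sum {M : Type} [AddCommMonoid M] (n : ℕ) (f : ℕ → M) :
    ∑ k ∈ Icc 1 n, f k = ∑ i ∈ range n, f (i + 1) := by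
  rw [← Ico_add_one_right_eq_Icc, sum_Ico_eq_sum_range]
  simp only [add_tsub_cancel_right, add_comm 1]

theorem rev_st : RevSt := by
  intro n a hn ⟨h1, hi⟩
  obtain ⟨m, rfl⟩ := Nat.exists_eq_add_of_le' hn
  obtain ⟨b1, b2⟩ := rev_coeff (m := m) (b := fun i => (i + 1 : ℕ) * a (i + 1)) (by simp [h1])
    fun z hz => by
      have := MP_1a2790_an.deriv_ne_zero_of_injOn isOpen_ball (diff_P _ a).differentiableOn hi
        (mem_ball_zero_iff.2 hz)
      have h : HasDerivAt (P (m + 1) a) _ z :=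
        HasDerivAt.fun_sum fun k _ => (hasDerivAt_pow k z).const_mul (a k)
      rw [h.deriv, rev_sum] at this
      convert this using 2 with i
      push_cast
      ring
  refine ⟨by rwa [norm_mul, Complex.norm_natCast] at b1, fun ρ hρ k hk => ?_⟩
  rw [mem_Icc] at hk
  obtain ⟨i, rfl⟩ := Nat.exists_eq_add_of_le' hk.1
  have hi : i ≤ m := by omega
  have := b2 ((m + 1 : ℕ) * ρ) (by simp [hρ]) i hi
  rw [show m + 1 + 1 - (i + 1) = m - i + 1 by omega, rev_sum]
  simp only [map_mul, Complex.conj_natCast, norm_mul, Complex.norm_natCast] at this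
  convert this using 3
  push_cast [hi]
  ring

end Pool.Agent.MP_d3fa2a_an.F
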