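import Pool.Agent.MP_d3fa2a_an.F.Def

/-! Rotations and strict convexity of the integral mean. -/

set_option autoImplicit false

open Finset Polynomial

namespace Pool.Agent.MP_d3fa2a_an.F

theorem rot_P (n : ℕ) (α : ℝ) (a : ℕ → ℂ) (z : ℂ) :
    P n (rot α a) z =
      Complex.exp (-(α * Complex.I)) * P n a (Complex.exp (α * Complex.I) * z) := by
  simp only [P, rot, mul_sum]
  refine sum_congr rfl fun k _ => ?_
  have : Complex.exp ((((k : ℝ) - 1) * α : ℝ) * Complex.I) =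
      Complex.exp (-(α * Complex.I)) * Complex.exp (α * Complex.I) ^ k := by
    rw [← Complex.exp_nat_mul, ← Complex.exp_add]
    congr 1
    push_cast
    ring
  rw [this, mul_pow]
  ring

theorem rot_st : RotSt := by
  intro n a
  have e1 : ∀ α : ℝ, ‖Complex.exp (α * Complex.I)‖ = 1 := Complex.norm_exp_ofReal_mul_I
  have e2 : ∀ α : ℝ, ‖Complex.exp (-(α * Complex.I))‖ = 1 := fun α => by
    rw [Complex.exp_neg, norm_inv, e1, inv_one]
  refine ⟨fun α q => ?_, fun α h => ⟨?_, fun x hx y hy e => ?_⟩, fun hn => ?_⟩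
  · have h : Function.Periodic (fun t : ℝ => ‖P n a (Complex.exp (t * Complex.I))‖ ^ q)
        (2 * Real.pi) := fun t => by simp [add_mul, Complex.exp_add]
    have h1 := h.intervalIntegral_add_eq α 0
    have h2 := intervalIntegral.integral_comp_add_left (a := 0) (b := 2 * Real.pi)
      (fun t : ℝ => ‖P n a (Complex.exp (t * Complex.I))‖ ^ q) α
    rw [add_zero, h1, zero_add] at h2
    rw [J, J, ← h2]
    refine intervalIntegral.integral_congr fun t _ => ?_
    simp only [rot_P, norm_mul, e2, one_mul]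
    rw [← Complex.exp_add]
    congr 4
    push_cast
    ring
  · simp [rot, h.1]
  · rw [rot_P, rot_P] at e
    have m : ∀ z ∈ Metric.ball (0 : ℂ) 1, Complex.exp (α * Complex.I) * z ∈ Metric.ball (0 : ℂ) 1 :=
      fun z hz => by
        rw [mem_ball_zero_iff] at hz ⊢
        rwa [norm_mul, e1, one_mul]
    exact mul_left_cancel₀ (Complex.exp_ne_zero _)
      (h.2 (m x hx) (m y hy) (mul_left_cancel₀ (Complex.exp_ne_zero _) e))
  · refine ⟨-(a n).arg / ((n : ℝ) - 1), ?_⟩
    have h1 : (n : ℝ) - 1 ≠ 0 := by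
      have : (2 : ℝ) ≤ n := by exact_mod_cast hn
      linarith
    rw [rot, mul_div_cancel₀ _ h1]
    nth_rewrite 1 [← Complex.norm_mul_exp_arg_mul_I (a n)]
    rw [mul_assoc, ← Complex.exp_add]
    push_cast
    rw [neg_mul, add_neg_cancel, Complex.exp_zero, mul_one]

theorem rot_half (u v : ℂ) {q : ℝ} (hq : 2 ≤ q) :
    2 * (‖u‖ ^ 2 + ‖v‖ ^ 2) ^ (q / 2) ≤ ‖u + v‖ ^ q + ‖u - v‖ ^ q := by
  have h := (convexOn_rpow (p := q / 2) (by linarith)).2
    (show ‖u + v‖ ^ 2 ∈ Set.Ici (0 : ℝ) from Set.mem_Ici.2 (sq_nonneg _))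
    (show ‖u - v‖ ^ 2 ∈ Set.Ici (0 : ℝ) from Set.mem_Ici.2 (sq_nonneg _))
    (show (0 : ℝ) ≤ 1 / 2 by norm_num) (show (0 : ℝ) ≤ 1 / 2 by norm_num) (by norm_num)
  have e : ∀ z : ℂ, (‖z‖ ^ 2) ^ (q / 2) = ‖z‖ ^ q := fun z => by
    rw [← Real.rpow_natCast, ← Real.rpow_mul (norm_nonneg z)]
    congr 1
    push_cast
    ring
  have p := parallelogram_law_with_norm ℂ u v
  simp only [smul_eq_mul, e] at h
  rw [show 1 / 2 * ‖u + v‖ ^ 2 + 1 / 2 * ‖u - v‖ ^ 2 = ‖u‖ ^ 2 + ‖v‖ ^ 2 by linarith] at h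
  linarith

theorem rot_sq (u : ℂ) (q : ℝ) : ‖u‖ ^ q = (‖u‖ ^ 2) ^ (q / 2) := by
  rw [← Real.rpow_natCast, ← Real.rpow_mul (norm_nonneg u)]
  congr 1
  push_cast
  ring

theorem rot_ex {n : ℕ} {w : ℕ → ℂ} (hw : ∃ k ∈ Icc 1 n, w k ≠ 0) :
    ∃ t ∈ Set.Icc (0 : ℝ) (2 * Real.pi), P n w (Complex.exp (t * Complex.I)) ≠ 0 := by
  by_contra h
  push Not at h
  obtain ⟨k, hk, hw⟩ := hw
  have h0 : pol n w = 0 := by
    refine eq_zero_of_infinite_isRoot _ (((Set.Ico_infinite Real.two_pi_pos).image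
      (injOn_circleMap_of_abs_sub_le' (c := 0) one_ne_zero (by simp))).mono ?_)
    rintro _ ⟨t, ht, rfl⟩
    have := h t ⟨ht.1, ht.2.le⟩
    simpa [IsRoot, eval_pol, circleMap] using this
  have := congrArg (fun p : ℂ[X] => p.coeff k) h0
  simp only [pol, finsetSum_coeff, coeff_monomial, sum_ite_eq', if_pos hk, coeff_zero] at this
  exact hw this

theorem cvx_st : CvxSt := by
  intro n a w q hq hw
  have c : ∀ b : ℕ → ℂ, Continuous fun t : ℝ => ‖P n b (Complex.exp (t * Complex.I))‖ ^ q :=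
    fun b => ((cont_P n b).comp (by fun_prop)).norm.rpow_const fun _ => Or.inr (by linarith)
  have ea : ∀ z, P n (a + w) z = P n a z + P n w z := fun z => by
    simp only [P, Pi.add_apply, add_mul, sum_add_distrib]
  have es : ∀ z, P n (a - w) z = P n a z - P n w z := fun z => by
    simp only [P, Pi.sub_apply, sub_mul, sum_sub_distrib]
  rw [J, J, J, ← intervalIntegral.integral_const_mul, ← intervalIntegral.integral_add
    ((c _).intervalIntegrable _ _) ((c _).intervalIntegrable _ _)]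
  refine intervalIntegral.integral_lt_integral_of_continuousOn_of_le_of_exists_lt Real.two_pi_pos
    (continuous_const.mul (c a)).continuousOn ((c _).add (c _)).continuousOn (fun t _ => ?_) ?_
  · rw [ea, es, rot_sq]
    refine le_trans ?_ (rot_half _ _ hq)
    gcongr
    exact le_add_of_nonneg_right (sq_nonneg _)
  · obtain ⟨t, ht, h⟩ := rot_ex hw
    refine ⟨t, ht, ?_⟩
    rw [ea, es, rot_sq]
    refine lt_of_lt_of_le ?_ (rot_half _ _ hq)
    have := pow_pos (norm_pos_iff.2 h) 2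
    exact mul_lt_mul_of_pos_left (Real.rpow_lt_rpow (sq_nonneg _) (by linarith) (by linarith))
      two_pos

end Pool.Agent.MP_d3fa2a_an.F
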