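import Pool.Agent.MP_d3fa2a_an.F.Def

/-! The theorem of Rouche for polynomials and the zeros of the self inversive pencil. -/

set_option autoImplicit false

open Finset Polynomial Filter Topology
open scoped ComplexConjugate

namespace Pool.Agent.MP_d3fa2a_an.F

theorem rou_sum {r : ℝ} (hr : 0 < r) (s : Multiset ℂ) (hs : ∀ w ∈ s, ‖w‖ ≠ r) :
    ContinuousOn (fun z => (s.map fun w => 1 / (z - w)).sum) (Metric.sphere 0 r) ∧
    (∮ z in C(0, r), (s.map fun w => 1 / (z - w)).sum)
      = 2 * Real.pi * Complex.I * (s.filter fun z => ‖z‖ < r).card := by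
  induction s using Multiset.induction_on with
  | empty => simp [continuousOn_const, circleIntegral]
  | cons w s ih =>
    obtain ⟨ih1, ih2⟩ := ih fun x hx => hs x (Multiset.mem_cons_of_mem hx)
    have hw := hs w (Multiset.mem_cons_self _ _)
    have hc : ContinuousOn (fun z : ℂ => (z - w)⁻¹) (Metric.sphere 0 r) :=
      (continuousOn_id.sub continuousOn_const).inv₀ fun z hz h =>
        hw (by rw [← show z = w from sub_eq_zero.1 h]; exact mem_sphere_zero_iff_norm.1 hz)
    simp only [Multiset.map_cons, Multiset.sum_cons, one_div] at ih1 ih2 ⊢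
    refine ⟨hc.add ih1, ?_⟩
    rw [circleIntegral.integral_add (hc.circleIntegrable hr.le) (ih1.circleIntegrable hr.le), ih2]
    by_cases h : ‖w‖ < r
    · rw [circleIntegral.integral_sub_inv_of_mem_ball (mem_ball_zero_iff.2 h),
        Multiset.filter_cons_of_pos (p := fun z : ℂ => ‖z‖ < r) _ h, Multiset.card_cons]
      push_cast
      ring
    · have h' : ∀ z ∈ Metric.closedBall (0 : ℂ) r, z - w ≠ 0 := fun z hz e => by
        have := mem_closedBall_zero_iff.1 hz
        rw [sub_eq_zero.1 e] at this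
        exact h (lt_of_le_of_ne this hw)
      rw [Multiset.filter_cons_of_neg (p := fun z : ℂ => ‖z‖ < r) _ h,
        Complex.circleIntegral_eq_zero_of_differentiable_on_off_countable
          (f := fun z : ℂ => (z - w)⁻¹) hr.le Set.countable_empty
          ((continuousOn_id.sub continuousOn_const).inv₀ h')
          fun z hz => (differentiableAt_id.sub_const w).inv
            (h' z (Metric.ball_subset_closedBall hz.1)), zero_add]

theorem rou_int {r : ℝ} (hr : 0 < r) (H : ℂ[X]) (h : ∀ z : ℂ, ‖z‖ = r → H.eval z ≠ 0) :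
    (∮ z in C(0, r), H.derivative.eval z / H.eval z) = 2 * Real.pi * Complex.I * cnt H r := by
  rw [cnt, ← (rou_sum hr H.roots fun w hw e => h w e (isRoot_of_mem_roots hw)).2]
  exact circleIntegral.integral_congr hr.le fun z hz =>
    (IsAlgClosed.splits H).eval_derivative_div_eval_of_ne_zero
      (h z (mem_sphere_zero_iff_norm.1 hz))

theorem rouche_st : RoucheSt := by
  intro F G r hr h
  have hne : ∀ (t : Set.Icc (0 : ℝ) 1) (z : ℂ), ‖z‖ = r →
      F.eval z + (t : ℝ) * G.eval z ≠ 0 := fun t z hz e => by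
    have h1 := h z hz
    rw [eq_neg_of_add_eq_zero_left e, norm_neg, norm_mul, Complex.norm_real,
      Real.norm_of_nonneg t.2.1] at h1
    exact h1.not_ge (mul_le_of_le_one_left (norm_nonneg _) t.2.2)
  have hcm : ∀ θ : ℝ, ‖circleMap 0 r θ‖ = r := fun θ => by simp [abs_of_pos hr]
  have hI : Continuous fun t : Set.Icc (0 : ℝ) 1 => ∮ z in C(0, r),
      (F.derivative.eval z + (t : ℝ) * G.derivative.eval z) / (F.eval z + (t : ℝ) * G.eval z) := by
    simp only [circleIntegral, deriv_circleMap]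
    refine intervalIntegral.continuous_parametric_intervalIntegral_of_continuous' ?_ _ _
    have c1 : Continuous fun p : Set.Icc (0 : ℝ) 1 × ℝ => circleMap 0 r p.2 := by fun_prop
    have c2 : Continuous fun p : Set.Icc (0 : ℝ) 1 × ℝ => ((p.1 : ℝ) : ℂ) := by fun_prop
    exact (c1.mul continuous_const).smul (((F.derivative.continuous.comp c1).add
      (c2.mul (G.derivative.continuous.comp c1))).div
      ((F.continuous.comp c1).add (c2.mul (G.continuous.comp c1))) fun p => hne p.1 _ (hcm p.2))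
  have hE : ∀ t : Set.Icc (0 : ℝ) 1, (∮ z in C(0, r),
      (F.derivative.eval z + (t : ℝ) * G.derivative.eval z) / (F.eval z + (t : ℝ) * G.eval z))
      = 2 * Real.pi * Complex.I * cnt (F + C ((t : ℝ) : ℂ) * G) r := fun t => by
    rw [← rou_int hr _ fun z hz => by simpa using hne t z hz]
    simp
  simp only [hE] at hI
  have h2 : Continuous fun t : Set.Icc (0 : ℝ) 1 =>
      ((cnt (F + C ((t : ℝ) : ℂ) * G) r : ℕ) : ℝ) := by
    have := Complex.continuous_re.comp (hI.div_const (2 * Real.pi * Complex.I))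
    refine this.congr fun t => ?_
    simp only [Function.comp]
    rw [mul_div_cancel_left₀ _ Complex.two_pi_I_ne_zero, Complex.natCast_re]
  have h3 : Continuous fun t : Set.Icc (0 : ℝ) 1 => cnt (F + C ((t : ℝ) : ℂ) * G) r :=
    Nat.isClosedEmbedding_coe_real.isEmbedding.continuous_iff.2 h2
  have h4 := PreconnectedSpace.constant inferInstance h3 (x := ⟨1, by simp⟩) (y := ⟨0, by simp⟩)
  simpa using h4

theorem rou_one (q : ℂ[X]) (hi : Set.InjOn q.eval (Metric.ball 0 1)) : cnt q 1 ≤ 1 := by
  by_cases hq : q = 0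
  · simp [cnt, hq]
  have hn : (q.roots.filter fun z => ‖z‖ < 1).Nodup := by
    rw [Multiset.nodup_iff_count_le_one]
    intro z
    by_cases hz : ‖z‖ < 1
    · rw [Multiset.count_filter_of_pos (p := fun z : ℂ => ‖z‖ < 1) hz, count_roots]
      by_contra c
      have := ((one_lt_rootMultiplicity_iff_isRoot hq).1 (not_le.1 c)).2
      refine MP_1a2790_an.deriv_ne_zero_of_injOn Metric.isOpen_ball
        q.differentiable.differentiableOn hi (mem_ball_zero_iff.2 hz) ?_
      rw [Polynomial.deriv]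
      exact this
    · rw [Multiset.count_filter_of_neg (p := fun z : ℂ => ‖z‖ < 1) hz]
      exact zero_le_one
  rw [cnt, ← Multiset.toFinset_card_of_nodup hn, Finset.card_le_one]
  intro x hx y hy
  rw [Multiset.mem_toFinset, Multiset.mem_filter] at hx hy
  exact hi (mem_ball_zero_iff.2 hx.2) (mem_ball_zero_iff.2 hy.2)
    ((isRoot_of_mem_roots hx.1).trans (isRoot_of_mem_roots hy.1).symm)

theorem rou_ev (q : ℂ[X]) : ∀ᶠ r in 𝓝[<] (1 : ℝ), ∀ z ∈ q.roots, ‖z‖ < 1 → ‖z‖ < r := by
  have : ∀ᶠ r in 𝓝 (1 : ℝ), ∀ z ∈ q.roots.toFinset, ‖z‖ < 1 → ‖z‖ < r := by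
    rw [eventually_all_finset]
    intro z _
    by_cases hz : ‖z‖ < 1
    · exact (lt_mem_nhds hz).mono fun _ h _ => h
    · exact Eventually.of_forall fun _ h => (hz h).elim
  exact (this.filter_mono nhdsWithin_le_nhds).mono fun r h z hz =>
    h z (Multiset.mem_toFinset.2 hz)

theorem rou_mono (q : ℂ[X]) {r s : ℝ} (h : r ≤ s) : cnt q r ≤ cnt q s :=
  Multiset.card_le_card (Multiset.monotone_filter_right _ fun _ hz => hz.trans_le h)

theorem rou_scale (n : ℕ) (a : ℕ → ℂ) (s z : ℂ) :
    P n (fun k => a k * s ^ k) z = P n a (s * z) :=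
  sum_congr rfl fun k _ => by rw [mul_pow, mul_assoc]

/-- the deformed pencil -/
noncomputable def rou_B (n : ℕ) (a : ℕ → ℂ) (l c : ℂ) (s : ℝ) : ℂ[X] :=
  (C c + pol n fun k => a k * s ^ k) + C (s * l) *
    (pol n (fun k => conj (a (n + 1 - k) * s ^ (n + 1 - k))) + monomial (n + 1) (conj c))

theorem rou_B_le {n : ℕ} {a : ℕ → ℂ} {l : ℂ} (c : ℂ) (hU : U n a) (hl : ‖l‖ = 1) :
    ∀ᶠ s in 𝓝[<] (1 : ℝ), cnt (rou_B n a l c s) 1 ≤ 1 := by
  have hA : C c + pol n a ≠ 0 := fun e => by
    have h1 : ∀ z, c + P n a z = 0 := fun z => by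
      simpa [eval_pol] using congrArg (eval z) e
    have := hU.2 (x₁ := 0) (x₂ := 1 / 2) (by simp) (by simp; norm_num)
      (add_left_cancel ((h1 _).trans (h1 _).symm))
    norm_num at this
  filter_upwards [rou_ev (C c + pol n a), Ioo_mem_nhdsLT zero_lt_one] with s hs h01
  have hns : ∀ z : ℂ, ‖(s : ℂ) * z‖ = s * ‖z‖ := fun z => by
    rw [norm_mul, Complex.norm_real, Real.norm_of_nonneg h01.1.le]
  rw [rou_B, rouche_st _ _ 1 one_pos fun z hz => ?_]
  · refine rou_one _ fun x hx y hy e => ?_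
    have hb : ∀ z ∈ Metric.ball (0 : ℂ) 1, (s : ℂ) * z ∈ Metric.ball (0 : ℂ) 1 := fun z hz => by
      rw [mem_ball_zero_iff] at hz ⊢
      rw [hns]
      nlinarith [h01.1, h01.2, norm_nonneg z]
    simp only [eval_add, eval_C, eval_pol, rou_scale, add_right_inj] at e
    exact mul_left_cancel₀ (by exact_mod_cast h01.1.ne') (hU.2 (hb x hx) (hb y hy) e)
  · have e : (pol n (fun k => conj (a (n + 1 - k) * s ^ (n + 1 - k)))
        + monomial (n + 1) (conj c)).eval z
        = z ^ (n + 1) * conj ((C c + pol n fun k => a k * s ^ k).eval z) := by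
      simp only [eval_add, eval_C, eval_pol, eval_monomial, map_add, mul_add]
      rw [P_rev_circle n _ hz]
      ring
    have h0 : (C c + pol n fun k => a k * s ^ k).eval z ≠ 0 := fun h => by
      have h1 : (s : ℂ) * z ∈ (C c + pol n a).roots := by
        rw [mem_roots hA, IsRoot.def]
        simpa only [eval_add, eval_C, eval_pol, rou_scale] using h
      have := hs _ h1
      rw [hns, hz, mul_one] at this
      exact lt_irrefl _ (this h01.2)
    rw [eval_mul, e, eval_C, norm_mul, norm_mul, norm_mul, norm_pow, hz, hl, Complex.norm_conj,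
      Complex.norm_real, Real.norm_of_nonneg h01.1.le, one_pow, one_mul, mul_one]
    exact mul_lt_of_lt_one_left (norm_pos_iff.2 h0) h01.2

theorem pencil_st : PencilSt := by
  intro n a l c hU hl
  set q := T n l (fun k => a k + l * conj (a (n + 1 - k))) c with hq
  by_cases h0 : q = 0
  · simp [cnt, h0]
  obtain ⟨r, hr, h01⟩ := ((rou_ev q).and (Ioo_mem_nhdsLT zero_lt_one)).exists
  have e1 : cnt q 1 = cnt q r := by
    unfold cnt
    rw [Multiset.filter_congr fun z hz => ⟨hr z hz, fun h => h.trans h01.2⟩]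
  have hne : ∀ z : ℂ, ‖z‖ = r → q.eval z ≠ 0 := fun z hz h => by
    have := hr z ((mem_roots h0).2 h)
    rw [hz] at this
    exact lt_irrefl _ (this h01.2)
  have hc : Continuous fun p : ℝ × ℂ => (rou_B n a l c p.1 - q).eval p.2 := by
    simp only [rou_B, eval_sub, eval_add, eval_mul, eval_C, eval_pol, eval_monomial, P]
    fun_prop
  have h1 : ∀ z : ℂ, (rou_B n a l c 1 - q).eval z = 0 := fun z => by
    simp only [rou_B, hq, eval_sub, eval_add, eval_mul, eval_C, eval_pol, eval_monomial, eval_T, P,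
      Complex.ofReal_one, one_pow, mul_one, one_mul, add_mul, sum_add_distrib, mul_add, mul_sum,
      mul_assoc]
    ring
  have hev : ∀ᶠ s in 𝓝 (1 : ℝ), ∀ z ∈ Metric.sphere (0 : ℂ) r,
      ‖(rou_B n a l c s - q).eval z‖ < ‖q.eval z‖ :=
    (isCompact_sphere 0 r).eventually_forall_of_forall_eventually fun z hz =>
      hc.norm.continuousAt.eventually_lt (q.continuous.comp continuous_snd).norm.continuousAt (by
        simp only [h1, norm_zero]
        exact norm_pos_iff.2 (hne z (mem_sphere_zero_iff_norm.1 hz)))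
  obtain ⟨s, hs1, hs2⟩ := ((rou_B_le c hU hl).and (hev.filter_mono nhdsWithin_le_nhds)).exists
  have e2 := rouche_st q _ r h01.1 fun z hz => hs2 z (mem_sphere_zero_iff_norm.2 hz)
  rw [add_sub_cancel] at e2
  rw [e1, ← e2]
  exact (rou_mono _ h01.2.le).trans hs1

end Pool.Agent.MP_d3fa2a_an.F
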