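import Pool.Agent.MP_d3fa2a_an.F.Def

/-! Local branches of an injective polynomial and its boundary behaviour. -/

set_option autoImplicit false

open Finset Polynomial Filter Topology
open scoped ComplexConjugate

namespace Pool.Agent.MP_d3fa2a_an.F

theorem sec_branch (Q : ℂ[X]) (z d : ℂ) {m : ℕ} (hm : 1 ≤ m) (hv : d ^ m * Q.eval z ≠ 0)
    {p : ℝ × ℂ → Prop} (hp : ∀ᶠ y in 𝓝 ((0 : ℝ), d), p y) :
    ∀ᶠ t : ℝ in 𝓝[>] 0, ∃ x, p (t, x) ∧ x ^ m * Q.eval (z + t * x) = d ^ m * Q.eval z := by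
  rw [nhds_prod_eq, eventually_prod_iff] at hp
  obtain ⟨pa, ha, pb, hb, hab⟩ := hp
  have hQ := Q.differentiable
  have hc := Q.continuous
  have h := Pool.Agent.MP_1a2790_an.hurwitz (l := 𝓝[>] (0 : ℝ)) isOpen_univ
    (F := fun (t : ℝ) x => x ^ m * Q.eval (z + t * x)) (f := fun x => x ^ m * Q.eval z)
    (fun t => Differentiable.differentiableOn
      ((differentiable_id.pow m).mul (hQ.comp (by fun_prop)))) ?_ (Set.mem_univ d)
    (a := fun _ => d ^ m * Q.eval z) tendsto_const_nhds ?_ hb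
  · filter_upwards [h, mem_nhdsWithin_of_mem_nhds ha] with t ⟨x, hx, e⟩ ht
    exact ⟨x, hab ht hx.1, e⟩
  · rw [tendstoLocallyUniformlyOn_iff_forall_tendsto]
    intro x _
    rw [tendsto_uniformity_iff_dist_tendsto_zero]
    have k : Continuous fun y : ℝ × ℂ =>
        dist (y.2 ^ m * Q.eval z) (y.2 ^ m * Q.eval (z + y.1 * y.2)) :=
      Continuous.dist (by fun_prop) ((continuous_snd.pow m).mul (hc.comp (by fun_prop)))
    have k2 := k.tendsto (0, x)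
    simp only [Complex.ofReal_zero, zero_mul, add_zero, dist_self] at k2
    refine k2.mono_left ?_
    rw [nhds_prod_eq]
    exact prod_mono nhdsWithin_le_nhds nhdsWithin_le_nhds
  · intro h
    have h1 : HasDerivAt (fun x : ℂ => x ^ m * Q.eval z) (m * d ^ (m - 1) * Q.eval z) d :=
      (hasDerivAt_pow m d).mul_const _
    have h2 := h1.unique ((hasDerivAt_const d (d ^ m * Q.eval z)).congr_of_eventuallyEq h)
    have hd : d ≠ 0 := fun h0 => hv (by rw [h0, zero_pow (by omega), zero_mul])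
    exact mul_ne_zero (mul_ne_zero (Nat.cast_ne_zero.2 (by omega)) (pow_ne_zero _ hd))
      (right_ne_zero_of_mul hv) h2

theorem sec_disc {z d : ℂ} (h : ‖z‖ < 1 ∨ ‖z‖ = 1 ∧ (d * conj z).re < 0) :
    ∀ᶠ y : ℝ × ℂ in 𝓝 (0, d), 0 < y.1 → ‖z + y.1 * y.2‖ < 1 := by
  rcases h with h | ⟨h, h'⟩
  · have k : Continuous fun y : ℝ × ℂ => ‖z + y.1 * y.2‖ := by fun_prop
    filter_upwards [(k.tendsto (0, d)).eventually_lt_const (by simpa using h)] with y hy _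
    exact hy
  · have k : Continuous fun y : ℝ × ℂ => 2 * (y.2 * conj z).re + y.1 * Complex.normSq y.2 := by
      fun_prop
    filter_upwards [(k.tendsto (0, d)).eventually_lt_const (u := 0)
      (by simp only [zero_mul, add_zero]; linarith)] with y hy h0
    have h1 : Complex.normSq z = 1 := by rw [Complex.normSq_eq_norm_sq, h]; norm_num
    rw [← sq_lt_one_iff₀ (norm_nonneg _), ← Complex.normSq_eq_norm_sq]
    have e : Complex.normSq (z + y.1 * y.2) = Complex.normSq z +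
        y.1 * (2 * (y.2 * conj z).re + y.1 * Complex.normSq y.2) := by
      simp [Complex.normSq_apply]; ring
    rw [e, h1]
    nlinarith

theorem sec_near (f Q : ℂ[X]) (w z d : ℂ) {m k : ℕ} (hm : 1 ≤ m) (hk : 1 ≤ k)
    (e : f - C w = (X - C z) ^ m * Q) (h : ‖z‖ < 1 ∨ ‖z‖ = 1 ∧ (d * conj z).re < 0)
    (hv : d ^ m * Q.eval z ≠ 0) {ε : ℝ} (hε : 0 < ε) :
    ∀ᶠ s : ℝ in 𝓝[>] 0, ∃ x : ℂ, ‖(s : ℂ) ^ k * x‖ < ε ∧ ‖x - d‖ < ε ∧ ‖z + s ^ k * x‖ < 1 ∧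
      f.eval (z + s ^ k * x) = w + s ^ (k * m) * (d ^ m * Q.eval z) := by
  have k1 : Continuous fun y : ℝ × ℂ => ‖(y.1 : ℂ) * y.2‖ := by fun_prop
  have k2 : Continuous fun y : ℝ × ℂ => ‖y.2 - d‖ := by fun_prop
  have b := sec_branch Q z d hm hv ((sec_disc h).and
    (((k1.tendsto (0, d)).eventually_lt_const (u := ε) (by simpa using hε)).and
      ((k2.tendsto (0, d)).eventually_lt_const (u := ε) (by simpa using hε))))
  have tt : Tendsto (fun s : ℝ => s ^ k) (𝓝[>] 0) (𝓝[>] 0) := by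
    refine tendsto_nhdsWithin_iff.2 ⟨?_, ?_⟩
    · have := ((continuous_pow k).tendsto (0 : ℝ)).mono_left
        (nhdsWithin_le_nhds (s := Set.Ioi 0))
      rwa [zero_pow (by omega)] at this
    · filter_upwards [self_mem_nhdsWithin] with s hs using pow_pos (Set.mem_Ioi.1 hs) k
  filter_upwards [tt.eventually b, self_mem_nhdsWithin] with s ⟨x, ⟨h1, h2, h3⟩, h4⟩ hs
  have h5 := h1 (pow_pos hs k)
  push_cast at h2 h4 h5
  refine ⟨x, h2, h3, h5, ?_⟩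
  have e2 := congrArg (eval (z + s ^ k * x)) e
  simp only [eval_sub, eval_C, eval_mul, eval_pow, eval_X, add_sub_cancel_left] at e2
  rw [← h4, pow_mul]
  rw [mul_pow] at e2
  linear_combination e2

theorem sec_st : SecSt := by
  intro f Q₀ Q₁ w z₀ z₁ d₀ d₁ m₀ m₁ hf h₀ h₁ e₀ e₁ a₀ a₁ hv hvv
  have key : ∀ ε : ℝ, 0 < ε → ∃ (s : ℝ) (x₀ x₁ : ℂ), 0 < s ∧ ‖(s : ℂ) ^ m₁ * x₀‖ < ε ∧
      ‖(s : ℂ) ^ m₀ * x₁‖ < ε ∧ ‖x₀ - d₀‖ < ε ∧ ‖x₁ - d₁‖ < ε ∧
      z₀ + s ^ m₁ * x₀ = z₁ + s ^ m₀ * x₁ := by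
    intro ε hε
    obtain ⟨s, ⟨⟨x₀, p1, p2, p3, p4⟩, x₁, q1, q2, q3, q4⟩, hs⟩ :=
      (((sec_near f Q₀ w z₀ d₀ h₀ h₁ e₀ a₀ hv hε).and
        (sec_near f Q₁ w z₁ d₁ h₁ h₀ e₁ a₁ (hvv ▸ hv) hε)).and self_mem_nhdsWithin).exists
    refine ⟨s, x₀, x₁, hs, p1, q1, p2, q2, hf (by simpa using p3) (by simpa using q3) ?_⟩
    rw [hvv, mul_comm m₁] at p4
    exact p4.trans q4.symm
  have hz : z₀ = z₁ := by
    by_contra h
    obtain ⟨s, x₀, x₁, -, p1, q1, -, -, e⟩ := key (‖z₀ - z₁‖ / 2)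
      (half_pos (norm_pos_iff.2 (sub_ne_zero.2 h)))
    have e2 : z₀ - z₁ = s ^ m₀ * x₁ - s ^ m₁ * x₀ := by linear_combination e
    have := norm_sub_le ((s : ℂ) ^ m₀ * x₁) (s ^ m₁ * x₀)
    rw [← e2] at this
    linarith
  refine ⟨hz, fun hm => ?_⟩
  by_contra h
  obtain ⟨s, x₀, x₁, hs, -, -, p2, q2, e⟩ := key (‖d₀ - d₁‖ / 2)
    (half_pos (norm_pos_iff.2 (sub_ne_zero.2 h)))
  rw [hz, hm, add_right_inj] at e
  have hx := mul_left_cancel₀ (pow_ne_zero _ (Complex.ofReal_ne_zero.2 hs.ne')) e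
  have := norm_sub_le (x₁ - d₁) (x₀ - d₀)
  rw [show x₁ - d₁ - (x₀ - d₀) = d₀ - d₁ by rw [hx]; ring] at this
  linarith

theorem sec_fac {f : ℂ[X]} (hf : Set.InjOn f.eval (Metric.ball 0 1)) (z : ℂ) :
    1 ≤ (f - C (f.eval z)).rootMultiplicity z ∧ ∃ Q : ℂ[X], Q.eval z ≠ 0 ∧
      f - C (f.eval z) = (X - C z) ^ (f - C (f.eval z)).rootMultiplicity z * Q := by
  have h0 : f - C (f.eval z) ≠ 0 := by
    intro h
    have h1 : ∀ x, f.eval x = f.eval z := fun x => by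
      have := congrArg (eval x) h
      simpa [sub_eq_zero] using this
    have := hf (x₁ := 0) (by simp) (x₂ := 1 / 2) (by simp; norm_num) ((h1 0).trans (h1 _).symm)
    norm_num at this
  obtain ⟨Q, e, hQ⟩ := exists_eq_pow_rootMultiplicity_mul_and_not_dvd _ h0 z
  exact ⟨(rootMultiplicity_pos h0).2 (by simp), Q, fun h => hQ (dvd_iff_isRoot.2 h), e⟩

theorem sec_unit {z : ℂ} (hz : ‖z‖ = 1) (c : ℂ) : z * c * conj z = c := by
  have : z * conj z = 1 := by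
    rw [Complex.mul_conj, Complex.normSq_eq_norm_sq, hz]; norm_num
  linear_combination c * this

theorem sec_ne {z : ℂ} (hz : ‖z‖ = 1) : z ≠ 0 := norm_pos_iff.1 (hz ▸ one_pos)

theorem sec_two {f : ℂ[X]} (hf : Set.InjOn f.eval (Metric.ball 0 1)) (z : ℂ) (hz : ‖z‖ = 1) :
    (f - C (f.eval z)).rootMultiplicity z ≤ 2 := by
  obtain ⟨h1, Q, hQ, e⟩ := sec_fac hf z
  by_contra h
  generalize (f - C (f.eval z)).rootMultiplicity z = m at h1 e h
  have hm : (3 : ℝ) ≤ m := by exact_mod_cast (by omega : 3 ≤ m)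
  have hπ := Real.pi_pos
  have t0 : 0 < Real.pi / m := by positivity
  have t1 : Real.pi / m < Real.pi / 2 := div_lt_div_of_pos_left hπ two_pos (by linarith)
  obtain ⟨ζ, hζ⟩ : ∃ ζ : ℂ, ζ = Complex.exp ((Real.pi / m : ℝ) * Complex.I) := ⟨_, rfl⟩
  have hre : 0 < ζ.re := by
    rw [hζ, Complex.exp_ofReal_mul_I_re]
    exact Real.cos_pos_of_mem_Ioo ⟨by linarith, t1⟩
  have him : 0 < ζ.im := by
    rw [hζ, Complex.exp_ofReal_mul_I_im]
    exact Real.sin_pos_of_pos_of_lt_pi t0 (by linarith)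
  have hp : ζ ^ m = -1 := by
    have : (m : ℂ) ≠ 0 := Nat.cast_ne_zero.2 (by omega)
    rw [hζ, ← Complex.exp_nat_mul, ← Complex.exp_pi_mul_I]
    congr 1
    push_cast
    field_simp
  have hp' : conj ζ ^ m = -1 := by rw [← map_pow, hp]; simp
  have hz0 := sec_ne hz
  have := (sec_st f Q Q _ z z (z * -ζ) (z * -conj ζ) m m hf h1 h1 e e
    (Or.inr ⟨hz, by rw [sec_unit hz]; simpa using hre⟩)
    (Or.inr ⟨hz, by rw [sec_unit hz]; simpa using hre⟩)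
    (mul_ne_zero (pow_ne_zero _ (mul_ne_zero hz0 (neg_ne_zero.2 fun h0 => by simp [h0] at hre))) hQ)
    (by rw [mul_pow, mul_pow, neg_pow ζ, neg_pow (conj ζ), hp, hp'])).2 rfl
  have h2 := congrArg Complex.im (neg_injective (mul_left_cancel₀ hz0 this))
  rw [Complex.conj_im] at h2
  linarith

theorem sec_dir {u : ℂ} (hu : u ≠ 0) {m : ℕ} (h1 : 1 ≤ m) (h2 : m ≤ 2) :
    ∃ c : ℂ, 0 < c.re ∧ (c ^ m * u).im ≠ 0 := by
  by_cases h : u.im = 0
  · have hr : u.re ≠ 0 := fun h0 => hu (Complex.ext h0 h)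
    refine ⟨2 + Complex.I, by simp, ?_⟩
    interval_cases m
    · simpa [h] using hr
    · simp only [pow_two, Complex.mul_im, Complex.mul_re, h]
      simp [hr]
  · exact ⟨1, by simp, by simpa using h⟩

theorem sec_one {f : ℂ[X]} (hf : Set.InjOn f.eval (Metric.ball 0 1)) {x z : ℂ} (hx : ‖x‖ = 1)
    (hz : ‖z‖ = 1) (hxz : x ≠ z) (e : f.eval x = f.eval z) :
    ∃ Q : ℂ[X], Q.eval z ≠ 0 ∧ f - C (f.eval z) = (X - C z) ^ 1 * Q ∧
      f.derivative.eval z = Q.eval z := by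
  obtain ⟨h1, Q, hQ, e1⟩ := sec_fac hf z
  obtain ⟨h2, R, hR, e2⟩ := sec_fac hf x
  have h3 := sec_two hf z hz
  have h4 := sec_two hf x hx
  generalize (f - C (f.eval z)).rootMultiplicity z = m at h1 e1 h3
  generalize (f - C (f.eval x)).rootMultiplicity x = k at h2 e2 h4
  have hx0 := sec_ne hx
  have hz0 := sec_ne hz
  rw [e] at e2
  interval_cases m
  · refine ⟨Q, hQ, e1, ?_⟩
    have := congrArg (fun g => (derivative g).eval z) e1
    simpa [derivative_mul] using this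
  exfalso
  obtain ⟨c, hc, hi⟩ := sec_dir (u := (-x) ^ k * R.eval x / Q.eval z * conj z ^ 2)
    (mul_ne_zero (div_ne_zero (mul_ne_zero (pow_ne_zero _ (neg_ne_zero.2 hx0)) hR) hQ)
      (pow_ne_zero _ ((_root_.map_ne_zero _).2 hz0))) h2 h4
  obtain ⟨d, hd⟩ := IsAlgClosed.exists_pow_nat_eq ((x * -c) ^ k * R.eval x / Q.eval z) two_pos
  have hs : (d * conj z) ^ 2 = c ^ k * ((-x) ^ k * R.eval x / Q.eval z * conj z ^ 2) := by
    rw [mul_pow, hd, show x * -c = c * -x by ring, mul_pow]; ring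
  have hn : (d * conj z).re ≠ 0 := fun h0 => hi (by rw [← hs, pow_two, Complex.mul_im, h0]; simp)
  have fin : ∀ d' : ℂ, d' ^ 2 = d ^ 2 → (d' * conj z).re < 0 → False := fun d' h' hneg =>
    hxz (sec_st f R Q _ x z (x * -c) d' k 2 hf h2 one_le_two e2 e1
      (Or.inr ⟨hx, by rw [sec_unit hx]; simpa using hc⟩) (Or.inr ⟨hz, hneg⟩)
      (mul_ne_zero (pow_ne_zero _ (mul_ne_zero hx0 (neg_ne_zero.2 fun h0 => by simp [h0] at hc)))
        hR) (by rw [h', hd, div_mul_cancel₀ _ hQ])).1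
  rcases lt_or_gt_of_ne hn with h | h
  · exact fin d rfl h
  · exact fin (-d) (by ring) (by rw [neg_mul, Complex.neg_re]; linarith)

theorem bd_st : BdSt := by
  intro f hf
  refine ⟨fun x z hx hz e => ?_, sec_two hf, fun x z hx hz hxz e => ?_⟩
  · obtain ⟨h1, Q, hQ, e1⟩ := sec_fac hf z
    obtain ⟨h2, R, hR, e2⟩ := sec_fac hf x
    generalize (f - C (f.eval z)).rootMultiplicity z = m at h1 e1
    generalize (f - C (f.eval x)).rootMultiplicity x = k at h2 e2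
    rw [e] at e2
    obtain ⟨d, hd⟩ := IsAlgClosed.exists_pow_nat_eq ((z * -1) ^ m * Q.eval z / R.eval x) h2
    have := (sec_st f Q R _ z x (z * -1) d m k hf h1 h2 e1 e2
      (Or.inr ⟨hz, by rw [sec_unit hz]; simp⟩) (Or.inl hx)
      (mul_ne_zero (pow_ne_zero _ (mul_ne_zero (sec_ne hz) (by simp))) hQ)
      (by rw [hd, div_mul_cancel₀ _ hR])).1
    rw [this] at hz
    exact hx.ne hz
  obtain ⟨Q, hQ, e1, d1⟩ := sec_one hf hx hz hxz e
  obtain ⟨R, hR, e2, d2⟩ := sec_one hf hz hx hxz.symm e.symm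
  rw [e] at e2
  rw [d1, d2]
  refine ⟨hQ, ?_⟩
  have hx0 := sec_ne hx
  have hz0 := sec_ne hz
  obtain ⟨ρ, hρ⟩ : ∃ ρ : ℂ, x * R.eval x = ρ * (z * Q.eval z) :=
    ⟨_, (div_mul_cancel₀ _ (mul_ne_zero hz0 hQ)).symm⟩
  have hρ0 : ρ ≠ 0 := fun h0 => mul_ne_zero hx0 hR (by rw [hρ, h0, zero_mul])
  have hn := norm_pos_iff.2 hρ0
  by_cases h : 0 < ‖ρ‖ + ρ.re
  · exfalso
    have hs : ρ * conj ρ = (‖ρ‖ : ℂ) ^ 2 := by
      rw [Complex.mul_conj, Complex.normSq_eq_norm_sq]; push_cast; rfl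
    refine hxz (sec_st f R Q _ x z (x * -(‖ρ‖ + conj ρ)) (z * -(‖ρ‖ * (‖ρ‖ + ρ))) 1 1 hf le_rfl
      le_rfl e2 e1 (Or.inr ⟨hx, ?_⟩) (Or.inr ⟨hz, ?_⟩) ?_ ?_).1
    · rw [sec_unit hx, Complex.neg_re, neg_lt_zero]; simpa using h
    · rw [sec_unit hz]; simpa using mul_pos hn h
    · refine mul_ne_zero (pow_ne_zero _ (mul_ne_zero hx0 (neg_ne_zero.2 fun h0 => ?_))) hR
      have := congrArg Complex.re h0
      simp at this
      linarith
    · linear_combination -((‖ρ‖ : ℂ) + conj ρ) * hρ - z * Q.eval z * hs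
  · have h1 := Complex.sq_norm ρ
    rw [Complex.normSq_apply] at h1
    have h2 : ρ.im = 0 := by nlinarith
    refine ⟨ρ.re, by linarith, ?_⟩
    rw [hρ]
    congr 1
    exact Complex.ext (by simp) (by simp [h2])

end Pool.Agent.MP_d3fa2a_an.F
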