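import Pool.Agent.MP_d3fa2a_an.F.Ext
import Pool.Agent.MP_d3fa2a_an.F.Rou
import Pool.Agent.MP_d3fa2a_an.F.Cohn
import Pool.Agent.MP_d3fa2a_an.F.Rev
import Pool.Agent.MP_d3fa2a_an.F.Rot
import Pool.Agent.MP_d3fa2a_an.F.Max
import Pool.Agent.MP_d3fa2a_an.F.Fin
import Pool.Agent.MP_d3fa2a_an.F.Sec
import Pool.Agent.MP_d3fa2a_an.F.Cand
import Pool.Agent.MP_d3fa2a_an.F.Gain

/-! Large exponents: the extremal polynomials lie in a finite set. -/

set_option autoImplicit false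

open Finset
open scoped ComplexConjugate

namespace Pool.Agent.MP_d3fa2a_an.F

theorem lift_U {n : ℕ} {a : ℕ → ℂ} {l : ℂ} (hn : 2 ≤ n) (hU : U n a) (hl : ‖l‖ = 1) :
    U n (lift n l a) := by
  have n1 : 1 ≤ n := by omega
  have n0 : (n : ℂ) ≠ 0 := Nat.cast_ne_zero.2 (by omega)
  have n2 : (2 : ℝ) ≤ n := by exact_mod_cast hn
  have g0 : 1 + l * conj (a n) ≠ 0 := fun h => by
    have h1 := congrArg norm (eq_neg_of_add_eq_zero_left h)
    rw [norm_neg, norm_mul, hl, Complex.norm_conj, norm_one, one_mul] at h1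
    have := (rev_st n a n1 hU).1
    rw [← h1] at this
    linarith
  have ll : l * conj l = 1 := by rw [Complex.mul_conj', hl]; simp
  have hi := cohn_st n l (fun k => a k + l * conj (a (n + 1 - k))) n1 hl (by simpa [hU.1] using g0)
    (fun k hk => by
      have := mem_Icc.1 hk
      simp only [map_add, map_mul, Complex.conj_conj]
      rw [show n + 1 - (n + 1 - k) = k by omega]
      linear_combination (-a k) * ll)
    fun c _ _ => .inl (pencil_st n a l c hU hl)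
  refine ⟨by simp [lift, hU.1, n0, g0], fun x hx y hy h => hi hx hy ?_⟩
  have e : ∀ z, P n (fun k => ((n : ℂ) + 1 - k) / n * (a k + l * conj (a (n + 1 - k)))) z =
      (1 + l * conj (a n)) * P n (lift n l a) z := fun z => by
    simp only [P, mul_sum, lift]
    refine sum_congr rfl fun k _ => ?_
    field_simp
  rw [e, e, h]

theorem face_of {n : ℕ} {a : ℕ → ℂ} (hn : 2 ≤ n) (hU : U n a) (h : a n = 1 / n) : Face n a := by
  have n0 : (n : ℝ) ≠ 0 := Nat.cast_ne_zero.2 (by omega)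
  intro k hk
  have := (rev_st n a (by omega) hU).2 (1 / n) (by simpa using h) k hk
  rw [mul_one_div_cancel n0, sub_self, mul_zero, zero_mul] at this
  exact sub_eq_zero.1 (norm_le_zero_iff.1 this)

theorem main {n : ℕ} {q : ℝ} {a : ℕ → ℂ} (hn : 2 ≤ n) (hq : 10 ^ 7 * (n : ℝ) ^ 9 * Real.log n ≤ q)
    (hU : U n a) (hm : ∀ b, U n b → J n b q ≤ J n a q) : ∃ α : ℝ, rot α a n = 1 / n ∧
    ∃ z w : Fin (n - 2) → ℂ, (∀ i, ‖z i‖ = 1 ∧ ‖w i‖ = 1 ∧
      P n (rot α a) (z i) = P n (rot α a) (w i)) ∧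
      (Matrix.of fun i j : Fin (n - 2) => z i ^ ((j : ℕ) + 2) - w i ^ ((j : ℕ) + 2)).det ≠ 0 := by
  have n2 : (2 : ℝ) ≤ n := by exact_mod_cast hn
  obtain ⟨r1, r2, r3⟩ := rot_st n a
  obtain ⟨α, hα⟩ := r3 hn
  have hU' := r2 α hU
  have hm' : ∀ b, U n b → J n b q ≤ J n (rot α a) q := fun b hb => (r1 α q).symm ▸ hm b hb
  obtain ⟨v1, v2⟩ := rev_st n _ (by omega) hU'
  rw [hα, Complex.norm_real, norm_norm] at v1
  have h1 : rot α a n = 1 / n := by
    rcases v1.eq_or_lt with h | h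
    · rw [hα, eq_one_div_of_mul_eq_one_right h]
      simp
    · obtain ⟨l, hl, h2⟩ := gain_st n _ _ q hn hU'.1 hα (norm_nonneg _) h (v2 _ hα) hq
      exact absurd (hm' _ (lift_U hn hU' hl)) (not_le.2 h2)
  have q2 : 2 ≤ q := by
    have := Real.log_two_gt_d9.trans_le (Real.log_le_log two_pos n2)
    have h3 : (1 : ℝ) ≤ n ^ 9 := one_le_pow₀ (by linarith)
    nlinarith
  exact ⟨α, h1, ex_dbl (pert_st pencil_st bd_st cohn_st) cvx_st bd_st row_st hn q2 hU'
    (face_of hn hU' h1) hm'⟩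

theorem P_eq {n : ℕ} (hn : 1 ≤ n) {a b : ℕ → ℂ} (h1 : b 1 = 1) (h : ∀ k ∈ Icc 2 n, b k = a k)
    (z : ℂ) : z + ∑ k ∈ Icc 2 n, a k * z ^ k = P n b z := by
  rw [P, ← add_sum_Ioc_eq_sum_Icc hn, h1, ← Icc_add_one_left_eq_Ioc]
  simp only [pow_one, one_mul, add_right_inj]
  exact sum_congr rfl fun k hk => by rw [h k hk]

end Pool.Agent.MP_d3fa2a_an.F
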