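import Pool.Agent.MP_d3fa2a_an.F.PertA

/-! Perturbation of a univalent polynomial along the face. -/

set_option autoImplicit false

open Finset Polynomial Filter Topology
open scoped ComplexConjugate

namespace Pool.Agent.MP_d3fa2a_an.F

/-- coefficients of the self inversive polynomial attached to `a` -/
noncomputable def pb (n : ℕ) (a : ℕ → ℂ) (k : ℕ) : ℂ := n * a k / ((n : ℂ) + 1 - k)

theorem pe_ne {n k : ℕ} (hk : k ∈ Icc 1 n) : ((n : ℂ) + 1 - k) ≠ 0 ∧ (k : ℂ) ≠ 0 ∧ (n : ℂ) ≠ 0 ∧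
    ((n + 1 - k : ℕ) : ℂ) = (n : ℂ) + 1 - k := by
  rw [mem_Icc] at hk
  have e : ((n + 1 - k : ℕ) : ℂ) = (n : ℂ) + 1 - k := by push_cast [hk.2.trans n.le_succ]; ring
  refine ⟨e ▸ ?_, ?_, ?_, e⟩ <;> exact Nat.cast_ne_zero.2 (by omega)

theorem pe_ab {n k : ℕ} (a : ℕ → ℂ) (hk : k ∈ Icc 1 n) :
    ((n : ℂ) + 1 - k) / n * pb n a k = a k := by
  obtain ⟨h1, -, h3, -⟩ := pe_ne hk
  rw [pb]
  field_simp

theorem pe_kb {n k : ℕ} {a : ℕ → ℂ} (hF : Face n a) (hk : k ∈ Icc 1 n) :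
    k * pb n a k = n * conj (a (n + 1 - k)) := by
  obtain ⟨h1, -, -, -⟩ := pe_ne hk
  rw [pb, ← mul_div_assoc, div_eq_iff h1]
  linear_combination n * hF k hk

theorem pe_sym {n k : ℕ} {a : ℕ → ℂ} (hF : Face n a) (hk : k ∈ Icc 1 n) :
    pb n a k = conj (pb n a (n + 1 - k)) := by
  obtain ⟨-, h2, -, h4⟩ := pe_ne hk
  refine mul_left_cancel₀ h2 ?_
  rw [pe_kb hF hk, pb, h4, sub_sub_cancel, map_div₀, map_mul, map_natCast, map_natCast]
  field_simp

theorem pe_real {n : ℕ} {b : ℕ → ℂ} (hb : ∀ k ∈ Icc 1 n, b k = conj (b (n + 1 - k))) (c : ℂ)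
    {z : ℂ} (hz : z ≠ 0) :
    z ^ (n + 1) * conj ((T n 1 b c).eval (conj z)⁻¹) = (T n 1 b c).eval z := by
  simp only [eval_T, map_add, map_mul, map_pow, map_inv₀, Complex.conj_conj, mul_add, P_rev n b hz,
    ← P_congr hb, one_mul, inv_pow]
  field_simp
  ring

theorem pe_real' {n : ℕ} {b : ℕ → ℂ} (hb : ∀ k ∈ Icc 1 n, b k = conj (b (n + 1 - k))) (c : ℂ)
    (z : ℂ) (hz : ‖z‖ = 1) : z ^ (n + 1) * conj ((T n 1 b c).eval z) = (T n 1 b c).eval z := by
  have := pe_real hb c (norm_pos_iff.1 (hz ▸ one_pos) : z ≠ 0)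
  rwa [← Complex.inv_eq_conj hz, inv_inv] at this

theorem pe_polar (n : ℕ) (a : ℕ → ℂ) (c : ℂ) (hn : 1 ≤ n) :
    C ((n : ℂ) + 1) * T n 1 (pb n a) c - X * (T n 1 (pb n a) c).derivative =
      C (n : ℂ) * (pol n a - C (-((n + 1) * c / n))) := by
  have n0 : (n : ℂ) ≠ 0 := Nat.cast_ne_zero.2 (by omega)
  refine Polynomial.funext fun z => ?_
  have : ((n : ℂ) + 1) * P n (pb n a) z - P n (fun k => k * pb n a k) z = n * P n a z := by
    simp only [P, mul_sum, ← sum_sub_distrib]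
    refine sum_congr rfl fun k hk => ?_
    rw [← pe_ab a hk]
    field_simp
  simp only [eval_sub, eval_mul, eval_C, eval_X, mul_der_T, eval_T, eval_pol]
  field_simp
  linear_combination this

theorem pe_der {n : ℕ} {a : ℕ → ℂ} (hF : Face n a) (c : ℂ) (hn : 1 ≤ n) {z : ℂ} (hz : z ≠ 0) :
    z * (T n 1 (pb n a) c).derivative.eval z = z ^ (n + 1) *
      conj ((C (n : ℂ) * (pol n a - C (-((n + 1) * c / n)))).eval (conj z)⁻¹) := by
  have n0 : (n : ℂ) ≠ 0 := Nat.cast_ne_zero.2 (by omega)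
  have h1 : P n (fun k => k * pb n a k) z = n * (z ^ (n + 1) * conj (P n a (conj z)⁻¹)) := by
    rw [P_rev n a hz, P, P, mul_sum]
    exact sum_congr rfl fun k hk => by rw [pe_kb hF hk, mul_assoc]
  rw [eval_mul, eval_C, eval_sub, eval_C, eval_pol, mul_der_T, h1]
  simp only [map_mul, map_sub, map_neg, map_div₀, map_add, map_one, map_natCast]
  field_simp
  ring

theorem pe_cnt (h1 : PencilSt) {n : ℕ} {a : ℕ → ℂ} (hU : U n a) (hF : Face n a) (c : ℂ)
    (hn : 1 ≤ n) : cnt (T n 1 (pb n a) c) 1 ≤ 1 := by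
  have n0 : (n : ℂ) ≠ 0 := Nat.cast_ne_zero.2 (by omega)
  have n1 : ((n : ℂ) + 1) / n ≠ 0 := div_ne_zero (Nat.cast_add_one_ne_zero n) n0
  have := h1 n a 1 ((n + 1) / n * c) hU norm_one
  have e : T n 1 (fun k => a k + 1 * conj (a (n + 1 - k))) ((n + 1) / n * c) =
      C (((n : ℂ) + 1) / n) * T n 1 (pb n a) c := by
    refine Polynomial.funext fun z => ?_
    have : P n (fun k => a k + 1 * conj (a (n + 1 - k))) z = (n + 1) / n * P n (pb n a) z := by
      simp only [P, mul_sum]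
      refine sum_congr rfl fun k hk => ?_
      have h2 := pe_kb hF hk
      rw [← pe_ab a hk]
      field_simp
      linear_combination (-z ^ k) * h2
    simp only [eval_T, eval_mul, eval_C, this, map_mul, map_div₀, map_add, map_one, map_natCast]
    ring
  rwa [e, cnt, roots_C_mul _ n1] at this

theorem pe_coeff {n : ℕ} (b : ℕ → ℂ) (c : ℂ) {k : ℕ} (hk : k ∈ Icc 1 n) :
    (T n 1 b c).coeff k = b k := by
  have := mem_Icc.1 hk
  simp only [T, pol, coeff_add, finsetSum_coeff, coeff_monomial, coeff_C, sum_ite_eq', hk, if_true]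
  rw [if_neg (by omega), if_neg (by omega), zero_add, add_zero]

theorem pe_mult {N : ℕ} {q s : ℂ[X]} {κ z : ℂ} (hκ : κ ≠ 0) (hq : q ≠ 0)
    (h : C (N : ℂ) * q - X * q.derivative = C κ * s) {m : ℕ} (hm : q.rootMultiplicity z = m + 1) :
    (X - C z) ^ m ∣ s ∧ ∃ Q, q = (X - C z) ^ (m + 1) * Q ∧ Q.eval z ≠ 0 ∧
      (m = 1 → κ * s.derivative.eval z = -2 * z * Q.eval z) := by
  obtain ⟨Q, h1, h2⟩ := exists_eq_pow_rootMultiplicity_mul_and_not_dvd q hq z
  rw [hm] at h1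
  have e : C κ * s = (X - C z) ^ m * (C (N : ℂ) * (X - C z) * Q -
      X * (C ((m : ℂ) + 1) * Q + (X - C z) * Q.derivative)) := by
    rw [← h, h1, derivative_mul, derivative_X_sub_C_pow]
    simp only [add_tsub_cancel_right, Nat.cast_add, Nat.cast_one, map_add, map_natCast, map_one]
    ring
  refine ⟨(isUnit_C.2 hκ.isUnit).dvd_mul_left.1 ⟨_, e⟩, Q, h1, fun h => h2 (dvd_iff_isRoot.2 h),
    fun h => ?_⟩
  subst h
  have := congrArg (fun p => p.derivative.eval z) e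
  simp at this
  linear_combination this

theorem pe_cls (h1 : PencilSt) (h2 : BdSt) {n : ℕ} {a : ℕ → ℂ} (hn : 2 ≤ n) (hU : U n a)
    (hF : Face n a) (c : ℂ) : ∃ S : Finset ℂ, (∀ z ∈ S, ‖z‖ = 1 ∧ ∃ Q,
      T n 1 (pb n a) c = (X - C z) ^ 1 * Q ∧ Q.eval z ≠ 0) ∧ (n + 1 ≤ S.card + 3 ∨
      n + 1 ≤ S.card + 4 ∧ ∃ (x z : ℂ) (Q R : ℂ[X]) (r : ℝ), x ∉ S ∧ z ∉ S ∧ x ≠ z ∧ ‖x‖ = 1 ∧
        ‖z‖ = 1 ∧ T n 1 (pb n a) c = (X - C x) ^ 2 * Q ∧ T n 1 (pb n a) c = (X - C z) ^ 2 * R ∧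
        R.eval z ≠ 0 ∧ x ^ (n + 1) = z ^ (n + 1) ∧ r < 0 ∧
        x ^ 2 * Q.eval x = r * (z ^ 2 * R.eval z) ∧ P n a x = P n a z) := by
  have n1 : 1 ≤ n := by omega
  have n0 : (n : ℂ) ≠ 0 := Nat.cast_ne_zero.2 (by omega)
  have hpo := pe_polar n a c n1
  have hde := fun z => pe_der hF c n1 (z := z)
  have hre := fun z => pe_real (b := pb n a) (fun k hk => pe_sym hF hk) c (z := z)
  have hin := pe_cnt h1 hU hF c n1
  have hco : (T n 1 (pb n a) c).coeff n ≠ 0 := by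
    have := pe_kb hF (mem_Icc.2 ⟨n1, le_rfl⟩)
    rw [add_tsub_cancel_left, hU.1, map_one] at this
    rw [pe_coeff _ _ (mem_Icc.2 ⟨n1, le_rfl⟩), mul_left_cancel₀ n0 this]
    exact one_ne_zero
  have hdeg : c ≠ 0 → (T n 1 (pb n a) c).natDegree = n + 1 := natDegree_T _ one_ne_zero
  have h00 : (T n 1 (pb n a) c).eval 0 = c := by simp [eval_T, P_zero]
  obtain ⟨b1, b2, b3⟩ := h2 (pol n a) (by rw [funext (eval_pol n a)]; exact hU.2)
  set q := T n 1 (pb n a) c with hq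
  set w := -((n + 1) * c / n) with hw
  have q0 : q ≠ 0 := fun h => hco (by simp [h])
  have hdeg' : n ≤ q.natDegree := le_natDegree_of_ne_zero hco
  have hA : ∀ z, ((n : ℂ) + 1) * q.eval z - z * q.derivative.eval z =
      n * ((pol n a).eval z - w) := fun z => by
    simpa only [eval_sub, eval_mul, eval_C, eval_X] using congrArg (eval z) hpo
  have hs0 : ∀ u, pol n a - C u ≠ 0 := fun u h => by
    have h3 := congrArg (eval 0) h
    have h4 := congrArg (eval (1 / 2)) h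
    simp only [eval_sub, eval_C, eval_pol, eval_zero, sub_eq_zero] at h3 h4
    have := hU.2 (by simp) (by norm_num : (1 / 2 : ℂ) ∈ Metric.ball 0 1) (h3.trans h4.symm)
    norm_num at this
  set Z := (q.roots.filter fun z => ‖z‖ = 1).toFinset with hZ
  have mZ : ∀ z, z ∈ Z ↔ q.eval z = 0 ∧ ‖z‖ = 1 := fun z => by simp [hZ, q0]
  set S := Z.filter fun z => q.rootMultiplicity z = 1 with hS
  set D := Z.filter fun z => ¬q.rootMultiplicity z = 1 with hD
  have hon : (q.roots.filter fun z => ‖z‖ = 1).card = S.card + ∑ z ∈ D, q.rootMultiplicity z := by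
    rw [← Multiset.toFinset_sum_count_eq, ← hZ, sum_congr rfl (g := fun z => q.rootMultiplicity z)
      fun z hz => by rw [Multiset.count_filter_of_pos (p := fun z : ℂ => ‖z‖ = 1) ((mZ z).1 hz).2, count_roots],
      ← sum_filter_add_sum_filter_not Z fun z => q.rootMultiplicity z = 1, ← hS, ← hD,
      sum_congr rfl (g := fun _ => 1) fun z hz => (mem_filter.1 hz).2, sum_const, smul_eq_mul,
      mul_one]
  have htot : q.natDegree = cnt q 1 + (q.roots.filter fun z => ‖z‖ = 1).card +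
      (q.roots.filter fun z => 1 < ‖z‖).card := by
    rw [← IsAlgClosed.card_roots_eq_natDegree, cnt]
    generalize q.roots = R
    induction R using Multiset.induction_on with
    | empty => simp
    | cons η R ih =>
      rcases lt_trichotomy ‖η‖ 1 with h | h | h <;>
        simp [h, h.le, not_lt_of_ge, ne_of_lt, ne_of_gt, ih] <;> omega
  have hout : ∀ z, 1 < ‖z‖ → q.eval z = 0 →
      (conj z)⁻¹ ≠ 0 ∧ ‖(conj z)⁻¹‖ < 1 ∧ q.eval (conj z)⁻¹ = 0 := fun z hz h => by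
    have z0 : z ≠ 0 := norm_pos_iff.1 (zero_lt_one.trans hz)
    have := hre z z0
    rw [h, mul_eq_zero, _root_.map_eq_zero] at this
    refine ⟨by simpa using z0, ?_, this.resolve_left (pow_ne_zero _ z0)⟩
    rw [norm_inv, Complex.norm_conj]
    exact inv_lt_one_of_one_lt₀ hz
  have hin' : ¬2 ≤ (q.roots.filter fun z => ‖z‖ < 1).card := not_le.2 (Nat.lt_succ_of_le hin)
  rw [pa_two q0] at hin'
  have hDm : ∀ z ∈ D, ‖z‖ = 1 ∧ (pol n a).eval z = w ∧ q.rootMultiplicity z ≤ 3 ∧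
      ((pol n a).derivative.eval z ≠ 0 → q.rootMultiplicity z = 2) := fun z hz => by
    obtain ⟨h3, h4⟩ := mem_filter.1 hz
    obtain ⟨h5, h6⟩ := (mZ z).1 h3
    have h7 := (rootMultiplicity_pos q0).2 h5
    obtain ⟨m, hm⟩ : ∃ m, q.rootMultiplicity z = m + 1 + 1 := ⟨q.rootMultiplicity z - 2, by omega⟩
    have h8 := (pe_mult (N := n + 1) n0 q0 (by rw [Nat.cast_succ]; exact hpo) hm).1
    have h9 : (pol n a).eval z = w := by
      have := dvd_iff_isRoot.1 ((dvd_pow_self _ m.succ_ne_zero).trans h8)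
      simpa [sub_eq_zero] using this
    have h10 := (le_rootMultiplicity_iff (hs0 w)).2 h8
    have h11 := b2 z h6
    rw [h9] at h11
    refine ⟨h6, h9, by omega, fun h => ?_⟩
    by_contra h12
    have := ((one_lt_rootMultiplicity_iff_isRoot (hs0 w)).1 (show 1 < _ by omega : 1 <
      (pol n a - C w).rootMultiplicity z)).2
    exact h (by simpa using this)
  refine ⟨S, fun z hz => ?_, ?_⟩
  · obtain ⟨h3, h4⟩ := mem_filter.1 hz
    obtain ⟨-, Q, h5, h6, -⟩ := pe_mult (N := n + 1) (m := 0) n0 q0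
      (by rw [Nat.cast_succ]; exact hpo) h4
    exact ⟨((mZ z).1 h3).2, Q, h5, h6⟩
  by_cases hx : ∃ x, ‖x‖ < 1 ∧ q.eval x = 0
  · obtain ⟨x, x1, x2⟩ := hx
    have hy : ∃ y, ‖y‖ < 1 ∧ (pol n a).eval y = w := by
      by_contra h
      push Not at h
      have h3 : ∀ y : ℂ, ‖y‖ < 1 → (C (n : ℂ) * (pol n a - C w)).eval y ≠ 0 := fun y hy => by
        simpa [n0, sub_eq_zero] using h y hy
      have h4 := hA x
      rcases eq_or_ne x 0 with rfl | x0
      · refine h3 0 x1 ?_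
        simpa [x2] using h4
      · have h5 := pa_revlt (N := n + 1) h3 (Nat.lt_succ_of_le ((natDegree_C_mul_le _ _).trans
          (natDegree_sub_C.trans_le (natDegree_pol n a)))) x0 x1
        rw [← hde x x0, eval_mul, eval_C, eval_sub, eval_C, ← h4, x2, mul_zero, zero_sub,
          norm_neg] at h5
        exact lt_irrefl _ h5
    obtain ⟨y, y1, y2⟩ := hy
    have hD0 : D = ∅ := eq_empty_of_forall_notMem fun z hz =>
      b1 y z y1 (hDm z hz).1 (y2.trans (hDm z hz).2.1.symm)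
    have ho : ¬2 ≤ (q.roots.filter fun z => 1 < ‖z‖).card := by
      rw [pa_two q0]
      rintro (⟨u, v, huv, pu, pv, hu, hv⟩ | ⟨u, pu, hu, hu'⟩)
      · exact hin' (.inl ⟨_, _, fun h => huv ((starRingEnd ℂ).injective (inv_injective h)),
          (hout u pu hu).2.1, (hout v pv hv).2.1, (hout u pu hu).2.2, (hout v pv hv).2.2⟩)
      · obtain ⟨g1, g2, g3⟩ := hout u pu hu
        have u0 : u ≠ 0 := norm_pos_iff.1 (zero_lt_one.trans pu)
        have g4 := hde u u0
        rw [hu', mul_zero, eq_comm, mul_eq_zero, _root_.map_eq_zero, eval_mul, eval_C, eval_sub,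
          eval_C, ← hA, g3, mul_zero, zero_sub, neg_eq_zero, mul_eq_zero] at g4
        exact hin' (.inr ⟨_, g2, g3,
          (g4.resolve_left (pow_ne_zero _ u0)).resolve_left g1⟩)
    rw [hD0, sum_empty] at hon
    left
    rcases eq_or_ne c 0 with h | h
    · have : (q.roots.filter fun z => 1 < ‖z‖).card = 0 := by
        rw [Multiset.card_eq_zero, Multiset.filter_eq_nil]
        intro u hu pu
        obtain ⟨g1, g2, g3⟩ := hout u pu ((mem_roots q0).1 hu)
        exact hin' (.inl ⟨_, 0, g1, g2, by simp, g3, h00.trans h⟩)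
      omega
    · have := hdeg h
      omega
  push Not at hx
  have c0 : c ≠ 0 := h00 ▸ hx 0 (by simp)
  have i0 : cnt q 1 = 0 := by
    rw [cnt, Multiset.card_eq_zero, Multiset.filter_eq_nil]
    exact fun u hu pu => hx u pu ((mem_roots q0).1 hu)
  have o0 : (q.roots.filter fun z => 1 < ‖z‖).card = 0 := by
    rw [Multiset.card_eq_zero, Multiset.filter_eq_nil]
    exact fun u hu pu => hx _ (hout u pu ((mem_roots q0).1 hu)).2.1
      (hout u pu ((mem_roots q0).1 hu)).2.2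
  have := hdeg c0
  have hp := fun x (hx : x ∈ D) z (hz : z ∈ D) (h : x ≠ z) =>
    b3 x z (hDm x hx).1 (hDm z hz).1 h ((hDm x hx).2.1.trans (hDm z hz).2.1.symm)
  by_cases hc : D.card ≤ 1
  · left
    have := sum_le_card_nsmul D _ 3 fun z hz => (hDm z hz).2.2.1
    rw [smul_eq_mul] at this
    omega
  obtain ⟨x, hx, z, hz, hxz⟩ := one_lt_card.1 (not_le.1 hc)
  obtain ⟨g1, r, r0, g2⟩ := hp x hx z hz hxz
  have z0 : z ≠ 0 := norm_pos_iff.1 ((hDm z hz).1 ▸ one_pos)
  have hsub : D ⊆ {x, z} := fun y hy => by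
    by_contra h
    simp only [mem_insert, mem_singleton, not_or] at h
    obtain ⟨-, s, s0, g3⟩ := hp y hy x hx h.1
    obtain ⟨-, t, t0, g4⟩ := hp y hy z hz h.2
    rw [g3, g2, ← mul_assoc] at g4
    have : s * r = t := by exact_mod_cast mul_right_cancel₀ (mul_ne_zero z0 g1) g4
    nlinarith [mul_pos_of_neg_of_neg s0 r0]
  have mx := (hDm x hx).2.2.2 (hp z hz x hx hxz.symm).1
  have mz := (hDm z hz).2.2.2 g1
  have hle : ∑ y ∈ D, q.rootMultiplicity y ≤ 4 := by
    refine (sum_le_sum_of_subset hsub).trans ?_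
    rw [sum_pair hxz, mx, mz]
  obtain ⟨-, Q, q1, -, q3⟩ := pe_mult (N := n + 1) (m := 1) n0 q0
    (by rw [Nat.cast_succ]; exact hpo) mx
  obtain ⟨-, R, r1, r2, r3⟩ := pe_mult (N := n + 1) (m := 1) n0 q0
    (by rw [Nat.cast_succ]; exact hpo) mz
  replace q3 := q3 rfl
  replace r3 := r3 rfl
  simp only [derivative_sub, derivative_C, sub_zero] at q3 r3
  have hsi : ∀ u, ‖u‖ = 1 → u ^ (n + 1) * conj (u * (pol n a).derivative.eval u) =
      u * (pol n a).derivative.eval u := fun u hu => by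
    rw [mul_der_pol, P_rev_circle n _ hu]
    refine P_congr (fun k hk => ?_) u
    rw [hF k hk, map_mul, map_natCast, (pe_ne hk).2.2.2]
  refine .inr ⟨by omega, x, z, Q, R, r, fun h => ?_, fun h => ?_, hxz, (hDm x hx).1, (hDm z hz).1,
    q1, r1, r2, ?_, r0, ?_, ?_⟩
  · exact (mem_filter.1 hx).2 (mem_filter.1 h).2
  · exact (mem_filter.1 hz).2 (mem_filter.1 h).2
  · have g3 := hsi x (hDm x hx).1
    have g4 := hsi z (hDm z hz).1
    rw [g2, map_mul, Complex.conj_ofReal] at g3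
    have g5 : (r : ℂ) * conj (z * (pol n a).derivative.eval z) ≠ 0 :=
      mul_ne_zero (Complex.ofReal_ne_zero.2 r0.ne) ((_root_.map_ne_zero _).2 (mul_ne_zero z0 g1))
    exact mul_right_cancel₀ g5 (by linear_combination g3 - r * g4)
  · linear_combination (x / 2) * q3 - (r * z / 2) * r3 - (n / 2) * g2
  · rw [← eval_pol, ← eval_pol, (hDm x hx).2.1, (hDm z hz).2.1]

theorem pert_st (h1 : PencilSt) (h2 : BdSt) (h3 : CohnSt) : PertSt := by
  intro n a β hn hU hF β1 hβ hd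
  have n1 : 1 ≤ n := by omega
  set b : ℝ → ℕ → ℂ := fun ε k => pb n a k + ε * β k with hb
  have hs : ∀ ε, ∀ k ∈ Icc 1 n, b ε k = conj (b ε (n + 1 - k)) := fun ε k hk => by
    simp only [hb, map_add, map_mul, Complex.conj_ofReal, ← hβ k hk, ← pe_sym hF hk]
  have hP : ∀ ε z, P n (b ε) z = P n (pb n a) z + ε * P n β z := fun ε z => by
    simp only [P, hb, mul_sum, ← sum_add_distrib]
    exact sum_congr rfl fun k _ => by ring
  have b1 : ∀ ε, b ε 1 = 1 := fun ε => by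
    have n0 : (n : ℂ) ≠ 0 := Nat.cast_ne_zero.2 (by omega)
    simp [hb, pb, β1, hU.1, n0]
  set H : ℝ × ℂ → ℂ → ℂ := fun y z => (T n 1 (b y.1) y.2).eval z with hH
  have cH : Continuous (Function.uncurry H) := by
    have c1 := cont_P n (pb n a)
    have c2 := cont_P n β
    simp only [hH, eval_T, hP]
    unfold Function.uncurry
    fun_prop
  have rH : ∀ y z, ‖z‖ = 1 → z ^ (n + 1) * conj (H y z) = H y z := fun y => pe_real' (hs y.1) y.2
  have key : ∀ c₀ : ℂ, ∀ᶠ y : ℝ × ℂ in 𝓝 (0, c₀), y.2 ≠ 0 →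
      ((T n 1 (b y.1) y.2).roots.filter fun z => ‖z‖ ≠ 1).card ≤ 3 := by
    intro c₀
    have h0 : ∀ z, H (0, c₀) z = (T n 1 (pb n a) c₀).eval z := fun z => by
      simp [hH, eval_T, hP]
    have fin : ∀ (y : ℝ × ℂ) (G : Finset ℂ) (V : ℂ → Set ℂ), (G : Set ℂ).PairwiseDisjoint V →
        (∀ x ∈ G, ∃ z ∈ V x, ‖z‖ = 1 ∧ H y z = 0) → n + 1 ≤ G.card + 3 → y.2 ≠ 0 →
        ((T n 1 (b y.1) y.2).roots.filter fun z => ‖z‖ ≠ 1).card ≤ 3 := fun y G V g1 g2 g3 g4 => by
      have := natDegree_T (n := n) (b y.1) one_ne_zero g4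
      exact pa_count (fun h => by simp [h] at this) g1 g2 (this ▸ g3)
    obtain ⟨S, s1, s2⟩ := pe_cls h1 h2 hn hU hF c₀
    have hS : ∀ V : ℂ → Set ℂ, (∀ x, x ∈ V x ∧ IsOpen (V x)) → ∀ᶠ y : ℝ × ℂ in 𝓝 (0, c₀),
        ∀ x ∈ S, ∃ z ∈ V x, ‖z‖ = 1 ∧ H y z = 0 := fun V hV =>
      (eventually_all_finset S).2 fun x hx => by
        obtain ⟨g1, Q, g2, g3⟩ := s1 x hx
        exact pa_pers cH rH h0 g1 g2 g3 ((hV x).2.mem_nhds (hV x).1)
    rcases s2 with s2 | ⟨s2, x, z, Q, R, r, xS, zS, -, x1, z1, e1, e2, R0, hN, r0, e3, e4⟩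
    · obtain ⟨V, v1, v2⟩ := S.finite_toSet.t2_separation
      filter_upwards [hS V v1] with y hy using fin y S V v2 hy s2
    · obtain ⟨V, v1, v2⟩ := (insert x (insert z S)).finite_toSet.t2_separation
      have hn' : ∀ y, H y x = H y z := fun y => by
        have g1 := congrArg (eval x) e1
        have g2 := congrArg (eval z) e2
        simp only [eval_T, eval_mul, eval_pow, eval_sub, eval_X, eval_C, sub_self] at g1 g2
        simp only [hH, eval_T, hP, hd x z x1 z1 e4, hN] at g1 ⊢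
        linear_combination g1 - g2
      filter_upwards [hS V v1, pa_node cH rH h0 x1 z1 e1 e2 R0 hN r0 e3 hn'
        ((v1 x).2.mem_nhds (v1 x).1) ((v1 z).2.mem_nhds (v1 z).1)] with y hy hy'
      rcases hy' with g | g
      · refine fin y (insert x S) V (v2.subset (coe_subset.2 (insert_subset_insert _
          (subset_insert _ _)))) (forall_mem_insert .. |>.2 ⟨g, hy⟩) ?_
        rw [card_insert_of_notMem xS]
        omega
      · refine fin y (insert z S) V (v2.subset (coe_subset.2 (subset_insert _ _)))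
          (forall_mem_insert .. |>.2 ⟨g, hy⟩) ?_
        rw [card_insert_of_notMem zS]
        omega
  have hK := (isCompact_closedBall (0 : ℂ) (∑ k ∈ Icc 1 n, ‖pb n a k‖ + ∑ k ∈ Icc 1 n, ‖β k‖)
    ).eventually_forall_of_forall_eventually (x₀ := (0 : ℝ)) (P := fun ε c => c ≠ 0 →
      ((T n 1 (b ε) c).roots.filter fun z => ‖z‖ ≠ 1).card ≤ 3) fun c _ => key c
  filter_upwards [hK, Icc_mem_nhds (neg_lt_zero.2 one_pos) one_pos] with ε hε e1
  refine ⟨by simp [β1, hU.1], ?_⟩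
  have := h3 n 1 (b ε) n1 norm_one (b1 ε ▸ one_ne_zero) (fun k hk => by rw [one_mul, ← hs ε k hk])
    fun c c0 hc => .inr (hε c (mem_closedBall_zero_iff.2 (hc.trans ?_)) c0)
  · convert this using 1
    funext z
    refine P_congr (fun k hk => ?_) z
    simp only [hb, mul_add, pe_ab a hk]
    ring
  · rw [← sum_add_distrib]
    refine sum_le_sum fun k _ => (norm_add_le _ _).trans ?_
    rw [norm_mul, Complex.norm_real, Real.norm_eq_abs]
    nlinarith [abs_le.2 e1, norm_nonneg (β k)]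

end Pool.Agent.MP_d3fa2a_an.F
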