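import Pool.Agent.MP_d3fa2a_an.F.Def

/-! Persistence of zeros on the circle for self inversive families. -/

set_option autoImplicit false

open Finset Polynomial Filter Topology
open scoped ComplexConjugate

namespace Pool.Agent.MP_d3fa2a_an.F

/-- the point `ζ exp (2 i t)` -/
noncomputable def pa_pt (ζ : ℂ) (t : ℝ) : ℂ := ζ * Complex.exp (t * Complex.I) ^ 2

/-- the factor that makes a self inversive function real -/
noncomputable def pa_fac (N : ℕ) (e : ℂ) (t : ℝ) : ℂ := e * conj (Complex.exp (t * Complex.I)) ^ N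

theorem pa_norm {ζ : ℂ} (h : ‖ζ‖ = 1) (t : ℝ) : ‖pa_pt ζ t‖ = 1 := by
  simp [pa_pt, h, Complex.norm_exp_ofReal_mul_I]

theorem pa_pt_zero (ζ : ℂ) : pa_pt ζ 0 = ζ := by simp [pa_pt]

theorem pa_cont (ζ : ℂ) : Continuous (pa_pt ζ) := by
  unfold pa_pt
  fun_prop

theorem pa_cont_fac (N : ℕ) (e : ℂ) : Continuous (pa_fac N e) := by
  unfold pa_fac
  fun_prop

theorem pa_real {N : ℕ} {ζ e y : ℂ} {t : ℝ} (hζ : ‖ζ‖ = 1) (he : e ^ 2 * ζ ^ N = 1)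
    (hy : pa_pt ζ t ^ N * conj y = y) : (pa_fac N e t * y).im = 0 := by
  have h1 : ‖e‖ = 1 := by
    have := congrArg norm he
    rw [norm_mul, norm_pow, norm_pow, hζ, one_pow, mul_one, norm_one] at this
    exact (pow_eq_one_iff_of_nonneg (norm_nonneg _) two_ne_zero).1 this
  have h2 : conj e * e = 1 := by rw [Complex.conj_mul', h1]; simp
  have h3 : conj (Complex.exp (t * Complex.I)) * Complex.exp (t * Complex.I) = 1 := by
    rw [Complex.conj_mul', Complex.norm_exp_ofReal_mul_I]; simp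
  have h4 : conj e = e * ζ ^ N := by linear_combination (-conj e) * he + e * ζ ^ N * h2
  rw [← Complex.conj_eq_iff_im, pa_fac, map_mul, map_mul, map_pow, Complex.conj_conj, h4]
  rw [pa_pt, mul_pow, ← pow_mul, two_mul, pow_add] at hy
  generalize Complex.exp (t * Complex.I) = u at *
  have h5 : conj u ^ N * u ^ N = 1 := by rw [← mul_pow, h3, one_pow]
  linear_combination (e * conj u ^ N) * hy - (e * ζ ^ N * u ^ N * conj y) * h5

theorem pa_fac_ne {N : ℕ} {ζ e : ℂ} (he : e ^ 2 * ζ ^ N = 1) (t : ℝ) : pa_fac N e t ≠ 0 := by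
  have : e ≠ 0 := fun h => by simp [h] at he
  simp [pa_fac, this, Complex.exp_ne_zero]

theorem pa_cross {N : ℕ} {H : ℂ → ℂ} (hH : Continuous H)
    (hr : ∀ z, ‖z‖ = 1 → z ^ N * conj (H z) = H z) {ζ e : ℂ} (hζ : ‖ζ‖ = 1)
    (he : e ^ 2 * ζ ^ N = 1) {s t : ℝ} (h1 : (pa_fac N e s * H (pa_pt ζ s)).re ≤ 0)
    (h2 : 0 ≤ (pa_fac N e t * H (pa_pt ζ t)).re) : ∃ x ∈ Set.uIcc s t, H (pa_pt ζ x) = 0 := by
  have hc : Continuous fun x => (pa_fac N e x * H (pa_pt ζ x)).re :=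
    Complex.continuous_re.comp ((pa_cont_fac N e).mul (hH.comp (pa_cont ζ)))
  obtain ⟨x, hx, h0⟩ := intermediate_value_uIcc (a := s) (b := t) hc.continuousOn
    (Set.mem_uIcc.2 (.inl ⟨h1, h2⟩))
  refine ⟨x, hx, (mul_eq_zero.1 (Complex.ext h0 ?_)).resolve_left (pa_fac_ne he x)⟩
  exact pa_real hζ he (hr _ (pa_norm hζ x))

theorem pa_sgn {N m : ℕ} {T₀ Q : ℂ[X]} {ζ e : ℂ} (hζ : ‖ζ‖ = 1) (he : e ^ 2 * ζ ^ N = 1)
    (hr : ∀ z, ‖z‖ = 1 → z ^ N * conj (T₀.eval z) = T₀.eval z) (hT : T₀ = (X - C ζ) ^ m * Q)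
    (hQ : Q.eval ζ ≠ 0) : ∃ c : ℝ, c ≠ 0 ∧ (c : ℂ) = e * (2 * Complex.I * ζ) ^ m * Q.eval ζ ∧
      ∀ᶠ t : ℝ in 𝓝 0, ∃ y : ℝ, 0 < c * y ∧
        (pa_fac N e t * T₀.eval (pa_pt ζ t)).re = Real.sin t ^ m * y := by
  set h : ℝ → ℂ := fun t => pa_fac N e t *
    ((2 * Complex.I * ζ * Complex.exp (t * Complex.I)) ^ m * Q.eval (pa_pt ζ t)) with hh
  have hc : Continuous h := (pa_cont_fac N e).mul ((by fun_prop : Continuous fun t : ℝ =>
    (2 * Complex.I * ζ * Complex.exp (t * Complex.I)) ^ m).mul (Q.continuous.comp (pa_cont ζ)))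
  have key : ∀ t : ℝ, pa_fac N e t * T₀.eval (pa_pt ζ t) = (Real.sin t ^ m : ℝ) * h t := by
    intro t
    have e1 : pa_pt ζ t - ζ = (Real.sin t : ℂ) * (2 * Complex.I * ζ * Complex.exp (t * Complex.I)) := by
      have a := Complex.exp_mul_I (t : ℂ)
      have b := Complex.sin_sq_add_cos_sq (t : ℂ)
      rw [pa_pt, Complex.ofReal_sin, a]
      linear_combination ζ * b + (-(ζ * Complex.sin t ^ 2)) * Complex.I_sq
    rw [hT, eval_mul, eval_pow, eval_sub, eval_X, eval_C, e1, hh, mul_pow]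
    push_cast
    ring
  have h0 : h 0 = e * (2 * Complex.I * ζ) ^ m * Q.eval ζ := by
    simp [hh, pa_fac, pa_pt, mul_assoc]
  have him : (h 0).im = 0 := by
    have t1 : Tendsto (fun t => (h t).im) (𝓝[>] 0) (𝓝 (h 0).im) :=
      ((Complex.continuous_im.comp hc).tendsto 0).mono_left nhdsWithin_le_nhds
    refine tendsto_nhds_unique t1 (tendsto_const_nhds.congr' ?_)
    filter_upwards [Ioo_mem_nhdsGT Real.pi_pos] with t ht
    have := pa_real hζ he (hr _ (pa_norm hζ t))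
    rw [key, Complex.im_ofReal_mul, mul_eq_zero] at this
    exact (this.resolve_left (pow_pos (Real.sin_pos_of_pos_of_lt_pi ht.1 ht.2) m).ne').symm
  have hne : h 0 ≠ 0 := by
    have : e ≠ 0 := fun h => by simp [h] at he
    have : ζ ≠ 0 := norm_pos_iff.1 (hζ ▸ one_pos)
    rw [h0]
    simp [*]
  have hre : (h 0).re ≠ 0 := fun h' => hne (Complex.ext h' him)
  refine ⟨(h 0).re, hre, h0 ▸ Complex.ext (by simp) (by simp [him]), ?_⟩
  have t2 : Continuous fun t => (h 0).re * (h t).re :=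
    continuous_const.mul (Complex.continuous_re.comp hc)
  filter_upwards [(t2.tendsto 0).eventually (lt_mem_nhds (mul_self_pos.2 hre))] with t ht
  exact ⟨_, ht, by rw [key, Complex.re_ofReal_mul]⟩

theorem pa_small {ζ : ℂ} {V : Set ℂ} (hV : V ∈ 𝓝 ζ) {p : ℝ → Prop} (hp : ∀ᶠ t in 𝓝 (0 : ℝ), p t) :
    ∃ δ : ℝ, 0 < δ ∧ 0 < Real.sin δ ∧ ∀ t, |t| ≤ δ → p t ∧ pa_pt ζ t ∈ V := by
  have h1 : ∀ᶠ t in 𝓝 (0 : ℝ), pa_pt ζ t ∈ V :=
    (pa_cont ζ).continuousAt.eventually_mem (by rwa [pa_pt_zero])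
  obtain ⟨ε, e0, he⟩ := Metric.eventually_nhds_iff.1 (hp.and h1)
  refine ⟨min (ε / 2) 1, by positivity, Real.sin_pos_of_pos_of_lt_pi (by positivity)
    ((min_le_right _ _).trans_lt (by linarith [Real.pi_gt_three])), fun t ht => he ?_⟩
  rw [Real.dist_eq, sub_zero]
  exact (ht.trans (min_le_left _ _)).trans_lt (by linarith)

section

variable {Y : Type} [TopologicalSpace Y] {N : ℕ} {H : Y → ℂ → ℂ} {y₀ : Y} {T₀ : ℂ[X]}

theorem pa_ev (hH : Continuous (Function.uncurry H)) (h0 : ∀ z, H y₀ z = T₀.eval z) {e ζ : ℂ}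
    {c t : ℝ} (h : 0 < c * (pa_fac N e t * T₀.eval (pa_pt ζ t)).re) :
    ∀ᶠ y in 𝓝 y₀, 0 < c * (pa_fac N e t * H y (pa_pt ζ t)).re := by
  have hc : Continuous fun y => c * (pa_fac N e t * H y (pa_pt ζ t)).re :=
    continuous_const.mul (Complex.continuous_re.comp (continuous_const.mul
      (hH.comp (continuous_id.prodMk continuous_const))))
  exact (hc.tendsto y₀).eventually (lt_mem_nhds (by rwa [h0]))

theorem pa_pers (hH : Continuous (Function.uncurry H))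
    (hr : ∀ y z, ‖z‖ = 1 → z ^ N * conj (H y z) = H y z) (h0 : ∀ z, H y₀ z = T₀.eval z)
    {ζ : ℂ} {Q : ℂ[X]} (hζ : ‖ζ‖ = 1) (hT : T₀ = (X - C ζ) ^ 1 * Q) (hQ : Q.eval ζ ≠ 0)
    {V : Set ℂ} (hV : V ∈ 𝓝 ζ) : ∀ᶠ y in 𝓝 y₀, ∃ z ∈ V, ‖z‖ = 1 ∧ H y z = 0 := by
  have z0 : ζ ≠ 0 := norm_pos_iff.1 (hζ ▸ one_pos)
  obtain ⟨e, he⟩ := IsAlgClosed.exists_pow_nat_eq (ζ ^ N)⁻¹ two_pos
  replace he : e ^ 2 * ζ ^ N = 1 := by rw [he, inv_mul_cancel₀ (pow_ne_zero _ z0)]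
  obtain ⟨c, c0, -, hc⟩ := pa_sgn hζ he (fun z hz => h0 z ▸ hr y₀ z hz) hT hQ
  obtain ⟨δ, d0, s0, hδ⟩ := pa_small hV hc
  obtain ⟨⟨y1, a1, b1⟩, -⟩ := hδ δ (abs_of_pos d0).le
  obtain ⟨⟨y2, a2, b2⟩, -⟩ := hδ (-δ) (by rw [abs_neg, abs_of_pos d0])
  rw [Real.sin_neg] at b2
  filter_upwards [pa_ev (N := N) hH h0 (e := e) (ζ := ζ) (c := c) (t := δ) (by rw [b1]; nlinarith),
    pa_ev (N := N) hH h0 (e := e) (ζ := ζ) (c := -c) (t := -δ) (by rw [b2]; nlinarith)] with y p1 p2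
  have hy : Continuous (H y) := hH.comp (continuous_const.prodMk continuous_id)
  have fin : ∀ x, |x| ≤ δ → H y (pa_pt ζ x) = 0 → ∃ z ∈ V, ‖z‖ = 1 ∧ H y z = 0 :=
    fun x hx h => ⟨_, (hδ x hx).2, pa_norm hζ x, h⟩
  rcases c0.lt_or_gt with h | h
  · obtain ⟨x, hx, h'⟩ := pa_cross hy (hr y) hζ he (s := δ) (t := -δ) (by nlinarith) (by nlinarith)
    rw [Set.uIcc_of_ge (by linarith)] at hx
    exact fin x (abs_le.2 hx) h'
  · obtain ⟨x, hx, h'⟩ := pa_cross hy (hr y) hζ he (s := -δ) (t := δ) (by nlinarith) (by nlinarith)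
    rw [Set.uIcc_of_le (by linarith)] at hx
    exact fin x (abs_le.2 hx) h'

theorem pa_node (hH : Continuous (Function.uncurry H))
    (hr : ∀ y z, ‖z‖ = 1 → z ^ N * conj (H y z) = H y z) (h0 : ∀ z, H y₀ z = T₀.eval z)
    {ζ ξ : ℂ} {Q R : ℂ[X]} (hζ : ‖ζ‖ = 1) (hξ : ‖ξ‖ = 1) (hT : T₀ = (X - C ζ) ^ 2 * Q)
    (hT' : T₀ = (X - C ξ) ^ 2 * R) (hR : R.eval ξ ≠ 0) (hN : ζ ^ N = ξ ^ N) {r : ℝ} (r0 : r < 0)
    (hQ : ζ ^ 2 * Q.eval ζ = r * (ξ ^ 2 * R.eval ξ)) (hn : ∀ y, H y ζ = H y ξ)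
    {V W : Set ℂ} (hV : V ∈ 𝓝 ζ) (hW : W ∈ 𝓝 ξ) :
    ∀ᶠ y in 𝓝 y₀, (∃ z ∈ V, ‖z‖ = 1 ∧ H y z = 0) ∨ ∃ z ∈ W, ‖z‖ = 1 ∧ H y z = 0 := by
  have z0 : ζ ≠ 0 := norm_pos_iff.1 (hζ ▸ one_pos)
  have x0 : ξ ≠ 0 := norm_pos_iff.1 (hξ ▸ one_pos)
  obtain ⟨e, he⟩ := IsAlgClosed.exists_pow_nat_eq (ζ ^ N)⁻¹ two_pos
  replace he : e ^ 2 * ζ ^ N = 1 := by rw [he, inv_mul_cancel₀ (pow_ne_zero _ z0)]
  have he' : e ^ 2 * ξ ^ N = 1 := hN ▸ he
  have hQ0 : Q.eval ζ ≠ 0 := fun h => by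
    rw [h, mul_zero] at hQ
    exact mul_ne_zero (Complex.ofReal_ne_zero.2 r0.ne) (mul_ne_zero (pow_ne_zero _ x0) hR) hQ.symm
  obtain ⟨c, c0, e1, hc⟩ := pa_sgn hζ he (fun z hz => h0 z ▸ hr y₀ z hz) hT hQ0
  obtain ⟨d, -, e2, hd⟩ := pa_sgn hξ he' (fun z hz => h0 z ▸ hr y₀ z hz) hT' hR
  have hcd : c = r * d := by
    apply Complex.ofReal_injective
    push_cast
    rw [e1, e2]
    linear_combination (e * (2 * Complex.I) ^ 2) * hQ
  obtain ⟨δ, d0, s0, hδ⟩ := pa_small hV hc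
  obtain ⟨η, n0, t0, hη⟩ := pa_small hW hd
  obtain ⟨⟨y1, a1, b1⟩, -⟩ := hδ δ (abs_of_pos d0).le
  obtain ⟨⟨y2, a2, b2⟩, -⟩ := hη η (abs_of_pos n0).le
  filter_upwards [pa_ev (N := N) hH h0 (e := e) (ζ := ζ) (c := c) (t := δ)
      (by rw [b1]; nlinarith [mul_pos (pow_pos s0 2) a1]),
    pa_ev (N := N) hH h0 (e := e) (ζ := ξ) (c := d) (t := η)
      (by rw [b2]; nlinarith [mul_pos (pow_pos t0 2) a2])] with y p1 p2
  have hy : Continuous (H y) := hH.comp (continuous_const.prodMk continuous_id)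
  have hv : (pa_fac N e 0 * H y (pa_pt ζ 0)).re = (pa_fac N e 0 * H y (pa_pt ξ 0)).re := by
    rw [pa_pt_zero, pa_pt_zero, hn]
  have f1 : (∃ x ∈ Set.uIcc 0 δ, H y (pa_pt ζ x) = 0) → ∃ z ∈ V, ‖z‖ = 1 ∧ H y z = 0 := by
    rintro ⟨x, hx, h⟩
    rw [Set.uIcc_of_le d0.le] at hx
    exact ⟨_, (hδ x (abs_le.2 ⟨by linarith [hx.1], hx.2⟩)).2, pa_norm hζ x, h⟩
  have f2 : (∃ x ∈ Set.uIcc 0 η, H y (pa_pt ξ x) = 0) → ∃ z ∈ W, ‖z‖ = 1 ∧ H y z = 0 := by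
    rintro ⟨x, hx, h⟩
    rw [Set.uIcc_of_le n0.le] at hx
    exact ⟨_, (hη x (abs_le.2 ⟨by linarith [hx.1], hx.2⟩)).2, pa_norm hξ x, h⟩
  rcases c0.lt_or_gt with h | h
  · have hd' : 0 < d := by nlinarith
    rcases le_total 0 (pa_fac N e 0 * H y (pa_pt ζ 0)).re with g | g
    · exact .inl (f1 (Set.uIcc_comm δ 0 ▸ pa_cross hy (hr y) hζ he (by nlinarith) g))
    · exact .inr (f2 (pa_cross hy (hr y) hξ he' (hv ▸ g) (by nlinarith)))
  · have hd' : d < 0 := by nlinarith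
    rcases le_total 0 (pa_fac N e 0 * H y (pa_pt ζ 0)).re with g | g
    · exact .inr (f2 (Set.uIcc_comm η 0 ▸ pa_cross hy (hr y) hξ he' (by nlinarith) (hv ▸ g)))
    · exact .inl (f1 (pa_cross hy (hr y) hζ he g (by nlinarith)))

end

theorem pa_count {q : ℂ[X]} (hq : q ≠ 0) {G : Finset ℂ} {V : ℂ → Set ℂ}
    (hV : (G : Set ℂ).PairwiseDisjoint V) (hG : ∀ x ∈ G, ∃ z ∈ V x, ‖z‖ = 1 ∧ q.eval z = 0)
    (hc : q.natDegree ≤ G.card + 3) : (q.roots.filter fun z => ‖z‖ ≠ 1).card ≤ 3 := by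
  choose! f f1 f2 f3 using hG
  have hi : Set.InjOn f G := fun x hx y hy h => by
    by_contra hne
    exact Set.disjoint_left.1 (hV hx hy hne) (f1 x hx) (h ▸ f1 y hy)
  have h3 : (G.image f).val ≤ q.roots.filter fun z => ¬‖z‖ ≠ 1 :=
    (Multiset.le_iff_subset (G.image f).nodup).2 fun z hz => by
      obtain ⟨x, hx, rfl⟩ := mem_image.1 hz
      exact Multiset.mem_filter.2 ⟨(mem_roots hq).2 (f3 x hx), not_not.2 (f2 x hx)⟩
  have h4 := Multiset.card_le_card h3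
  have h5 := congrArg Multiset.card (Multiset.filter_add_not (fun z => ‖z‖ ≠ 1) q.roots)
  rw [Multiset.card_add, IsAlgClosed.card_roots_eq_natDegree] at h5
  rw [card_val, card_image_of_injOn hi] at h4
  omega

theorem pa_two {q : ℂ[X]} (hq : q ≠ 0) (p : ℂ → Prop) [DecidablePred p] :
    2 ≤ (q.roots.filter p).card ↔ (∃ u v, u ≠ v ∧ p u ∧ p v ∧ q.eval u = 0 ∧ q.eval v = 0) ∨
      ∃ u, p u ∧ q.eval u = 0 ∧ q.derivative.eval u = 0 := by
  constructor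
  · intro h
    by_cases hn : (q.roots.filter p).Nodup
    · rw [← Multiset.toFinset_card_of_nodup hn] at h
      obtain ⟨u, hu, v, hv, huv⟩ := Finset.one_lt_card.1 h
      simp only [Multiset.mem_toFinset, Multiset.mem_filter, mem_roots hq] at hu hv
      exact .inl ⟨u, v, huv, hu.2, hv.2, hu.1, hv.1⟩
    · rw [Multiset.nodup_iff_count_le_one] at hn
      push Not at hn
      obtain ⟨u, hu⟩ := hn
      have pu : p u := (Multiset.mem_filter.1 (Multiset.count_pos.1 (zero_lt_one.trans hu))).2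
      rw [Multiset.count_filter_of_pos pu, count_roots] at hu
      exact .inr ⟨u, pu, (one_lt_rootMultiplicity_iff_isRoot hq).1 hu⟩
  · rintro (⟨u, v, huv, pu, pv, hu, hv⟩ | ⟨u, pu, hu, hu'⟩)
    · refine le_trans ?_ (Multiset.toFinset_card_le _)
      refine Finset.one_lt_card.2 ⟨u, ?_, v, ?_, huv⟩ <;>
        simp [*]
    · refine le_trans ?_ (Multiset.count_le_card u _)
      rw [Multiset.count_filter_of_pos pu, count_roots]
      exact (one_lt_rootMultiplicity_iff_isRoot hq).2 ⟨hu, hu'⟩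

theorem pa_revlt {A : ℂ[X]} {N : ℕ} (hA : ∀ x : ℂ, ‖x‖ < 1 → A.eval x ≠ 0) (hd : A.natDegree < N)
    {x : ℂ} (x0 : x ≠ 0) (hx : ‖x‖ < 1) : ‖x ^ N * conj (A.eval (conj x)⁻¹)‖ < ‖A.eval x‖ := by
  have A0 : A ≠ 0 := fun h => hA 0 (by simp) (by simp [h])
  have he := fun z => (IsAlgClosed.splits A).eval_eq_prod_roots z
  have hη : ∀ η ∈ A.roots, 1 ≤ ‖η‖ := fun η hη => not_lt.1 fun h => hA η h ((mem_roots A0).1 hη)
  have key : ‖x‖ ^ A.roots.card * ‖(A.roots.map fun η => (conj x)⁻¹ - η).prod‖ ≤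
      ‖(A.roots.map fun η => x - η).prod‖ := by
    generalize A.roots = R at hη
    induction R using Multiset.induction_on with
    | empty => simp
    | cons η R ih =>
      simp only [Multiset.map_cons, Multiset.prod_cons, norm_mul, Multiset.card_cons, pow_succ]
      have h1 := hη η (Multiset.mem_cons_self _ _)
      have h5 : ‖x‖ * ‖(conj x)⁻¹ - η‖ ≤ ‖x - η‖ := by
        have c0 : conj x ≠ 0 := (_root_.map_ne_zero _).2 x0
        rw [← Complex.norm_conj x, ← norm_mul, mul_sub, mul_inv_cancel₀ c0]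
        have h2 : 1 ≤ ‖η‖ ^ 2 := one_le_pow₀ h1
        have h3 : ‖x‖ ^ 2 ≤ 1 := pow_le_one₀ (norm_nonneg _) hx.le
        refine le_of_sq_le_sq ?_ (norm_nonneg _)
        have h4 := mul_nonneg (sub_nonneg.2 h2) (sub_nonneg.2 h3)
        simp only [Complex.sq_norm, Complex.normSq_apply] at h4 ⊢
        simp
        nlinarith
      have := mul_le_mul h5 (ih fun y hy => hη y (Multiset.mem_cons_of_mem hy)) (by positivity)
        (norm_nonneg _)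
      linarith
  have h6 : ‖x‖ ^ A.natDegree * ‖A.eval (conj x)⁻¹‖ ≤ ‖A.eval x‖ := by
    rw [he, he, norm_mul, norm_mul, ← IsAlgClosed.card_roots_eq_natDegree, mul_left_comm]
    exact mul_le_mul_of_nonneg_left key (norm_nonneg _)
  obtain ⟨j, rfl⟩ := Nat.exists_eq_add_of_lt hd
  rw [norm_mul, norm_pow, Complex.norm_conj, add_assoc, pow_add, mul_right_comm]
  have h7 : ‖x‖ ^ (j + 1) < 1 := pow_lt_one₀ (norm_nonneg _) hx j.succ_ne_zero
  have h8 := norm_pos_iff.2 (hA x hx)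
  have h9 : 0 ≤ ‖x‖ ^ (j + 1) := by positivity
  nlinarith [mul_le_mul_of_nonneg_right h6 h9]

end Pool.Agent.MP_d3fa2a_an.F
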